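import Pool.Agent.Lib.MP_edae2b_pr.Grid

/-!
# Upper bound for the passage time to the boundary of a box
-/

namespace Pool.Agent.Lib.MP_edae2b_pr

open Finset

/-- A potential depending on the numbers of infected sites in the top three layers. -/
structure IsPot (D : ℕ) (μ : ℝ) (V : ℕ → ℕ → ℕ → ℝ) : Prop where
  mu_nonneg : 0 ≤ μ
  nonneg : ∀ a b c, 0 ≤ V a b c
  anti1 : ∀ a b c, V (a + 1) b c ≤ V a b c
  anti2 : ∀ a b c, V a (b + 1) c ≤ V a b c
  anti3 : ∀ a b c, V a b (c + 1) ≤ V a b c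
  step : ∀ a b c, 1 ≤ a → V 1 a b ≤ μ + V a b c
  main : ∀ a b c : ℕ, 1 ≤ a → 1 ≤ (a : ℝ) * (μ + V a b c - V 1 a b) +
    (2 * D * a + (b - a : ℕ) - 2 * eE a : ℝ) * (V a b c - V (a + 1) b c) +
    (2 * D * b + (c - b : ℕ) + (a - b : ℕ) - 2 * eE b : ℝ) * (V a b c - V a (b + 1) c) +
    (2 * D * c + (b - c : ℕ) - 2 * eE c : ℝ) * (V a b c - V a b (c + 1))

variable {D : ℕ}

/-- The top layer of a set of lattice points. -/
noncomputable def fr (S : Finset (Fin (D + 1) → ℤ)) : ℤ :=
  if h : S.Nonempty then (S.image fun z => z 0).max' (h.image _) else 0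

lemma le_fr {S : Finset (Fin (D + 1) → ℤ)} {z : Fin (D + 1) → ℤ} (hz : z ∈ S) : z 0 ≤ fr S := by
  unfold fr
  rw [dif_pos (show S.Nonempty from ⟨z, hz⟩)]
  exact le_max' _ _ (mem_image_of_mem (fun z : Fin (D + 1) → ℤ => z 0) hz)

lemma exists_fr {S : Finset (Fin (D + 1) → ℤ)} (h : S.Nonempty) : ∃ z ∈ S, z 0 = fr S := by
  unfold fr
  rw [dif_pos h]
  have := max'_mem (S.image fun z => z 0) (h.image _)
  rw [mem_image] at this
  exact this

lemma fr_unique {S : Finset (Fin (D + 1) → ℤ)} {f : ℤ} (h1 : ∀ z ∈ S, z 0 ≤ f)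
    (h2 : ∃ z ∈ S, z 0 = f) : fr S = f := by
  obtain ⟨z, hz, rfl⟩ := h2
  refine le_antisymm ?_ (le_fr hz)
  obtain ⟨y, hy, hyf⟩ := exists_fr ⟨z, hz⟩
  rw [← hyf]
  exact h1 y hy

/-- The potential of a set of lattice points. -/
noncomputable def PotZ (n : ℕ) (μ : ℝ) (V : ℕ → ℕ → ℕ → ℝ) (S : Finset (Fin (D + 1) → ℤ)) : ℝ :=
  μ * (n - fr S) + V (lay S (fr S)).card (lay S (fr S - 1)).card (lay S (fr S - 2)).card

lemma card_lay_insert {S : Finset (Fin (D + 1) → ℤ)} {v : Fin (D + 1) → ℤ} (hv : v ∉ S) (k : ℤ) :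
    (lay (insert v S) k).card = (lay S k).card + if v 0 = k then 1 else 0 := by
  unfold lay
  rw [filter_insert]
  split_ifs with h
  · rw [card_insert_of_notMem]
    intro h'
    exact hv (mem_filter.mp h').1
  · simp

lemma lay_above {S : Finset (Fin (D + 1) → ℤ)} {k : ℤ} (hk : fr S < k) : (lay S k).card = 0 := by
  rw [card_eq_zero]
  unfold lay
  rw [filter_eq_empty_iff]
  intro z hz h
  have := le_fr hz
  omega

/-- The decrements of the potential. -/
noncomputable def dec (μ : ℝ) (V : ℕ → ℕ → ℕ → ℝ) (f : ℤ) (a b c : ℕ) (k : ℤ) : ℝ :=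
  (if k = f + 1 then μ + V a b c - V 1 a b else 0) +
  (if k = f then V a b c - V (a + 1) b c else 0) +
  (if k = f - 1 then V a b c - V a (b + 1) c else 0) +
  (if k = f - 2 then V a b c - V a b (c + 1) else 0)

lemma dec_nonneg {μ : ℝ} {V : ℕ → ℕ → ℕ → ℝ} (hV : IsPot D μ V) (f : ℤ) {a : ℕ} (ha : 1 ≤ a)
    (b c : ℕ) (k : ℤ) : 0 ≤ dec μ V f a b c k := by
  unfold dec
  have h1 := hV.step a b c ha
  have h2 := hV.anti1 a b c
  have h3 := hV.anti2 a b c
  have h4 := hV.anti3 a b c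
  split_ifs <;> linarith

lemma PotZ_sub {n : ℕ} {μ : ℝ} {V : ℕ → ℕ → ℕ → ℝ} {S : Finset (Fin (D + 1) → ℤ)}
    (hS : S.Nonempty) {v : Fin (D + 1) → ℤ} (hv : v ∉ S) (hk : v 0 ≤ fr S + 1) :
    PotZ n μ V S - PotZ n μ V (insert v S) =
      dec μ V (fr S) (lay S (fr S)).card (lay S (fr S - 1)).card (lay S (fr S - 2)).card (v 0) := by
  rcases eq_or_lt_of_le hk with h | h
  · have hfr : fr (insert v S) = fr S + 1 := by
      refine fr_unique (fun z hz => ?_) ⟨v, mem_insert_self _ _, h⟩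
      rcases mem_insert.mp hz with rfl | hz
      · exact hk
      · have := le_fr hz
        omega
    unfold PotZ dec
    rw [hfr, card_lay_insert hv, card_lay_insert hv, card_lay_insert hv, h, if_pos rfl,
      if_neg (by omega), if_neg (by omega), lay_above (by omega : fr S < fr S + 1), if_pos rfl,
      if_neg (by omega), if_neg (by omega), if_neg (by omega),
      show fr S + 1 - 1 = fr S by ring, show fr S + 1 - 2 = fr S - 1 by ring]
    push_cast
    simp only [zero_add, add_zero]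
    ring
  · have hfr : fr (insert v S) = fr S := by
      obtain ⟨y, hy, hyf⟩ := exists_fr hS
      refine fr_unique (fun z hz => ?_) ⟨y, mem_insert_of_mem hy, hyf⟩
      rcases mem_insert.mp hz with rfl | hz
      · omega
      · exact le_fr hz
    unfold PotZ dec
    rw [hfr, card_lay_insert hv, card_lay_insert hv, card_lay_insert hv, if_neg (by omega : ¬ v 0 = fr S + 1)]
    by_cases h0 : v 0 = fr S
    · rw [if_pos h0, if_neg (by omega), if_neg (by omega), if_pos h0, if_neg (by omega),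
        if_neg (by omega)]
      simp
    · rw [if_neg h0, if_neg h0]
      by_cases h1 : v 0 = fr S - 1
      · rw [if_pos h1, if_neg (by omega), if_pos h1, if_neg (by omega)]
        simp
      · rw [if_neg h1, if_neg h1]
        by_cases h2 : v 0 = fr S - 2
        · rw [if_pos h2, if_pos h2]
          simp
        · rw [if_neg h2, if_neg h2]
          simp

lemma sum_TT_ite (S : Finset (Fin (D + 1) → ℤ)) (k : ℤ) (d : ℝ) :
    ∑ p ∈ TT S, (if (p.1 + dv p.2) 0 = k then d else 0) = cc S k * d := by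
  rw [← sum_filter, sum_const, nsmul_eq_mul]
  rfl

lemma sum_dec_ge {μ : ℝ} {V : ℕ → ℕ → ℕ → ℝ} (hV : IsPot D μ V)
    {S : Finset (Fin (D + 1) → ℤ)} (hS : S.Nonempty) :
    1 ≤ ∑ p ∈ TT S, dec μ V (fr S) (lay S (fr S)).card (lay S (fr S - 1)).card
      (lay S (fr S - 2)).card ((p.1 + dv p.2) 0) := by
  obtain ⟨y, hy, hyf⟩ := exists_fr hS
  have ha : 1 ≤ (lay S (fr S)).card := card_pos.mpr ⟨y, mem_lay.mpr ⟨hy, hyf⟩⟩
  have hm := hV.main (lay S (fr S)).card (lay S (fr S - 1)).card (lay S (fr S - 2)).card ha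
  have hd0 := hV.step (lay S (fr S)).card (lay S (fr S - 1)).card (lay S (fr S - 2)).card ha
  have hd1 := hV.anti1 (lay S (fr S)).card (lay S (fr S - 1)).card (lay S (fr S - 2)).card
  have hd2 := hV.anti2 (lay S (fr S)).card (lay S (fr S - 1)).card (lay S (fr S - 2)).card
  have hd3 := hV.anti3 (lay S (fr S)).card (lay S (fr S - 1)).card (lay S (fr S - 2)).card
  unfold dec
  rw [sum_add_distrib, sum_add_distrib, sum_add_distrib, sum_TT_ite, sum_TT_ite, sum_TT_ite,
    sum_TT_ite]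
  have c0 := cc_ge S (fr S + 1)
  have c1 := cc_ge S (fr S)
  have c2 := cc_ge S (fr S - 1)
  have c3 := cc_ge S (fr S - 2)
  rw [lay_above (by omega : fr S < fr S + 1), eE_zero, show fr S + 1 - 1 = fr S by ring] at c0
  rw [lay_above (by omega : fr S < fr S + 1)] at c1
  rw [show fr S - 1 - 1 = fr S - 2 by ring, show fr S - 1 + 1 = fr S by ring] at c2
  rw [show fr S - 2 + 1 = fr S - 1 by ring] at c3
  set a := (lay S (fr S)).card
  set b := (lay S (fr S - 1)).card
  set c := (lay S (fr S - 2)).card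
  have c0' : (a : ℝ) ≤ cc S (fr S + 1) := by
    have : a ≤ cc S (fr S + 1) := by omega
    exact_mod_cast this
  have c1' : (2 * D * a + (b - a : ℕ) - 2 * eE a : ℝ) ≤ cc S (fr S) := by
    have h : 2 * D * a + (b - a) ≤ cc S (fr S) + 2 * eE a := by omega
    have h' : ((2 * D * a + (b - a) : ℕ) : ℝ) ≤ ((cc S (fr S) + 2 * eE a : ℕ) : ℝ) := by
      exact_mod_cast h
    push_cast at h'
    linarith
  have c2' : (2 * D * b + (c - b : ℕ) + (a - b : ℕ) - 2 * eE b : ℝ) ≤ cc S (fr S - 1) := by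
    have h : 2 * D * b + (c - b) + (a - b) ≤ cc S (fr S - 1) + 2 * eE b := by omega
    have h' : ((2 * D * b + (c - b) + (a - b) : ℕ) : ℝ) ≤
        ((cc S (fr S - 1) + 2 * eE b : ℕ) : ℝ) := by
      exact_mod_cast h
    push_cast at h'
    linarith
  have c3' : (2 * D * c + (b - c : ℕ) - 2 * eE c : ℝ) ≤ cc S (fr S - 2) := by
    have h : 2 * D * c + (b - c) ≤ cc S (fr S - 2) + 2 * eE c := by omega
    have h' : ((2 * D * c + (b - c) : ℕ) : ℝ) ≤
        ((cc S (fr S - 2) + 2 * eE c : ℕ) : ℝ) := by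
      exact_mod_cast h
    push_cast at h'
    linarith
  have e0 := mul_le_mul_of_nonneg_right c0' (show 0 ≤ μ + V a b c - V 1 a b by linarith)
  have e1 := mul_le_mul_of_nonneg_right c1' (show 0 ≤ V a b c - V (a + 1) b c by linarith)
  have e2 := mul_le_mul_of_nonneg_right c2' (show 0 ≤ V a b c - V a (b + 1) c by linarith)
  have e3 := mul_le_mul_of_nonneg_right c3' (show 0 ≤ V a b c - V a b (c + 1) by linarith)
  linarith

lemma reach_face (n : ℕ) (u : boxF (Fin (D + 1)) n) :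
    ∃ a ∈ face (Fin (D + 1)) n, Nonempty ((boxG (Fin (D + 1)) n).Walk u a) := by
  have main : ∀ k : ℕ, ∀ u : boxF (Fin (D + 1)) n, u.1 0 + k = n →
      ∃ a ∈ face (Fin (D + 1)) n, Nonempty ((boxG (Fin (D + 1)) n).Walk u a) := by
    intro k
    induction k with
    | zero =>
      intro u hu
      refine ⟨u, ⟨0, ?_⟩, ⟨SimpleGraph.Walk.nil⟩⟩
      rw [show u.1 0 = n by simpa using hu]
      simp
    | succ k ih =>
      intro u hu
      have hu' := mem_boxF.mp u.2
      have hmem : u.1 + uv 0 ∈ boxF (Fin (D + 1)) n := by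
        rw [mem_boxF]
        intro i
        by_cases hi : i = 0
        · subst hi
          have := hu' 0
          rw [abs_le] at this ⊢
          simp only [Pi.add_apply, Pi.single_eq_same]
          push_cast at hu
          omega
        · simpa [Pi.single_apply, hi] using hu' i
      obtain ⟨a, ha, ⟨p⟩⟩ := ih ⟨u.1 + uv 0, hmem⟩ (by
        simp only [Pi.add_apply, Pi.single_eq_same]
        push_cast at hu
        omega)
      refine ⟨a, ha, ⟨SimpleGraph.Walk.cons ?_ p⟩⟩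
      exact grid_adj_iff.mpr ⟨(0, true), by simp [dv]⟩
  have h0 := mem_boxF.mp u.2 0
  rw [abs_le] at h0
  exact main (n - u.1 0).toNat u (by omega)

/-- Upper bound for the mean passage time from the origin to the faces of the box. -/
theorem ET_box_le {μ : ℝ} {V : ℕ → ℕ → ℕ → ℝ} (hV : IsPot D μ V) (n : ℕ)
    (o : boxF (Fin (D + 1)) n) (ho : o.1 = 0) :
    (ET (boxG (Fin (D + 1)) n) (face (Fin (D + 1)) n) {o}).toReal ≤ μ * n + V 1 0 0 := by
  have h1 := ET_le (G := boxG (Fin (D + 1)) n) (A := face (Fin (D + 1)) n)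
    (fun S => PotZ n μ V (im S)) (fun S => S.Nonempty) ?_ ?_ ?_ ?_ {o} ⟨o, mem_singleton_self o⟩
  · refine h1.trans (le_of_eq ?_)
    have him : im ({o} : Finset (boxF (Fin (D + 1)) n)) = {0} := by simp [im, ho]
    have hfr : fr ({0} : Finset (Fin (D + 1) → ℤ)) = 0 :=
      fr_unique (fun z hz => by rw [mem_singleton.mp hz]; simp) ⟨0, mem_singleton_self _, rfl⟩
    unfold PotZ
    rw [him, hfr]
    have l0 : (lay ({0} : Finset (Fin (D + 1) → ℤ)) 0).card = 1 := by
      simp [lay, filter_singleton]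
    have l1 : (lay ({0} : Finset (Fin (D + 1) → ℤ)) (0 - 1)).card = 0 := by
      simp [lay, filter_singleton]
    have l2 : (lay ({0} : Finset (Fin (D + 1) → ℤ)) (0 - 2)).card = 0 := by
      simp [lay, filter_singleton]
    rw [l0, l1, l2]
    simp
  · intro S hS
    obtain ⟨u, hu⟩ := hS
    obtain ⟨a, ha, hp⟩ := reach_face n u
    exact ⟨u, hu, a, ha, hp⟩
  · intro S hS
    have hS' : (im S).Nonempty := hS.image _
    obtain ⟨y, hy, hyf⟩ := exists_fr hS'
    obtain ⟨hy', _⟩ := mem_im.mp hy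
    have h2 := mem_boxF.mp hy' 0
    rw [hyf, abs_le] at h2
    have h3 : (0 : ℝ) ≤ (n : ℝ) - fr (im S) := by
      have : ((fr (im S) : ℤ) : ℝ) ≤ ((n : ℤ) : ℝ) := by exact_mod_cast h2.2
      push_cast at this
      linarith
    exact add_nonneg (mul_nonneg hV.mu_nonneg h3) (hV.nonneg _ _ _)
  · intro S _ _ q _
    exact insert_nonempty _ _
  · intro S hS hSA
    have hS' : (im S).Nonempty := hS.image _
    have hlay : 1 ≤ (lay (im S) (fr (im S))).card := by
      obtain ⟨y, hy, hyf⟩ := exists_fr hS'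
      exact card_pos.mpr ⟨y, mem_lay.mpr ⟨hy, hyf⟩⟩
    have h2 : ∀ q ∈ bd (boxG (Fin (D + 1)) n) S,
        PotZ n μ V (im S) - PotZ n μ V (im (insert q.2 S)) =
        dec μ V (fr (im S)) (lay (im S) (fr (im S))).card (lay (im S) (fr (im S) - 1)).card
          (lay (im S) (fr (im S) - 2)).card (q.2.1 0) := by
      intro q hq
      obtain ⟨h3, h4, h5⟩ := mem_bd.mp hq
      rw [im_insert]
      refine PotZ_sub hS' (fun h => ?_) ?_
      · obtain ⟨_, h⟩ := mem_im.mp h
        exact h4 h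
      · have h6 : (gridG (Fin (D + 1))).Adj q.1.1 q.2.1 := h5
        rw [grid_adj_iff] at h6
        obtain ⟨δ, hδ⟩ := h6
        rw [hδ]
        have h7 : q.1.1 0 ≤ fr (im S) := le_fr (mem_im.mpr ⟨q.1.2, h3⟩)
        have h8 : |dv δ 0| ≤ 1 := by
          rw [← sum_abs_dv δ]
          exact single_le_sum (f := fun i => |dv δ i|) (fun j _ => abs_nonneg _) (mem_univ 0)
        rw [abs_le] at h8
        simp only [Pi.add_apply]
        omega
    rw [sum_congr rfl h2]
    refine (sum_dec_ge hV hS').trans ?_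
    exact le_sum_bd S hSA (fun z => dec μ V (fr (im S)) (lay (im S) (fr (im S))).card
      (lay (im S) (fr (im S) - 1)).card (lay (im S) (fr (im S) - 2)).card (z 0))
      (fun q _ => dec_nonneg hV _ hlay _ _ _)

end Pool.Agent.Lib.MP_edae2b_pr
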