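import Mathlib

/-!
# The memoryless property of products of exponential distributions
-/

namespace Pool.Agent.Lib.MP_edae2b_pr

open MeasureTheory ProbabilityTheory Filter Topology
open scoped ENNReal

/-- The exponential distribution. -/
noncomputable abbrev ex : Measure ℝ := expMeasure 1

instance : IsProbabilityMeasure ex := isProbabilityMeasure_expMeasure one_pos

lemma ex_apply (s : Set ℝ) (hs : MeasurableSet s) : ex s = ∫⁻ x in s, exponentialPDF 1 x := by
  unfold ex expMeasure gammaMeasure
  rw [withDensity_apply _ hs]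
  rfl

lemma ex_shift {m : ℝ} (hm : 0 ≤ m) (s : Set ℝ) (hs : MeasurableSet s) :
    ex ((fun x => x + m) ⁻¹' s) = ENNReal.ofReal (Real.exp m) * ex (s ∩ Set.Ioi m) := by
  have hs' : MeasurableSet ((fun x : ℝ => x + m) ⁻¹' s) := (measurable_id.add_const m) hs
  rw [ex_apply _ hs', ex_apply _ (hs.inter measurableSet_Ioi), ← lintegral_indicator hs',
    ← lintegral_indicator (hs.inter measurableSet_Ioi),
    ← lintegral_const_mul' _ _ ENNReal.ofReal_ne_top]
  have h1 : (∫⁻ x, ((fun x : ℝ => x + m) ⁻¹' s).indicator (fun x => exponentialPDF 1 x) x) =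
      ∫⁻ y, s.indicator (fun y => exponentialPDF 1 (y - m)) y := by
    rw [← lintegral_add_right_eq_self (fun y => s.indicator (fun y => exponentialPDF 1 (y - m)) y) m]
    refine lintegral_congr fun x => ?_
    by_cases hx : x + m ∈ s
    · rw [Set.indicator_of_mem (by exact hx), Set.indicator_of_mem hx]
      simp
    · rw [Set.indicator_of_notMem (by exact hx), Set.indicator_of_notMem hx]
  rw [h1]
  refine lintegral_congr_ae ?_
  have hae : ∀ᵐ y : ℝ, y ≠ m := by
    rw [ae_iff]
    simp
  filter_upwards [hae] with y hy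
  by_cases hys : y ∈ s
  · rw [Set.indicator_of_mem hys]
    rcases lt_or_gt_of_ne hy with hlt | hgt
    · rw [Set.indicator_of_notMem (fun h => absurd h.2 (not_lt.mpr hlt.le)),
        exponentialPDF_of_neg (by linarith)]
      simp
    · rw [Set.indicator_of_mem (show y ∈ s ∩ Set.Ioi m from ⟨hys, hgt⟩), exponentialPDF_of_nonneg (by linarith),
        exponentialPDF_of_nonneg (by linarith [show m < y from hgt]),
        ← ENNReal.ofReal_mul (Real.exp_pos _).le]
      congr 1
      rw [one_mul, one_mul, one_mul, one_mul, ← Real.exp_add]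
      congr 1
      ring
  · rw [Set.indicator_of_notMem hys, Set.indicator_of_notMem (fun h => hys h.1)]
    simp

variable {ι : Type*} [Fintype ι] [DecidableEq ι]

/-- The product of exponential distributions. -/
noncomputable abbrev pex (ι : Type*) [Fintype ι] : Measure (ι → ℝ) := Measure.pi fun _ : ι => ex

/-- Shift of the coordinates in `B`. -/
def sh (B : Finset ι) (m : ℝ) (w : ι → ℝ) : ι → ℝ := fun i => if i ∈ B then w i + m else w i

lemma measurable_sh (B : Finset ι) (m : ℝ) : Measurable (sh B m) := by
  refine measurable_pi_lambda _ fun i => ?_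
  unfold sh
  by_cases h : i ∈ B
  · simp only [h, if_true]
    exact Measurable.add_const (measurable_pi_apply (X := fun _ : ι => ℝ) i) m
  · simp only [h, if_false]
    exact measurable_pi_apply i

lemma map_sh (B : Finset ι) {m : ℝ} (hm : 0 ≤ m) :
    (pex ι).map (sh B m) = ENNReal.ofReal (Real.exp (m * B.card)) •
      (pex ι).restrict {w | ∀ i ∈ B, m < w i} := by
  let μ' : ι → Measure ℝ := fun i => ex.map (fun x => if i ∈ B then x + m else x)
  have hmeas : ∀ i, Measurable (fun x : ℝ => if i ∈ B then x + m else x) := by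
    intro i
    by_cases h : i ∈ B
    · simp only [h, if_true]; exact measurable_id.add_const m
    · simp only [h, if_false]; exact measurable_id
  have hprob : ∀ i, IsProbabilityMeasure (μ' i) := fun i =>
    Measure.isProbabilityMeasure_map (hmeas i).aemeasurable
  have hset : MeasurableSet {w : ι → ℝ | ∀ i ∈ B, m < w i} := by
    have : {w : ι → ℝ | ∀ i ∈ B, m < w i} = ⋂ i ∈ B, {w : ι → ℝ | m < w i} := by
      ext w; simp
    rw [this]
    exact B.measurableSet_biInter fun i _ => measurableSet_lt measurable_const (measurable_pi_apply i)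
  have hbox : {w : ι → ℝ | ∀ i ∈ B, m < w i} =
      Set.pi Set.univ (fun i => if i ∈ B then Set.Ioi m else Set.univ) := by
    ext w
    simp only [Set.mem_ofPred_eq, Set.mem_pi, Set.mem_univ, true_imp_iff]
    refine forall_congr' fun i => ?_
    by_cases h : i ∈ B <;> simp [h]
  have h1 : Measure.pi μ' = (pex ι).map (sh B m) := by
    refine Measure.pi_eq fun s hs => ?_
    rw [Measure.map_apply (measurable_sh B m) (MeasurableSet.univ_pi hs)]
    have : sh B m ⁻¹' (Set.pi Set.univ s) =
        Set.pi Set.univ (fun i => (fun x : ℝ => if i ∈ B then x + m else x) ⁻¹' s i) := by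
      ext w
      simp [sh]
    rw [this, Measure.pi_pi]
    refine Finset.prod_congr rfl fun i _ => ?_
    rw [Measure.map_apply (hmeas i) (hs i)]
  have h2 : Measure.pi μ' = ENNReal.ofReal (Real.exp (m * B.card)) •
      (pex ι).restrict {w | ∀ i ∈ B, m < w i} := by
    refine Measure.pi_eq fun s hs => ?_
    rw [Measure.smul_apply, Measure.restrict_apply (MeasurableSet.univ_pi hs), hbox,
      ← Set.pi_inter_distrib, Measure.pi_pi, smul_eq_mul]
    have h3 : ENNReal.ofReal (Real.exp (m * B.card)) =
        ∏ i, (if i ∈ B then ENNReal.ofReal (Real.exp m) else 1) := by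
      rw [Finset.prod_ite_mem, Finset.univ_inter, Finset.prod_const, ← ENNReal.ofReal_pow
        (Real.exp_pos _).le, ← Real.exp_nat_mul]
      ring_nf
    rw [h3, ← Finset.prod_mul_distrib]
    refine Finset.prod_congr rfl fun i _ => ?_
    rw [Measure.map_apply (hmeas i) (hs i)]
    by_cases h : i ∈ B
    · simp only [h, if_true]
      exact (ex_shift hm (s i) (hs i)).symm
    · simp [h]
  rw [← h1, h2]

lemma lintegral_sh (B : Finset ι) {m : ℝ} (hm : 0 ≤ m) {f : (ι → ℝ) → ℝ≥0∞}
    (hf : Measurable f) :
    ∫⁻ w in {w | ∀ i ∈ B, m < w i}, f w ∂(pex ι) =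
      ENNReal.ofReal (Real.exp (-(m * B.card))) * ∫⁻ w, f (sh B m w) ∂(pex ι) := by
  rw [← lintegral_map hf (measurable_sh B m), map_sh B hm, lintegral_smul_measure, smul_eq_mul,
    ← mul_assoc, ← ENNReal.ofReal_mul (Real.exp_pos _).le, ← Real.exp_add]
  simp

lemma lintegral_ofReal_ex_lt_top : ∫⁻ x, ENNReal.ofReal x ∂ex < ∞ := by
  unfold ex expMeasure gammaMeasure
  rw [lintegral_withDensity_eq_lintegral_mul _
    (show Measurable (gammaPDF 1 1) from (measurable_gammaPDFReal 1 1).ennreal_ofReal)
    ENNReal.measurable_ofReal]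
  have h1 : ∀ x : ℝ, (gammaPDF 1 1 * fun x => ENNReal.ofReal x) x ≤
      (Set.Ioi (0 : ℝ)).indicator (fun x => ENNReal.ofReal (x * Real.exp (-x))) x := by
    intro x
    simp only [Pi.mul_apply]
    have hpdf : gammaPDF 1 1 x = exponentialPDF 1 x := rfl
    rw [hpdf]
    rcases le_or_gt x 0 with hx | hx
    · rw [ENNReal.ofReal_of_nonpos hx, mul_zero]
      exact zero_le
    · rw [Set.indicator_of_mem (show x ∈ Set.Ioi (0 : ℝ) from hx),
        exponentialPDF_of_nonneg hx.le, ← ENNReal.ofReal_mul (by positivity)]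
      refine le_of_eq ?_
      congr 1
      ring_nf
  refine (lintegral_mono h1).trans_lt ?_
  rw [lintegral_indicator measurableSet_Ioi]
  have h2 : IntegrableOn (fun x : ℝ => x * Real.exp (-x)) (Set.Ioi 0) := by
    have := Real.GammaIntegral_convergent (s := 2) (by norm_num)
    refine this.congr_fun (fun x _ => ?_) measurableSet_Ioi
    simp only
    norm_num
    ring
  exact h2.lintegral_lt_top

end Pool.Agent.Lib.MP_edae2b_pr
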