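import Pool.Agent.Lib.MP_edae2b_pr.Walks
import Pool.Agent.Lib.MP_edae2b_pr.Shift

/-!
# First passage percolation with exponential weights on a finite graph

Recursions for the mean passage time and for its Laplace transform, and the resulting
comparison principles.
-/

namespace Pool.Agent.Lib.MP_edae2b_pr

open MeasureTheory ProbabilityTheory Filter Topology
open scoped ENNReal

lemma ex_nonneg_ae : ∀ᵐ x ∂ex, (0 : ℝ) ≤ x := by
  rw [ae_iff]
  have : {x : ℝ | ¬ 0 ≤ x} = Set.Iio 0 := by ext x; simp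
  rw [this, ex_apply _ measurableSet_Iio]
  exact lintegral_exponentialPDF_of_nonpos le_rfl

lemma pex_nonneg_ae {ι : Type*} [Fintype ι] : ∀ᵐ w ∂(pex ι), ∀ i, (0 : ℝ) ≤ w i := by
  rw [ae_all_iff]
  intro i
  exact (Measure.tendsto_eval_ae_ae (μ := fun _ : ι => ex) (i := i)).eventually ex_nonneg_ae

lemma limit_aux {x y β : ℝ} (hx0 : 0 ≤ x) (hy0 : 0 ≤ y) (hβ0 : 0 ≤ β)
    (key : ∀ m : ℝ, 0 < m →
      x ≤ Real.exp (-(m * β)) * (x + m) + (1 - Real.exp (-m)) * (β * m + y)) :
    β * x ≤ 1 + y := by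
  by_contra hcon
  push Not at hcon
  obtain ⟨δ, hδ⟩ : ∃ δ, δ = β * x - (1 + y) := ⟨_, rfl⟩
  have hδ0 : 0 < δ := by linarith
  obtain ⟨K, hK⟩ : ∃ K, K = β ^ 2 * x + β := ⟨_, rfl⟩
  have hK0 : 0 ≤ K := by rw [hK]; positivity
  obtain ⟨m, hm0, hm1⟩ : ∃ m : ℝ, 0 < m ∧ m * K < δ := by
    refine ⟨δ / (K + 1) / 2, by positivity, ?_⟩
    rw [div_div, div_mul_eq_mul_div, div_lt_iff₀ (by positivity)]
    nlinarith [mul_nonneg hδ0.le hK0]
  have h1 := key m hm0
  have h2 : 1 - Real.exp (-m) ≤ m := by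
    have := Real.add_one_le_exp (-m); linarith
  have h4' : 0 ≤ m * β := by positivity
  have h3 : Real.exp (-(m * β)) ≤ 1 - m * β + (m * β) ^ 2 := by
    have h5 := Real.add_one_le_exp (m * β)
    have h6 : Real.exp (-(m * β)) ≤ 1 / (1 + m * β) := by
      rw [Real.exp_neg, ← one_div]
      exact one_div_le_one_div_of_le (by positivity) (by linarith)
    refine h6.trans ?_
    rw [div_le_iff₀ (by positivity)]
    have := pow_nonneg h4' 3
    generalize m * β = z at *
    nlinarith
  have h4 : Real.exp (-(m * β)) ≤ 1 := Real.exp_le_one_iff.mpr (by linarith)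
  have h5 : Real.exp (-(m * β)) * (x + m) ≤ (1 - m * β + (m * β) ^ 2) * x + m := by
    have h6 := mul_le_mul_of_nonneg_right h3 hx0
    have h7 := mul_le_mul_of_nonneg_right h4 hm0.le
    rw [one_mul] at h7
    rw [mul_add]
    exact add_le_add h6 h7
  have h6 : (1 - Real.exp (-m)) * (β * m + y) ≤ m * (β * m + y) :=
    mul_le_mul_of_nonneg_right h2 (by positivity)
  have h7 : m * (β * x) ≤ m * (1 + y + m * K) := by
    have h8 : x ≤ (1 - m * β + (m * β) ^ 2) * x + m + m * (β * m + y) :=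
      h1.trans (add_le_add h5 h6)
    rw [hK]
    linarith
  have h8 := le_of_mul_le_mul_left h7 hm0
  linarith

lemma limit_aux' {x y β lam : ℝ} (hx0 : 0 ≤ x) (hy0 : 0 ≤ y) (hβ0 : 0 ≤ β) (hlam : 0 < lam)
    (key : ∀ m : ℝ, 0 < m →
      x ≤ Real.exp (-(m * β)) * (Real.exp (-(lam * m)) * x) + (1 - Real.exp (-m)) * y) :
    (β + lam) * x ≤ y := by
  by_contra hcon
  push Not at hcon
  obtain ⟨κ, hκ⟩ : ∃ κ, κ = β + lam := ⟨_, rfl⟩
  rw [← hκ] at hcon
  have hκ0 : 0 < κ := by linarith
  obtain ⟨δ, hδ⟩ : ∃ δ, δ = κ * x - y := ⟨_, rfl⟩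
  have hδ0 : 0 < δ := by linarith
  obtain ⟨K, hK⟩ : ∃ K, K = κ ^ 2 * x := ⟨_, rfl⟩
  have hK0 : 0 ≤ K := by rw [hK]; positivity
  obtain ⟨m, hm0, hm1⟩ : ∃ m : ℝ, 0 < m ∧ m * K < δ := by
    refine ⟨δ / (K + 1) / 2, by positivity, ?_⟩
    rw [div_div, div_mul_eq_mul_div, div_lt_iff₀ (by positivity)]
    nlinarith [mul_nonneg hδ0.le hK0]
  have h1 := key m hm0
  have h2 : 1 - Real.exp (-m) ≤ m := by
    have := Real.add_one_le_exp (-m); linarith
  have hexp : Real.exp (-(m * β)) * (Real.exp (-(lam * m)) * x) = Real.exp (-(m * κ)) * x := by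
    rw [← mul_assoc, ← Real.exp_add]
    congr 2
    rw [hκ]; ring
  rw [hexp] at h1
  have h4' : 0 ≤ m * κ := by positivity
  have h3 : Real.exp (-(m * κ)) ≤ 1 - m * κ + (m * κ) ^ 2 := by
    have h5 := Real.add_one_le_exp (m * κ)
    have h6 : Real.exp (-(m * κ)) ≤ 1 / (1 + m * κ) := by
      rw [Real.exp_neg, ← one_div]
      exact one_div_le_one_div_of_le (by positivity) (by linarith)
    refine h6.trans ?_
    rw [div_le_iff₀ (by positivity)]
    have := pow_nonneg h4' 3
    generalize m * κ = z at *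
    nlinarith
  have h5 := mul_le_mul_of_nonneg_right h3 hx0
  have h6 : (1 - Real.exp (-m)) * y ≤ m * y :=
    mul_le_mul_of_nonneg_right h2 hy0
  have h7 : m * (κ * x) ≤ m * (y + m * K) := by
    have h8 : x ≤ (1 - m * κ + (m * κ) ^ 2) * x + m * y := h1.trans (add_le_add h5 h6)
    rw [hK]
    linarith
  have h8 := le_of_mul_le_mul_left h7 hm0
  linarith

section indep

variable {ι : Type*} [Fintype ι] [DecidableEq ι]

lemma measurableSet_all_gt (B : Finset ι) (m : ℝ) :
    MeasurableSet {w : ι → ℝ | ∀ i ∈ B, m < w i} := by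
  have : {w : ι → ℝ | ∀ i ∈ B, m < w i} = ⋂ i ∈ B, {w : ι → ℝ | m < w i} := by
    ext w; simp
  rw [this]
  exact B.measurableSet_biInter fun i _ => measurableSet_lt measurable_const (measurable_pi_apply i)

lemma lintegral_indep {f : (ι → ℝ) → ℝ≥0∞} (hf : Measurable f) (e : ι) {m : ℝ} (hm : 0 ≤ m)
    (hinv : ∀ w, f (sh {e} m w) = f w) (hfin : ∫⁻ w, f w ∂(pex ι) ≠ ∞) :
    ∫⁻ w in {w | w e ≤ m}, f w ∂(pex ι) =
      ENNReal.ofReal (1 - Real.exp (-m)) * ∫⁻ w, f w ∂(pex ι) := by
  have h1 := lintegral_sh (ι := ι) {e} hm hf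
  simp only [hinv, Finset.mem_singleton, forall_eq, Finset.card_singleton, Nat.cast_one,
    mul_one] at h1
  have hset : MeasurableSet {w : ι → ℝ | m < w e} :=
    measurableSet_lt measurable_const (measurable_pi_apply e)
  have h2 := lintegral_add_compl (μ := pex ι) f hset
  have h3 : {w : ι → ℝ | m < w e}ᶜ = {w | w e ≤ m} := by
    ext w; simp
  rw [h3, h1] at h2
  have h4 : ENNReal.ofReal (1 - Real.exp (-m)) = 1 - ENNReal.ofReal (Real.exp (-m)) := by
    rw [ENNReal.ofReal_sub _ (Real.exp_pos _).le, ENNReal.ofReal_one]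
  rw [h4, ENNReal.sub_mul (fun _ _ => hfin), one_mul]
  refine ENNReal.eq_sub_of_add_eq ?_ ?_
  · exact ENNReal.mul_ne_top ENNReal.ofReal_ne_top hfin
  · rw [add_comm]; exact h2

lemma lintegral_biUnion_le' {α β : Type*} [MeasurableSpace α] (μ : Measure α)
    (B : Finset β) (s : β → Set α) (f : α → ℝ≥0∞) :
    ∫⁻ w in ⋃ e ∈ B, s e, f w ∂μ ≤ ∑ e ∈ B, ∫⁻ w in s e, f w ∂μ := by
  classical
  induction B using Finset.induction_on with
  | empty => simp
  | insert a B ha ih =>
    rw [Finset.set_biUnion_insert, Finset.sum_insert ha]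
    exact (lintegral_union_le f _ _).trans (by gcongr)

/-- Splitting according to whether some coordinate in `B` is at most `m`. -/
lemma lintegral_split {f : (ι → ℝ) → ℝ≥0∞} (hf : Measurable f) (B : Finset ι) {m : ℝ}
    (hm : 0 ≤ m) :
    ∫⁻ w, f w ∂(pex ι) ≤ ENNReal.ofReal (Real.exp (-(m * B.card))) *
      ∫⁻ w, f (sh B m w) ∂(pex ι) + ∑ e ∈ B, ∫⁻ w in {w | w e ≤ m}, f w ∂(pex ι) := by
  rw [← lintegral_add_compl f (measurableSet_all_gt B m), lintegral_sh B hm hf]
  gcongr
  have h1 : {w : ι → ℝ | ∀ i ∈ B, m < w i}ᶜ ⊆ ⋃ e ∈ B, {w | w e ≤ m} := by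
    intro w hw
    simp only [Set.mem_compl_iff, Set.mem_ofPred_eq, not_forall, not_lt] at hw
    obtain ⟨i, hi, hw⟩ := hw
    simp only [Set.mem_iUnion]
    exact ⟨i, hi, hw⟩
  refine (lintegral_mono_set h1).trans ?_
  exact lintegral_biUnion_le' _ _ _ _

end indep

variable {V : Type*} [Fintype V] [DecidableEq V] {G : SimpleGraph V} [DecidableRel G.Adj]

/-- The costs given by real weights. -/
noncomputable def cw (w : Sym2 V → ℝ) : Sym2 V → ℝ≥0∞ := fun e => ENNReal.ofReal (w e)

omit [DecidableEq V] [Fintype V] in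
lemma measurable_cw (e : Sym2 V) : Measurable fun w : Sym2 V → ℝ => cw w e :=
  ENNReal.measurable_ofReal.comp (measurable_pi_apply e)

/-- Boundary pairs of `S`. -/
def bd (G : SimpleGraph V) [DecidableRel G.Adj] (S : Finset V) : Finset (V × V) :=
  Finset.univ.filter fun q => q.1 ∈ S ∧ q.2 ∉ S ∧ G.Adj q.1 q.2

lemma mem_bd {S : Finset V} {q : V × V} :
    q ∈ bd G S ↔ q.1 ∈ S ∧ q.2 ∉ S ∧ G.Adj q.1 q.2 := by simp [bd]

/-- Boundary edges of `S`. -/
def bdE (G : SimpleGraph V) [DecidableRel G.Adj] (S : Finset V) : Finset (Sym2 V) :=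
  (bd G S).image fun q => s(q.1, q.2)

lemma bd_injOn (S : Finset V) : Set.InjOn (fun q : V × V => s(q.1, q.2)) (bd G S : Set (V × V)) := by
  rintro ⟨a, b⟩ h ⟨a', b'⟩ h' heq
  simp only [Finset.mem_coe, mem_bd] at h h'
  rw [Sym2.eq_iff] at heq
  rcases heq with ⟨rfl, rfl⟩ | ⟨rfl, rfl⟩
  · rfl
  · exact absurd h.1 h'.2.1

lemma card_bdE (S : Finset V) : (bdE G S).card = (bd G S).card :=
  Finset.card_image_of_injOn (bd_injOn S)

lemma sum_bdE {M : Type*} [AddCommMonoid M] (S : Finset V) (f : Sym2 V → M) :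
    ∑ e ∈ bdE G S, f e = ∑ q ∈ bd G S, f s(q.1, q.2) :=
  Finset.sum_image (bd_injOn S)

lemma mem_bdE_iff {S : Finset V} {x y : V} (hxy : G.Adj x y) (hy : y ∉ S) :
    s(x, y) ∈ bdE G S ↔ x ∈ S := by
  unfold bdE
  rw [Finset.mem_image]
  constructor
  · rintro ⟨⟨a, b⟩, h, heq⟩
    rw [mem_bd] at h
    rw [Sym2.eq_iff] at heq
    rcases heq with ⟨rfl, rfl⟩ | ⟨rfl, rfl⟩
    · exact h.1
    · exact absurd h.1 hy
  · intro hx
    exact ⟨(x, y), mem_bd.mpr ⟨hx, hy, hxy⟩, rfl⟩

/-- The mean passage time. -/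
noncomputable def ET (G : SimpleGraph V) (A : Set V) (S : Finset V) : ℝ≥0∞ :=
  ∫⁻ w, pt G A S (cw w) ∂(pex (Sym2 V))

omit [DecidableRel G.Adj] in
lemma ET_lt_top {A : Set V} {S : Finset V} {u a : V} (hu : u ∈ S) (ha : a ∈ A)
    (p : G.Walk u a) : ET G A S < ∞ := by
  unfold ET
  refine (lintegral_mono fun w => pt_le (by exact_mod_cast hu) ha p).trans_lt ?_
  clear hu ha
  induction p with
  | nil => simp
  | cons h q ih =>
    simp only [cost_cons]
    rw [lintegral_add_left (measurable_cw _)]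
    refine ENNReal.add_lt_top.mpr ⟨?_, ih⟩
    have h1 : ∀ e : Sym2 V, ∫⁻ w, cw w e ∂(pex (Sym2 V)) = ∫⁻ x, ENNReal.ofReal x ∂ex := by
      intro e
      have := (measurePreserving_eval (fun _ : Sym2 V => ex) e).lintegral_comp
        ENNReal.measurable_ofReal
      exact this
    rw [h1]
    exact lintegral_ofReal_ex_lt_top

omit [DecidableRel G.Adj] in
lemma pt_insert_sh {A : Set V} {S : Finset V} {u v : V} (hu : u ∈ S) (m : ℝ)
    (w : Sym2 V → ℝ) :
    pt G A (insert v S : Finset V) (cw (sh {s(u, v)} m w)) =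
      pt G A (insert v S : Finset V) (cw w) := by
  refine pt_congr_inside fun x y _ hy => ?_
  have h1 : s(x, y) ∉ ({s(u, v)} : Finset (Sym2 V)) := by
    rw [Finset.mem_singleton, Sym2.eq_iff]
    rintro (⟨rfl, rfl⟩ | ⟨rfl, rfl⟩)
    · exact hy (by simp)
    · exact hy (by simp [hu])
  simp [cw, sh, h1]

/-- Recursion for the mean passage time. -/
lemma ET_rec {A : Set V} {S : Finset V}
    (hfin : ∀ S' : Finset V, S ⊆ S' → ET G A S' ≠ ∞) :
    ((bd G S).card : ℝ) * (ET G A S).toReal ≤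
      1 + ∑ q ∈ bd G S, (ET G A (insert q.2 S)).toReal := by
  set β : ℝ := ((bd G S).card : ℝ) with hβ
  set x := (ET G A S).toReal with hx
  set y := ∑ q ∈ bd G S, (ET G A (insert q.2 S)).toReal with hy
  have hx0 : 0 ≤ x := ENNReal.toReal_nonneg
  have hy0 : 0 ≤ y := Finset.sum_nonneg fun _ _ => ENNReal.toReal_nonneg
  have hβ0 : 0 ≤ β := Nat.cast_nonneg _
  -- the basic inequality
  have key : ∀ m : ℝ, 0 < m →
      x ≤ Real.exp (-(m * β)) * (x + m) + (1 - Real.exp (-m)) * (β * m + y) := by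
    intro m hm
    have hmeas : Measurable fun w : Sym2 V → ℝ => pt G A S (cw w) :=
      measurable_pt (X := fun e w => cw w e) measurable_cw A S
    have h1 := lintegral_split hmeas (bdE G S) hm.le
    have h2 : ∫⁻ w, pt G A S (cw (sh (bdE G S) m w)) ∂(pex (Sym2 V)) ≤
        ET G A S + ENNReal.ofReal m := by
      have h3 : ∀ w : Sym2 V → ℝ, pt G A S (cw (sh (bdE G S) m w)) ≤
          pt G A S (cw w) + ENNReal.ofReal m := by
        intro w
        refine pt_le_add (fun x y hxy hx hy => ?_) (fun x y hxy hx hy => ?_)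
        · have : s(x, y) ∈ bdE G S := (mem_bdE_iff hxy (by exact_mod_cast hy)).mpr
            (by exact_mod_cast hx)
          simp only [cw, sh, this, if_true]
          exact ENNReal.ofReal_add_le
        · have : s(x, y) ∉ bdE G S := fun h => hx (by
            exact_mod_cast (mem_bdE_iff hxy (by exact_mod_cast hy)).mp h)
          simp only [cw, sh, this, if_false, le_refl]
      refine (lintegral_mono h3).trans ?_
      rw [lintegral_add_left hmeas]
      simp [ET]
    have h4 : ∀ q ∈ bd G S, ∫⁻ w in {w : Sym2 V → ℝ | w s(q.1, q.2) ≤ m},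
        pt G A S (cw w) ∂(pex (Sym2 V)) ≤
        ENNReal.ofReal (1 - Real.exp (-m)) * (ENNReal.ofReal m + ET G A (insert q.2 S)) := by
      intro q hq
      rw [mem_bd] at hq
      have hmeas' : Measurable fun w : Sym2 V → ℝ =>
          ENNReal.ofReal m + pt G A (insert q.2 S : Finset V) (cw w) :=
        measurable_const.add (measurable_pt (X := fun e w => cw w e) measurable_cw A _)
      have h5 : ∫⁻ w, (ENNReal.ofReal m + pt G A (insert q.2 S : Finset V) (cw w))
          ∂(pex (Sym2 V)) = ENNReal.ofReal m + ET G A (insert q.2 S) := by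
        rw [lintegral_add_left measurable_const]
        simp [ET]
      rw [← h5, ← lintegral_indep hmeas' s(q.1, q.2) hm.le
        (fun w => by rw [pt_insert_sh hq.1]) (by
          rw [h5]
          exact ENNReal.add_ne_top.mpr ⟨ENNReal.ofReal_ne_top, hfin _ (Finset.subset_insert _ _)⟩)]
      have hset : MeasurableSet {w : Sym2 V → ℝ | w s(q.1, q.2) ≤ m} :=
        measurableSet_le (measurable_pi_apply _) measurable_const
      refine setLIntegral_mono hmeas' fun w hw => ?_
      have h6 := pt_step (A := A) (S := (S : Set V)) (c := cw w) (by exact_mod_cast hq.1) hq.2.2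
      refine h6.trans ?_
      rw [Finset.coe_insert]
      gcongr
      exact ENNReal.ofReal_le_ofReal hw
    rw [sum_bdE] at h1
    have h7 : ET G A S ≤ ENNReal.ofReal (Real.exp (-(m * β))) * (ET G A S + ENNReal.ofReal m) +
        ∑ q ∈ bd G S, ENNReal.ofReal (1 - Real.exp (-m)) *
          (ENNReal.ofReal m + ET G A (insert q.2 S)) := by
      refine h1.trans ?_
      rw [card_bdE]
      gcongr with q hq
      exact h4 q hq
    have hS : ET G A S ≠ ∞ := hfin S (Finset.Subset.refl _)
    have he : (0 : ℝ) ≤ 1 - Real.exp (-m) := by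
      have : Real.exp (-m) ≤ 1 := Real.exp_le_one_iff.mpr (by linarith)
      linarith
    have h8 := ENNReal.toReal_mono (by
      refine ENNReal.add_ne_top.mpr ⟨ENNReal.mul_ne_top ENNReal.ofReal_ne_top
        (ENNReal.add_ne_top.mpr ⟨hS, ENNReal.ofReal_ne_top⟩), ?_⟩
      refine ENNReal.sum_ne_top.mpr fun q _ => ENNReal.mul_ne_top ENNReal.ofReal_ne_top
        (ENNReal.add_ne_top.mpr ⟨ENNReal.ofReal_ne_top, hfin _ (Finset.subset_insert _ _)⟩)) h7
    rw [ENNReal.toReal_add (ENNReal.mul_ne_top ENNReal.ofReal_ne_top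
        (ENNReal.add_ne_top.mpr ⟨hS, ENNReal.ofReal_ne_top⟩)) (ENNReal.sum_ne_top.mpr fun q _ =>
        ENNReal.mul_ne_top ENNReal.ofReal_ne_top (ENNReal.add_ne_top.mpr
        ⟨ENNReal.ofReal_ne_top, hfin _ (Finset.subset_insert _ _)⟩)),
      ENNReal.toReal_mul, ENNReal.toReal_add hS ENNReal.ofReal_ne_top,
      ENNReal.toReal_ofReal (Real.exp_pos _).le, ENNReal.toReal_ofReal hm.le,
      ENNReal.toReal_sum (fun q _ => ENNReal.mul_ne_top ENNReal.ofReal_ne_top
        (ENNReal.add_ne_top.mpr ⟨ENNReal.ofReal_ne_top, hfin _ (Finset.subset_insert _ _)⟩))] at h8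
    refine h8.trans (le_of_eq ?_)
    congr 1
    have h9 : ∀ q ∈ bd G S, (ENNReal.ofReal (1 - Real.exp (-m)) *
        (ENNReal.ofReal m + ET G A (insert q.2 S))).toReal =
        (1 - Real.exp (-m)) * (m + (ET G A (insert q.2 S)).toReal) := by
      intro q _
      rw [ENNReal.toReal_mul, ENNReal.toReal_ofReal he, ENNReal.toReal_add ENNReal.ofReal_ne_top
        (hfin _ (Finset.subset_insert _ _)), ENNReal.toReal_ofReal hm.le]
    rw [Finset.sum_congr rfl h9, ← Finset.mul_sum, Finset.sum_add_distrib, Finset.sum_const,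
      nsmul_eq_mul]
  exact limit_aux hx0 hy0 hβ0 key

/-- Comparison principle for the mean passage time. -/
theorem ET_le {A : Set V} (Pot : Finset V → ℝ) (Q : Finset V → Prop)
    (hreach : ∀ S, Q S → ∃ u ∈ S, ∃ a ∈ A, Nonempty (G.Walk u a))
    (hpos : ∀ S, Q S → 0 ≤ Pot S)
    (hQ : ∀ S, Q S → Disjoint (S : Set V) A → ∀ q ∈ bd G S, Q (insert q.2 S))
    (hB : ∀ S, Q S → Disjoint (S : Set V) A → 1 ≤ ∑ q ∈ bd G S, (Pot S - Pot (insert q.2 S))) :
    ∀ S, Q S → (ET G A S).toReal ≤ Pot S := by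
  have main : ∀ n : ℕ, ∀ S : Finset V, (Finset.univ \ S).card = n → Q S →
      (ET G A S).toReal ≤ Pot S := by
    intro n
    induction n using Nat.strong_induction_on with
    | _ n ih =>
      intro S hn hS
      by_cases hSA : Disjoint (S : Set V) A
      · have hfin : ∀ S' : Finset V, S ⊆ S' → ET G A S' ≠ ∞ := by
          intro S' hSS'
          obtain ⟨u, hu, a, ha, ⟨p⟩⟩ := hreach S hS
          exact (ET_lt_top (hSS' hu) ha p).ne
        have h1 := ET_rec hfin
        have h2 : ∑ q ∈ bd G S, (ET G A (insert q.2 S)).toReal ≤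
            ∑ q ∈ bd G S, Pot (insert q.2 S) := by
          refine Finset.sum_le_sum fun q hq => ?_
          have hq' := mem_bd.mp hq
          refine ih _ ?_ (insert q.2 S) rfl (hQ S hS hSA q hq)
          rw [← hn]
          refine Finset.card_lt_card ⟨Finset.sdiff_subset_sdiff (Finset.Subset.refl _)
            (Finset.subset_insert _ _), fun h => ?_⟩
          have h3 : q.2 ∈ Finset.univ \ S := by simp [hq'.2.1]
          have h4 := h h3
          simp at h4
        have h3 := hB S hS hSA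
        rw [Finset.sum_sub_distrib, Finset.sum_const, nsmul_eq_mul] at h3
        have hcard : (0 : ℝ) < (bd G S).card := by
          have : (bd G S).Nonempty := by
            by_contra hne
            rw [Finset.not_nonempty_iff_eq_empty] at hne
            have := hB S hS hSA
            rw [hne] at this
            norm_num at this
          exact_mod_cast this.card_pos
        have h4 : ((bd G S).card : ℝ) * (ET G A S).toReal ≤ (bd G S).card * Pot S := by
          linarith
        exact le_of_mul_le_mul_left h4 hcard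
      · obtain ⟨u, hu, hA⟩ := Set.not_disjoint_iff.mp hSA
        have : ET G A S = 0 := by
          unfold ET
          simp only [pt_eq_zero hu hA]
          simp
        rw [this]
        exact hpos S hS
  intro S hS
  exact main _ S rfl hS

/-- The Laplace weight. -/
noncomputable def lap (lam : ℝ) (t : ℝ≥0∞) : ℝ≥0∞ :=
  if t = ∞ then 0 else ENNReal.ofReal (Real.exp (-(lam * t.toReal)))

lemma measurable_lap (lam : ℝ) : Measurable (lap lam) := by
  unfold lap
  refine Measurable.ite (measurableSet_singleton _) measurable_const ?_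
  exact (Real.measurable_exp.comp ((measurable_const.mul ENNReal.measurable_toReal).neg)).ennreal_ofReal

lemma lap_le_one {lam : ℝ} (h : 0 ≤ lam) (t : ℝ≥0∞) : lap lam t ≤ 1 := by
  unfold lap
  split_ifs
  · exact zero_le
  · rw [ENNReal.ofReal_le_one, Real.exp_le_one_iff]
    have := mul_nonneg h (ENNReal.toReal_nonneg (a := t))
    linarith

lemma lap_anti {lam : ℝ} (h : 0 ≤ lam) {s t : ℝ≥0∞} (hst : s ≤ t) : lap lam t ≤ lap lam s := by
  unfold lap
  by_cases ht : t = ∞
  · simp [ht]
  · have hs : s ≠ ∞ := ne_top_of_le_ne_top ht hst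
    rw [if_neg ht, if_neg hs]
    refine ENNReal.ofReal_le_ofReal (Real.exp_le_exp.mpr ?_)
    have := mul_le_mul_of_nonneg_left (ENNReal.toReal_mono ht hst) h
    linarith

lemma lap_add {lam : ℝ} {m : ℝ} (hm : 0 ≤ m) (t : ℝ≥0∞) :
    lap lam (t + ENNReal.ofReal m) = ENNReal.ofReal (Real.exp (-(lam * m))) * lap lam t := by
  unfold lap
  by_cases ht : t = ∞
  · simp [ht]
  · have : t + ENNReal.ofReal m ≠ ∞ := ENNReal.add_ne_top.mpr ⟨ht, ENNReal.ofReal_ne_top⟩
    rw [if_neg ht, if_neg this, ENNReal.toReal_add ht ENNReal.ofReal_ne_top,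
      ENNReal.toReal_ofReal hm, ← ENNReal.ofReal_mul (Real.exp_pos _).le, ← Real.exp_add]
    ring_nf

/-- The Laplace transform of the passage time. -/
noncomputable def LT (G : SimpleGraph V) (lam : ℝ) (A : Set V) (S : Finset V) : ℝ≥0∞ :=
  ∫⁻ w, lap lam (pt G A S (cw w)) ∂(pex (Sym2 V))

lemma LT_le_one {lam : ℝ} (h : 0 ≤ lam) (A : Set V) (S : Finset V) : LT G lam A S ≤ 1 := by
  unfold LT
  refine (lintegral_mono fun w => lap_le_one h _).trans ?_
  simp

/-- Recursion for the Laplace transform. -/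
lemma LT_rec {lam : ℝ} (hlam : 0 < lam) {A : Set V} {S : Finset V} (hSA : Disjoint (S : Set V) A) :
    ((bd G S).card + lam : ℝ) * (LT G lam A S).toReal ≤
      ∑ q ∈ bd G S, (LT G lam A (insert q.2 S)).toReal := by
  set β : ℝ := ((bd G S).card : ℝ) with hβ
  set x := (LT G lam A S).toReal with hx
  set y := ∑ q ∈ bd G S, (LT G lam A (insert q.2 S)).toReal with hy
  have hx0 : 0 ≤ x := ENNReal.toReal_nonneg
  have hy0 : 0 ≤ y := Finset.sum_nonneg fun _ _ => ENNReal.toReal_nonneg
  have hβ0 : 0 ≤ β := Nat.cast_nonneg _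
  have hfin : ∀ S' : Finset V, LT G lam A S' ≠ ∞ := fun S' =>
    ne_top_of_le_ne_top ENNReal.one_ne_top (LT_le_one hlam.le A S')
  have key : ∀ m : ℝ, 0 < m →
      x ≤ Real.exp (-(m * β)) * (Real.exp (-(lam * m)) * x) + (1 - Real.exp (-m)) * y := by
    intro m hm
    have hmeas : ∀ S : Finset V, Measurable fun w : Sym2 V → ℝ => lap lam (pt G A S (cw w)) :=
      fun S => (measurable_lap lam).comp
        (measurable_pt (X := fun e w => cw w e) measurable_cw A S)
    have h1 := lintegral_split (hmeas S) (bdE G S) hm.le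
    have h2 : ∫⁻ w, lap lam (pt G A S (cw (sh (bdE G S) m w))) ∂(pex (Sym2 V)) ≤
        ENNReal.ofReal (Real.exp (-(lam * m))) * LT G lam A S := by
      unfold LT
      rw [← lintegral_const_mul _ (hmeas S)]
      refine lintegral_mono_ae ?_
      filter_upwards [pex_nonneg_ae (ι := Sym2 V)] with w hw
      rw [← lap_add hm.le]
      refine lap_anti hlam.le ?_
      refine add_le_pt hSA (fun e => ?_) (fun x y hxy hx hy => ?_)
      · simp only [cw, sh]
        refine ENNReal.ofReal_le_ofReal ?_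
        split_ifs
        · linarith
        · exact le_rfl
      · have : s(x, y) ∈ bdE G S := (mem_bdE_iff hxy (by exact_mod_cast hy)).mpr
            (by exact_mod_cast hx)
        simp only [cw, sh, this, if_true]
        rw [ENNReal.ofReal_add (hw _) hm.le]
    have h4 : ∀ q ∈ bd G S, ∫⁻ w in {w : Sym2 V → ℝ | w s(q.1, q.2) ≤ m},
        lap lam (pt G A S (cw w)) ∂(pex (Sym2 V)) ≤
        ENNReal.ofReal (1 - Real.exp (-m)) * LT G lam A (insert q.2 S) := by
      intro q hq
      rw [mem_bd] at hq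
      unfold LT
      rw [← lintegral_indep (hmeas (insert q.2 S)) s(q.1, q.2) hm.le
        (fun w => by rw [pt_insert_sh hq.1]) (hfin _)]
      refine setLIntegral_mono (hmeas _) fun w hw => ?_
      refine lap_anti hlam.le (pt_anti ?_)
      rw [Finset.coe_insert]
      exact Set.subset_insert _ _
    rw [sum_bdE] at h1
    have h7 : LT G lam A S ≤ ENNReal.ofReal (Real.exp (-(m * β))) *
        (ENNReal.ofReal (Real.exp (-(lam * m))) * LT G lam A S) +
        ∑ q ∈ bd G S, ENNReal.ofReal (1 - Real.exp (-m)) * LT G lam A (insert q.2 S) := by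
      refine h1.trans ?_
      rw [card_bdE]
      gcongr with q hq
      exact h4 q hq
    have he : (0 : ℝ) ≤ 1 - Real.exp (-m) := by
      have : Real.exp (-m) ≤ 1 := Real.exp_le_one_iff.mpr (by linarith)
      linarith
    have hf1 : ENNReal.ofReal (Real.exp (-(m * β))) *
        (ENNReal.ofReal (Real.exp (-(lam * m))) * LT G lam A S) ≠ ∞ :=
      ENNReal.mul_ne_top ENNReal.ofReal_ne_top (ENNReal.mul_ne_top ENNReal.ofReal_ne_top (hfin S))
    have hf2 : ∀ q ∈ bd G S, ENNReal.ofReal (1 - Real.exp (-m)) * LT G lam A (insert q.2 S) ≠ ∞ :=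
      fun q _ => ENNReal.mul_ne_top ENNReal.ofReal_ne_top (hfin _)
    have h8 := ENNReal.toReal_mono (ENNReal.add_ne_top.mpr ⟨hf1, ENNReal.sum_ne_top.mpr hf2⟩) h7
    rw [ENNReal.toReal_add hf1 (ENNReal.sum_ne_top.mpr hf2), ENNReal.toReal_mul,
      ENNReal.toReal_mul, ENNReal.toReal_ofReal (Real.exp_pos _).le,
      ENNReal.toReal_ofReal (Real.exp_pos _).le, ENNReal.toReal_sum hf2] at h8
    refine h8.trans (le_of_eq ?_)
    congr 1
    rw [hy, Finset.mul_sum]
    refine Finset.sum_congr rfl fun q _ => ?_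
    rw [ENNReal.toReal_mul, ENNReal.toReal_ofReal he]
  exact limit_aux' hx0 hy0 hβ0 hlam key

/-- Comparison principle for the Laplace transform. -/
theorem LT_le {lam : ℝ} (hlam : 0 < lam) {A : Set V} (Pot : Finset V → ℝ) (Q : Finset V → Prop)
    (hone : ∀ S, Q S → ¬ Disjoint (S : Set V) A → 1 ≤ Pot S)
    (hQ : ∀ S, Q S → Disjoint (S : Set V) A → ∀ q ∈ bd G S, Q (insert q.2 S))
    (hB : ∀ S, Q S → Disjoint (S : Set V) A →
      ∑ q ∈ bd G S, Pot (insert q.2 S) ≤ ((bd G S).card + lam) * Pot S) :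
    ∀ S, Q S → (LT G lam A S).toReal ≤ Pot S := by
  have main : ∀ n : ℕ, ∀ S : Finset V, (Finset.univ \ S).card = n → Q S →
      (LT G lam A S).toReal ≤ Pot S := by
    intro n
    induction n using Nat.strong_induction_on with
    | _ n ih =>
      intro S hn hS
      by_cases hSA : Disjoint (S : Set V) A
      · have h1 := LT_rec (G := G) hlam hSA
        have h2 : ∑ q ∈ bd G S, (LT G lam A (insert q.2 S)).toReal ≤
            ∑ q ∈ bd G S, Pot (insert q.2 S) := by
          refine Finset.sum_le_sum fun q hq => ?_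
          have hq' := mem_bd.mp hq
          refine ih _ ?_ (insert q.2 S) rfl (hQ S hS hSA q hq)
          rw [← hn]
          refine Finset.card_lt_card ⟨Finset.sdiff_subset_sdiff (Finset.Subset.refl _)
            (Finset.subset_insert _ _), fun h => ?_⟩
          have h3 : q.2 ∈ Finset.univ \ S := by simp [hq'.2.1]
          have h4 := h h3
          simp at h4
        have h4 := h1.trans (h2.trans (hB S hS hSA))
        exact le_of_mul_le_mul_left h4 (by positivity)
      · refine le_trans ?_ (hone S hS hSA)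
        have := ENNReal.toReal_mono ENNReal.one_ne_top (LT_le_one (G := G) hlam.le A S)
        simpa using this
  intro S hS
  exact main _ S rfl hS

/-- Chernoff bound for the passage time. -/
lemma measure_pt_lt_le {lam : ℝ} (hlam : 0 ≤ lam) {A : Set V} {S : Finset V} {τ : ℝ} (hτ : 0 ≤ τ) :
    (pex (Sym2 V)) {w | pt G A S (cw w) < ENNReal.ofReal τ} ≤
      ENNReal.ofReal (Real.exp (lam * τ)) * LT G lam A S := by
  have hmeas : Measurable fun w : Sym2 V → ℝ => lap lam (pt G A S (cw w)) :=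
    (measurable_lap lam).comp (measurable_pt (X := fun e w => cw w e) measurable_cw A S)
  unfold LT
  rw [← lintegral_const_mul _ hmeas]
  have hset : MeasurableSet {w : Sym2 V → ℝ | pt G A S (cw w) < ENNReal.ofReal τ} :=
    measurableSet_lt (measurable_pt (X := fun e w => cw w e) measurable_cw A S) measurable_const
  rw [← lintegral_indicator_one hset]
  refine lintegral_mono fun w => ?_
  by_cases hw : pt G A S (cw w) < ENNReal.ofReal τ
  · rw [Set.indicator_of_mem (by exact hw)]
    have h1 : lap lam (ENNReal.ofReal τ) ≤ lap lam (pt G A S (cw w)) := lap_anti hlam hw.le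
    have h2 : lap lam (ENNReal.ofReal τ) = ENNReal.ofReal (Real.exp (-(lam * τ))) := by
      unfold lap
      rw [if_neg ENNReal.ofReal_ne_top, ENNReal.toReal_ofReal hτ]
    rw [h2] at h1
    calc (1 : ℝ≥0∞) = ENNReal.ofReal (Real.exp (lam * τ)) *
          ENNReal.ofReal (Real.exp (-(lam * τ))) := by
          rw [← ENNReal.ofReal_mul (Real.exp_pos _).le, ← Real.exp_add]; simp
      _ ≤ _ := by gcongr
  · rw [Set.indicator_of_notMem (by exact hw)]
    exact zero_le

end Pool.Agent.Lib.MP_edae2b_pr
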