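import Pool.Agent.Lib.MP_edae2b_pr.T14

/-!
# Checks of the table, dimension 14
-/

namespace Pool.Agent.Lib.MP_edae2b_pr

set_option maxRecDepth 100000

theorem ck14_0 : check 1000000000 90786794 13 100 400 0 [20, 40, 60, 80, 120, 160, 240, 320, 400] rho14 = true := by
  decide +kernel

theorem ck14_1 : check 1000000000 90786794 13 100 400 1 [20, 40, 60, 80, 120, 160, 240, 320, 400] rho14 = true := by
  decide +kernel

theorem ck14_2 : check 1000000000 90786794 13 100 400 2 [20, 40, 60, 80, 120, 160, 240, 320, 400] rho14 = true := by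
  decide +kernel

theorem ck14_3 : check 1000000000 90786794 13 100 400 3 [20, 40, 60, 80, 120, 160, 240, 320, 400] rho14 = true := by
  decide +kernel

end Pool.Agent.Lib.MP_edae2b_pr
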