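import Pool.Agent.Lib.MP_edae2b_pr.T19

/-!
# Checks of the table, dimension 19
-/

namespace Pool.Agent.Lib.MP_edae2b_pr

set_option maxRecDepth 100000

theorem ck19_0 : check 1000000000 73981783 18 80 200 0 [30, 60, 100, 150, 200] rho19 = true := by
  decide +kernel

theorem ck19_1 : check 1000000000 73981783 18 80 200 1 [30, 60, 100, 150, 200] rho19 = true := by
  decide +kernel

theorem ck19_2 : check 1000000000 73981783 18 80 200 2 [30, 60, 100, 150, 200] rho19 = true := by
  decide +kernel

theorem ck19_3 : check 1000000000 73981783 18 80 200 3 [30, 60, 100, 150, 200] rho19 = true := by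
  decide +kernel

theorem ck19_4 : check 1000000000 73981783 18 80 200 4 [30, 60, 100, 150, 200] rho19 = true := by
  decide +kernel

theorem ck19_5 : check 1000000000 73981783 18 80 200 5 [30, 60, 100, 150, 200] rho19 = true := by
  decide +kernel

end Pool.Agent.Lib.MP_edae2b_pr
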