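import Pool.Agent.Lib.MP_edae2b_pr.Axis

/-!
# Verified tables for potentials
-/

namespace Pool.Agent.Lib.MP_edae2b_pr

/-- State of the table computation: a list of columns. -/
inductive St where
  | nil : St
  | cons (a c : ℕ) (r : List ℕ) (u : ℕ) (t : St) : St

/-- One row of the table. -/
noncomputable def row (S a1 b1 x1 : ℕ) (st : St) : ℕ → St :=
  St.rec (fun _ => St.nil) (fun a c rl u _ ih w =>
    List.rec St.nil (fun r rs _ =>
      (fun r1 r2 =>
      (fun v =>
      Bool.rec St.nil (Bool.rec St.nil (Bool.rec St.nil (St.cons a c rs v (ih v))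
        (Nat.ble r v)) (Nat.ble w v)) (Nat.ble u v))
      (Nat.succ (Nat.div (Nat.add (Nat.add S (Nat.mul r1 u)) (Nat.add (Nat.mul r2 w)
        (Nat.mul a1 r))) (Nat.add (Nat.add r1 r2) a1))))
      (Nat.add b1 (Nat.sub a x1)) (Nat.add c (Nat.sub a1 a))) rl) st

/-- The value of a cell. -/
def cv (S a1 b1 x1 a c r u w : ℕ) : ℕ :=
  (S + (b1 + (a - x1)) * u + ((c + (a1 - a)) * w + a1 * r)) /
    (b1 + (a - x1) + (c + (a1 - a)) + a1) + 1

lemma row_nil (S a1 b1 x1 w : ℕ) : row S a1 b1 x1 St.nil w = St.nil := rfl

lemma row_cons_nil (S a1 b1 x1 a c u w : ℕ) (t : St) :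
    row S a1 b1 x1 (St.cons a c [] u t) w = St.nil := rfl

lemma row_cons (S a1 b1 x1 a c r u w : ℕ) (rs : List ℕ) (t : St) :
    row S a1 b1 x1 (St.cons a c (r :: rs) u t) w =
      if u ≤ cv S a1 b1 x1 a c r u w ∧ w ≤ cv S a1 b1 x1 a c r u w ∧ r ≤ cv S a1 b1 x1 a c r u w then
        St.cons a c rs (cv S a1 b1 x1 a c r u w) (row S a1 b1 x1 t (cv S a1 b1 x1 a c r u w))
      else St.nil := by
  have h : row S a1 b1 x1 (St.cons a c (r :: rs) u t) w =
      Bool.rec St.nil (Bool.rec St.nil (Bool.rec St.nil
        (St.cons a c rs (cv S a1 b1 x1 a c r u w) (row S a1 b1 x1 t (cv S a1 b1 x1 a c r u w)))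
        (Nat.ble r (cv S a1 b1 x1 a c r u w))) (Nat.ble w (cv S a1 b1 x1 a c r u w)))
        (Nat.ble u (cv S a1 b1 x1 a c r u w)) := rfl
  rw [h]
  by_cases h1 : u ≤ cv S a1 b1 x1 a c r u w
  · rw [Nat.ble_eq_true_of_le h1]
    by_cases h2 : w ≤ cv S a1 b1 x1 a c r u w
    · rw [Nat.ble_eq_true_of_le h2]
      by_cases h3 : r ≤ cv S a1 b1 x1 a c r u w
      · rw [Nat.ble_eq_true_of_le h3, if_pos ⟨h1, h2, h3⟩]
      · rw [show Nat.ble r (cv S a1 b1 x1 a c r u w) = false from
          Bool.eq_false_iff.mpr fun h => h3 (Nat.le_of_ble_eq_true h), if_neg (by tauto)]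
    · rw [show Nat.ble w (cv S a1 b1 x1 a c r u w) = false from
        Bool.eq_false_iff.mpr fun h => h2 (Nat.le_of_ble_eq_true h), if_neg (by tauto)]
  · rw [show Nat.ble u (cv S a1 b1 x1 a c r u w) = false from
      Bool.eq_false_iff.mpr fun h => h1 (Nat.le_of_ble_eq_true h), if_neg (by tauto)]

/-- Number of columns. -/
def len : St → ℕ
  | St.nil => 0
  | St.cons _ _ _ _ t => len t + 1

lemma len_row_le (S a1 b1 x1 : ℕ) (st : St) (w : ℕ) : len (row S a1 b1 x1 st w) ≤ len st := by
  induction st generalizing w with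
  | nil => simp [row_nil]
  | cons a c r u t ih =>
    cases r with
    | nil => rw [row_cons_nil]; simp [len]
    | cons r rs =>
      rw [row_cons]
      split_ifs
      · simpa [len] using ih _
      · simp [len]

/-- The state with given columns. -/
def mkS (f cf : ℕ → ℕ) (rf : ℕ → List ℕ) : ℕ → St
  | 0 => St.nil
  | n + 1 => St.cons n (cf n) (rf n) (f n) (mkS f cf rf n)

lemma len_mkS (f cf : ℕ → ℕ) (rf : ℕ → List ℕ) (n : ℕ) : len (mkS f cf rf n) = n := by
  induction n with
  | zero => rfl
  | succ n ih => simp [mkS, len, ih]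

lemma mkS_congr {f g cf : ℕ → ℕ} {rf : ℕ → List ℕ} {n : ℕ} (h : ∀ m < n, f m = g m) :
    mkS f cf rf n = mkS g cf rf n := by
  induction n with
  | zero => rfl
  | succ n ih =>
    simp only [mkS]
    rw [h n (Nat.lt_succ_self n), ih fun m hm => h m (Nat.lt_succ_of_lt hm)]

/-- The relation checked at a cell. -/
def Cell (S a1 b1 x1 a c r u w v : ℕ) : Prop :=
  v = cv S a1 b1 x1 a c r u w ∧ u ≤ v ∧ w ≤ v ∧ r ≤ v

lemma row_spec (S a1 b1 x1 : ℕ) (f cf : ℕ → ℕ) (rf : ℕ → List ℕ) (n w : ℕ)
    (h : len (row S a1 b1 x1 (mkS f cf rf n) w) = n) :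
    ∃ g : ℕ → ℕ, row S a1 b1 x1 (mkS f cf rf n) w = mkS g cf (fun m => (rf m).tail) n ∧
      ∀ m < n, Cell S a1 b1 x1 m (cf m) ((rf m).getD 0 0) (f m)
        (if m + 1 < n then g (m + 1) else w) (g m) := by
  induction n generalizing w with
  | zero => exact ⟨fun _ => 0, rfl, fun m hm => absurd hm (Nat.not_lt_zero m)⟩
  | succ n ih =>
    simp only [mkS] at h ⊢
    cases hr : rf n with
    | nil =>
      rw [hr, row_cons_nil] at h
      simp [len] at h
    | cons r rs =>
      rw [hr, row_cons] at h
      rw [row_cons]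
      set v := cv S a1 b1 x1 n (cf n) r (f n) w with hv
      split_ifs at h with hc
      · rw [if_pos hc]
        simp only [len] at h
        obtain ⟨g, hg1, hg2⟩ := ih v (by omega)
        refine ⟨fun m => if m = n then v else g m, ?_, ?_⟩
        · rw [hg1]
          simp only [List.tail_cons, if_true]
          rw [mkS_congr (g := fun m => if m = n then v else g m)]
          intro m hm
          simp [hm.ne]
        · intro m hm
          rcases Nat.lt_succ_iff_lt_or_eq.mp hm with hm | hm
          · have := hg2 m hm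
            rw [if_pos (by omega : m + 1 < n + 1)]
            simp only [hm.ne, if_false]
            by_cases h1 : m + 1 < n
            · rw [if_pos h1] at this
              rw [if_neg (by omega : ¬ m + 1 = n)]
              exact this
            · rw [if_neg h1] at this
              rw [if_pos (by omega : m + 1 = n)]
              exact this
          · subst hm
            rw [if_neg (by omega : ¬ m + 1 < m + 1), hr]
            simp only [if_true, List.getD_cons_zero]
            exact ⟨hv, hc.1, hc.2.1, hc.2.2⟩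
      · simp [len] at h

/-- Fast evaluation of `(eE n, eE (n + 1))`. -/
def eP : ℕ → ℕ → ℕ × ℕ
  | 0, _ => (0, 0)
  | f + 1, n => match eP f (n / 2) with
    | (x, y) => match n % 2 with
      | 0 => (2 * x + n / 2, x + y + n / 2)
      | _ => (x + y + n / 2, 2 * y + (n / 2 + 1))

lemma eP_eq (f n : ℕ) (h : n < 2 ^ f) : eP f n = (eE n, eE (n + 1)) := by
  induction f generalizing n with
  | zero =>
    have : n = 0 := by simpa using h
    subst this
    rw [eE_zero, show 0 + 1 = 1 from rfl, eE_one]
    rfl
  | succ f ih =>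
    have h1 : n / 2 < 2 ^ f := by
      rw [pow_succ] at h
      omega
    simp only [eP]
    rw [ih _ h1]
    simp only
    rcases Nat.mod_two_eq_zero_or_one n with h2 | h2
    · rw [h2]
      simp only
      have h3 : n = 2 * (n / 2) := by omega
      conv_rhs => rw [h3]
      rw [eE_two_mul, eE_two_mul_add_one]
    · rw [h2]
      simp only
      have h3 : n = 2 * (n / 2) + 1 := by omega
      conv_rhs => rw [h3]
      rw [eE_two_mul_add_one, show 2 * (n / 2) + 1 + 1 = 2 * (n / 2 + 1) by ring, eE_two_mul]

/-- Fast evaluation of `eE`. -/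
def eF (n : ℕ) : ℕ := (eP 12 n).1

lemma eF_eq {n : ℕ} (h : n < 4096) : eF n = eE n := by
  unfold eF
  rw [eP_eq 12 n (by norm_num; exact h)]

/-- Lower bound for the boundary of a layer. -/
def bF (D n : ℕ) : ℕ := 2 * D * n - 2 * eF n

/-- All rows of the table. -/
noncomputable def rows (S D K C : ℕ) : ℕ → St → St
  | 0, st => st
  | n + 1, st => rows S D K C n (cond (Nat.beq (n + 1) K) (row S (n + 1) 0 C st 0)
      (row S (n + 1) (bF D (n + 1)) (n + 1) st 0))

/-- Row parameters. -/
def pb (D K a : ℕ) : ℕ := if a = K then 0 else bF D a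

/-- Row parameters. -/
def px (K C a : ℕ) : ℕ := if a = K then C else a

lemma rows_succ (S D K C n : ℕ) (st : St) : rows S D K C (n + 1) st =
    rows S D K C n (row S (n + 1) (pb D K (n + 1)) (px K C (n + 1)) st 0) := by
  simp only [rows, pb, px]
  by_cases h : n + 1 = K
  · rw [h]
    simp
  · rw [show Nat.beq (n + 1) K = false from by
      rw [Bool.eq_false_iff]
      intro h'
      exact h (Nat.eq_of_beq_eq_true h')]
    simp [h]

lemma len_rows_le (S D K C n : ℕ) (st : St) : len (rows S D K C n st) ≤ len st := by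
  induction n generalizing st with
  | zero => exact le_refl _
  | succ n ih =>
    rw [rows_succ]
    exact (ih _).trans (len_row_le _ _ _ _ _ _)

lemma rows_spec (S D K C : ℕ) (cf : ℕ → ℕ) (N n : ℕ) (f : ℕ → ℕ) (rf : ℕ → List ℕ)
    (h : len (rows S D K C n (mkS f cf rf N)) = N) :
    ∃ V : ℕ → ℕ → ℕ, V (n + 1) = f ∧
      rows S D K C n (mkS f cf rf N) = mkS (V 1) cf (fun m => (rf m).drop n) N ∧
      ∀ a, 1 ≤ a → a ≤ n → ∀ m < N, Cell S a (pb D K a) (px K C a) m (cf m)
        ((rf m).getD (n - a) 0) (V (a + 1) m) (if m + 1 < N then V a (m + 1) else 0) (V a m) := by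
  induction n generalizing f rf with
  | zero => exact ⟨fun _ => f, rfl, by simp [rows], fun a h1 h2 => by omega⟩
  | succ n ih =>
    rw [rows_succ] at h ⊢
    have h1 : len (row S (n + 1) (pb D K (n + 1)) (px K C (n + 1)) (mkS f cf rf N) 0) = N := by
      have h2 := len_rows_le S D K C n
        (row S (n + 1) (pb D K (n + 1)) (px K C (n + 1)) (mkS f cf rf N) 0)
      have h3 := len_row_le S (n + 1) (pb D K (n + 1)) (px K C (n + 1)) (mkS f cf rf N) 0
      rw [len_mkS] at h3
      omega
    obtain ⟨g, hg1, hg2⟩ := row_spec _ _ _ _ _ _ _ _ _ h1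
    rw [hg1] at h ⊢
    obtain ⟨V, hV1, hV2, hV3⟩ := ih g _ h
    refine ⟨fun a => if a = n + 2 then f else V a, ?_, ?_, ?_⟩
    · simp
    · rw [hV2]
      congr 1
      funext m
      simp
    · intro a ha1 ha2 m hm
      rcases Nat.lt_or_ge a (n + 1) with h2 | h2
      · have h3 := hV3 a ha1 (by omega) m hm
        simp only [if_neg (by omega : ¬ a = n + 2), if_neg (by omega : ¬ a + 1 = n + 2)]
        have h4 : ((rf m).tail).getD (n - a) 0 = (rf m).getD (n + 1 - a) 0 := by
          rw [show n + 1 - a = (n - a) + 1 by omega]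
          cases rf m <;> simp
        rw [h4] at h3
        exact h3
      · have h5 : a = n + 1 := by omega
        subst h5
        have h3 := hg2 m hm
        simp only [if_neg (by omega : ¬ n + 1 = n + 2), if_true, Nat.sub_self]
        rw [hV1]
        exact h3

/-- Remove columns. -/
def dropS : ℕ → St → St
  | 0, st => st
  | n + 1, St.cons _ _ _ _ t => dropS n t
  | _ + 1, St.nil => St.nil

lemma dropS_mkS (f cf : ℕ → ℕ) (rf : ℕ → List ℕ) (n m : ℕ) :
    dropS m (mkS f cf rf (n + m)) = mkS f cf rf n := by
  induction m with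
  | zero => rfl
  | succ m ih =>
    rw [← Nat.add_assoc]
    exact ih

lemma len_dropS (m : ℕ) (st : St) : len (dropS m st) = len st - m := by
  induction m generalizing st with
  | zero => rfl
  | succ m ih =>
    cases st with
    | nil => simp [dropS, len]
    | cons a c r u t =>
      simp only [dropS, len]
      rw [ih]
      omega

/-- Final comparison. -/
def cmpS (M : ℕ) : St → List ℕ → Bool
  | St.cons _ _ _ u t, x :: xs => Nat.ble u (x + M) && cmpS M t xs
  | St.cons _ _ _ _ St.nil, [] => true
  | _, _ => false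

lemma len_of_cmpS {M : ℕ} {st : St} {xs : List ℕ} (h : cmpS M st xs = true) :
    len st = xs.length + 1 := by
  induction xs generalizing st with
  | nil =>
    cases st with
    | nil => simp [cmpS] at h
    | cons a c r u t =>
      cases t with
      | nil => rfl
      | cons => simp [cmpS] at h
  | cons x xs ih =>
    cases st with
    | nil => simp [cmpS] at h
    | cons a c r u t =>
      simp only [cmpS, Bool.and_eq_true] at h
      simp [len, ih h.2]

lemma cmpS_spec {M : ℕ} {g cf : ℕ → ℕ} {rf : ℕ → List ℕ} {n : ℕ} {xs : List ℕ}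
    (hn : xs.length = n) (h : cmpS M (mkS g cf rf (n + 1)) xs = true) :
    ∀ a, 1 ≤ a → a ≤ n → g a ≤ xs.getD (n - a) 0 + M := by
  induction n generalizing xs with
  | zero => intro a h1 h2; omega
  | succ n ih =>
    cases xs with
    | nil => simp at hn
    | cons x xs =>
      have h' : cmpS M (St.cons (n + 1) (cf (n + 1)) (rf (n + 1)) (g (n + 1))
        (mkS g cf rf (n + 1))) (x :: xs) = true := h
      simp only [cmpS, Bool.and_eq_true] at h'
      intro a ha1 ha2
      rcases Nat.lt_or_ge a (n + 1) with h2 | h2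
      · have h3 := ih (by simpa using hn) h'.2 a ha1 (by omega)
        rw [show n + 1 - a = (n - a) + 1 by omega]
        simpa using h3
      · have h5 : a = n + 1 := by omega
        subst h5
        simpa using Nat.le_of_ble_eq_true h'.1

/-- The level of a layer size. -/
def lev : List ℕ → ℕ → ℕ
  | [], _ => 0
  | g :: gs, n => cond (Nat.ble g n) (lev gs n + 1) 0

lemma lev_mono (gs : List ℕ) {m n : ℕ} (h : m ≤ n) : lev gs m ≤ lev gs n := by
  induction gs with
  | nil => exact le_refl _
  | cons g gs ih =>
    simp only [lev]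
    by_cases h1 : g ≤ m
    · rw [Nat.ble_eq_true_of_le h1, Nat.ble_eq_true_of_le (h1.trans h)]
      simpa using ih
    · rw [show Nat.ble g m = false from
          Bool.eq_false_iff.mpr fun h => h1 (Nat.le_of_ble_eq_true h)]
      simp

lemma lev_le_length (gs : List ℕ) (n : ℕ) : lev gs n ≤ gs.length := by
  induction gs with
  | nil => exact le_refl _
  | cons g gs ih =>
    simp only [lev]
    cases Nat.ble g n <;> simp [ih]

lemma lev_min (gs : List ℕ) {C : ℕ} (hC : ∀ g ∈ gs, g ≤ C) (n : ℕ) :
    lev gs (min n C) = lev gs n := by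
  rcases le_total n C with h | h
  · rw [min_eq_left h]
  · rw [min_eq_right h]
    induction gs with
    | nil => rfl
    | cons g gs ih =>
      have h1 : g ≤ C := hC g (by simp)
      simp only [lev]
      rw [Nat.ble_eq_true_of_le h1, Nat.ble_eq_true_of_le (h1.trans h),
        ih fun g' hg' => hC g' (by simp [hg'])]

lemma lev_val (gs : List ℕ) (x n : ℕ) (hx : x ≤ n) : (x :: gs).getD (lev gs n) 0 ≤ n := by
  induction gs generalizing x with
  | nil => simpa [lev] using hx
  | cons g gs ih =>
    simp only [lev]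
    by_cases h1 : g ≤ n
    · rw [Nat.ble_eq_true_of_le h1]
      simpa using ih g h1
    · rw [show Nat.ble g n = false from
          Bool.eq_false_iff.mpr fun h => h1 (Nat.le_of_ble_eq_true h)]
      simpa using hx

/-- The rates of the second layer. -/
def cD (D C g n : ℕ) : ℕ := cond (Nat.beq n C) 0 (bF D n + (g - n))

/-- The initial state. -/
def initS (D C g : ℕ) (gs : List ℕ) (rho : List (List ℕ)) : St :=
  mkS (fun _ => 0) (fun n => cD D C g n) (fun n => rho.getD (lev gs n) []) (C + 1)

/-- The check of the table for a level of the third layer. -/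
noncomputable def check (S M D K C k : ℕ) (gs : List ℕ) (rho : List (List ℕ)) : Bool :=
  cmpS M (dropS (C - K) (rows S D K C K (initS D C ((0 :: gs).getD k 0) gs rho)))
    (rho.getD k [])

/-- The entries of the table `rho`. -/
def RR (K : ℕ) (rho : List (List ℕ)) (l a : ℕ) : ℕ := (rho.getD l []).getD (K - a) 0

lemma check_spec {S M D K C k : ℕ} {gs : List ℕ} {rho : List (List ℕ)} (hK : K ≤ C)
    (hlen : (rho.getD k []).length = K) (h : check S M D K C k gs rho = true) :
    ∃ V : ℕ → ℕ → ℕ, (∀ a, 1 ≤ a → a ≤ K → ∀ m < C + 1,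
      Cell S a (pb D K a) (px K C a) m (cD D C ((0 :: gs).getD k 0) m)
        (RR K rho (lev gs m) a) (V (a + 1) m) (if m + 1 < C + 1 then V a (m + 1) else 0) (V a m)) ∧
      ∀ a, 1 ≤ a → a ≤ K → V 1 a ≤ RR K rho k a + M := by
  unfold check at h
  have h1 := len_of_cmpS h
  rw [len_dropS, hlen] at h1
  unfold initS at h h1
  have h2 := len_rows_le S D K C K (mkS (fun _ => 0) (fun n => cD D C ((0 :: gs).getD k 0) n)
    (fun n => rho.getD (lev gs n) []) (C + 1))
  rw [len_mkS] at h2
  obtain ⟨V, hV1, hV2, hV3⟩ := rows_spec S D K C _ (C + 1) K _ _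
    (show len (rows S D K C K (mkS (fun _ => 0) (fun n => cD D C ((0 :: gs).getD k 0) n)
      (fun n => rho.getD (lev gs n) []) (C + 1))) = C + 1 by omega)
  refine ⟨V, hV3, ?_⟩
  rw [hV2, show C + 1 = (K + 1) + (C - K) by omega, dropS_mkS] at h
  exact cmpS_spec hlen h

lemma cv_mono {S a1 b1 x1 a c c' r u u' w w' v : ℕ} (ha : 1 ≤ a1) (hv : v = cv S a1 b1 x1 a c r u w)
    (hwv : w ≤ v) (hu : b1 + (a - x1) = 0 ∨ u' ≤ u) (hw : w' ≤ w) (hc : c ≤ c') :
    cv S a1 b1 x1 a c' r u' w' ≤ v := by
  have hv' := hv
  unfold cv at hv' ⊢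
  set r1 := b1 + (a - x1)
  obtain ⟨e, rfl⟩ := Nat.exists_eq_add_of_le hc
  set r2 := c + (a1 - a) with hr2
  have hr2' : c + e + (a1 - a) = r2 + e := by omega
  rw [hr2']
  have h1 : S + r1 * u + (r2 * w + a1 * r) < (r1 + r2 + a1) * v := by
    rw [hv']
    exact Nat.lt_mul_div_succ _ (by omega)
  have h2 : r1 * u' ≤ r1 * u := by
    rcases hu with h | h
    · rw [h]; simp
    · exact Nat.mul_le_mul_left _ h
  have h3 : (r2 + e) * w' ≤ r2 * w + e * v := by
    rw [Nat.add_mul]
    exact Nat.add_le_add (Nat.mul_le_mul_left _ hw) (Nat.mul_le_mul_left _ (hw.trans hwv))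
  have h4 : S + r1 * u' + ((r2 + e) * w' + a1 * r) < (r1 + (r2 + e) + a1) * v := by
    have : (r1 + (r2 + e) + a1) * v = (r1 + r2 + a1) * v + e * v := by ring
    omega
  exact Nat.div_lt_of_lt_mul h4

/-- All conditions on the tables. -/
structure OK (S M D K C : ℕ) (gs : List ℕ) (rho : List (List ℕ)) : Prop where
  hS : 0 < S
  hK : 1 ≤ K
  hKC : K ≤ C
  hC : C < 4096
  hgs : ∀ g ∈ gs, g ≤ C
  hmono : ∀ k < gs.length, (0 :: gs).getD k 0 ≤ (0 :: gs).getD (k + 1) 0
  hlen : ∀ k < gs.length + 1, (rho.getD k []).length = K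
  hE : ∀ n < C + 1, eF n ≤ D * n
  hcheck : ∀ k < gs.length + 1, check S M D K C k gs rho = true

theorem isPot_of_OK {S M D K C : ℕ} {gs : List ℕ} {rho : List (List ℕ)}
    (h : OK S M D K C gs rho) : ∃ V : ℕ → ℕ → ℕ → ℝ, IsPot D ((M : ℝ) / S) V := by
  obtain ⟨hS, hK, hKC, hC, hgs, hmono, hlen, hE, hcheck⟩ := h
  have hex : ∀ k : ℕ, ∃ V : ℕ → ℕ → ℕ, k < gs.length + 1 → ((∀ a, 1 ≤ a → a ≤ K → ∀ m < C + 1,
      Cell S a (pb D K a) (px K C a) m (cD D C ((0 :: gs).getD k 0) m)
        (RR K rho (lev gs m) a) (V (a + 1) m) (if m + 1 < C + 1 then V a (m + 1) else 0) (V a m)) ∧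
      ∀ a, 1 ≤ a → a ≤ K → V 1 a ≤ RR K rho k a + M) := by
    intro k
    by_cases hk : k < gs.length + 1
    · obtain ⟨V, hV⟩ := check_spec hKC (hlen k hk) (hcheck k hk)
      exact ⟨V, fun _ => hV⟩
    · exact ⟨fun _ _ => 0, fun h => absurd h hk⟩
  choose W hW using hex
  -- monotonicity in the third variable
  have hstep : ∀ k, k + 1 < gs.length + 1 → ∀ j, ∀ a, 1 ≤ a → a + j = K → ∀ i, ∀ m, m + i = C →
      W (k + 1) a m ≤ W k a m := by
    intro k hk j
    induction j with
    | zero =>
      intro a ha haK i
      induction i with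
      | zero =>
        intro m hm
        have h1 := (hW k (by omega)).1 a ha (by omega) m (by omega)
        have h2 := (hW (k + 1) hk).1 a ha (by omega) m (by omega)
        rw [h2.1]
        refine cv_mono ha h1.1 h1.2.2.1 (Or.inl ?_) ?_ ?_
        · rw [pb, px, if_pos (by omega), if_pos (by omega)]
          omega
        · rw [if_neg (by omega), if_neg (by omega)]
        · rw [cD, cD, show Nat.beq m C = true from by
            rw [show m = C by omega]; exact Nat.beq_refl C]
          exact le_refl _
      | succ i ih =>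
        intro m hm
        have h1 := (hW k (by omega)).1 a ha (by omega) m (by omega)
        have h2 := (hW (k + 1) hk).1 a ha (by omega) m (by omega)
        rw [h2.1]
        refine cv_mono ha h1.1 h1.2.2.1 (Or.inl ?_) ?_ ?_
        · rw [pb, px, if_pos (by omega), if_pos (by omega)]
          omega
        · rw [if_pos (by omega), if_pos (by omega)]
          exact ih (m + 1) (by omega)
        · have h3 := hmono k (by omega)
          unfold cD
          cases Nat.beq m C
          · simp only [cond_false]
            omega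
          · simp
    | succ j ihj =>
      intro a ha haK i
      induction i with
      | zero =>
        intro m hm
        have h1 := (hW k (by omega)).1 a ha (by omega) m (by omega)
        have h2 := (hW (k + 1) hk).1 a ha (by omega) m (by omega)
        rw [h2.1]
        refine cv_mono ha h1.1 h1.2.2.1 (Or.inr ?_) ?_ ?_
        · exact ihj (a + 1) (by omega) (by omega) 0 m (by omega)
        · rw [if_neg (by omega), if_neg (by omega)]
        · rw [cD, cD, show Nat.beq m C = true from by
            rw [show m = C by omega]; exact Nat.beq_refl C]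
          exact le_refl _
      | succ i ih =>
        intro m hm
        have h1 := (hW k (by omega)).1 a ha (by omega) m (by omega)
        have h2 := (hW (k + 1) hk).1 a ha (by omega) m (by omega)
        rw [h2.1]
        refine cv_mono ha h1.1 h1.2.2.1 (Or.inr ?_) ?_ ?_
        · exact ihj (a + 1) (by omega) (by omega) (i + 1) m (by omega)
        · rw [if_pos (by omega), if_pos (by omega)]
          exact ih (m + 1) (by omega)
        · have h3 := hmono k (by omega)
          unfold cD
          cases Nat.beq m C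
          · simp only [cond_false]
            omega
          · simp
  have hlevel : ∀ k l, k ≤ l → l < gs.length + 1 → ∀ a, 1 ≤ a → a ≤ K → ∀ m, m ≤ C →
      W l a m ≤ W k a m := by
    intro k l hkl
    induction l, hkl using Nat.le_induction with
    | base => intro _ a _ _ m _; exact le_refl _
    | succ l hkl ih =>
      intro hl a ha haK m hm
      exact (hstep l hl (K - a) a ha (by omega) (C - m) m (by omega)).trans
        (ih (by omega) a ha haK m hm)
  -- monotonicity in the first two variables
  have h1 : ∀ k, k < gs.length + 1 → ∀ a, 1 ≤ a → a + 1 ≤ K → ∀ m, m ≤ C →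
      W k (a + 1) m ≤ W k a m := fun k hk a ha haK m hm =>
    ((hW k hk).1 a ha (by omega) m (by omega)).2.1
  have h2 : ∀ k, k < gs.length + 1 → ∀ a, 1 ≤ a → a ≤ K → ∀ m, m + 1 ≤ C →
      W k a (m + 1) ≤ W k a m := fun k hk a ha haK m hm => by
    have := ((hW k hk).1 a ha haK m (by omega)).2.2.1
    rwa [if_pos (by omega)] at this
  have h2' : ∀ k, k < gs.length + 1 → ∀ a, 1 ≤ a → a ≤ K → ∀ m n, m ≤ n → n ≤ C →
      W k a n ≤ W k a m := by
    intro k hk a ha haK m n hmn
    induction n, hmn using Nat.le_induction with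
    | base => intro _; exact le_refl _
    | succ n hmn ih =>
      intro hn
      exact (h2 k hk a ha haK n hn).trans (ih (by omega))
  have hlev : ∀ n, lev gs n < gs.length + 1 := fun n => Nat.lt_succ_of_le (lev_le_length gs n)
  -- the potential
  have hS' : (0 : ℝ) < S := by exact_mod_cast hS
  refine ⟨fun a b c => (W (lev gs c) (min (max a 1) K) (min b C) : ℝ) / S, ?_, ?_, ?_, ?_, ?_, ?_, ?_⟩
  · positivity
  · intro a b c
    positivity
  · intro a b c
    refine div_le_div_of_nonneg_right ?_ hS'.le
    norm_cast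
    rcases Nat.eq_zero_or_pos a with h | h
    · subst h
      simp
    · rcases Nat.lt_or_ge a K with h3 | h3
      · rw [show min (max (a + 1) 1) K = a + 1 by omega, show min (max a 1) K = a by omega]
        exact h1 _ (hlev c) a h (by omega) _ (by omega)
      · rw [show min (max (a + 1) 1) K = K by omega, show min (max a 1) K = K by omega]
  · intro a b c
    refine div_le_div_of_nonneg_right ?_ hS'.le
    norm_cast
    exact h2' _ (hlev c) _ (by omega) (by omega) _ _ (by omega) (by omega)
  · intro a b c
    refine div_le_div_of_nonneg_right ?_ hS'.le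
    norm_cast
    exact hlevel _ _ (lev_mono gs (by omega)) (hlev _) _ (by omega) (by omega) _ (by omega)
  · intro a b c ha
    have h3 := (hW (lev gs b) (hlev b)).2 (min a K) (by omega) (by omega)
    have h4 := h2' (lev gs b) (hlev b) 1 (le_refl 1) hK (min a K) (min a C) (by omega) (by omega)
    have h5 := ((hW (lev gs c) (hlev c)).1 (min a K) (by omega) (by omega) (min b C)
      (by omega)).2.2.2
    rw [lev_min gs hgs b] at h5
    have h6 : W (lev gs b) 1 (min a C) ≤ M + W (lev gs c) (min a K) (min b C) := by omega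
    have h7 : ((W (lev gs b) 1 (min a C) : ℕ) : ℝ) ≤
        M + (W (lev gs c) (min a K) (min b C) : ℕ) := by exact_mod_cast h6
    rw [show min (max 1 1) K = 1 by omega, show max a 1 = a by omega, ← add_div]
    exact div_le_div_of_nonneg_right h7 hS'.le
  · intro a b c ha
    have h3 := (hW (lev gs b) (hlev b)).2 (min a K) (by omega) (by omega)
    have h4 := h2' (lev gs b) (hlev b) 1 (le_refl 1) hK (min a K) (min a C) (by omega) (by omega)
    have h5 := (hW (lev gs c) (hlev c)).1 (min a K) (by omega) (by omega) (min b C) (by omega)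
    rw [lev_min gs hgs b] at h5
    obtain ⟨h6, h7, h8, h9⟩ := h5
    have hg : (0 :: gs).getD (lev gs c) 0 ≤ c := lev_val gs 0 c (Nat.zero_le _)
    rw [show min (max 1 1) K = 1 by omega, show max a 1 = a by omega,
      show max (a + 1) 1 = a + 1 by omega]
    set v := W (lev gs c) (min a K) (min b C) with hvdef
    set r := RR K rho (lev gs b) (min a K) with hrdef
    -- the cell inequality
    have hcell : S + (pb D K (min a K) + (min b C - px K C (min a K))) * W (lev gs c) (min a K + 1) (min b C) +
        ((cD D C ((0 :: gs).getD (lev gs c) 0) (min b C) + (min a K - min b C)) *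
          (if min b C + 1 < C + 1 then W (lev gs c) (min a K) (min b C + 1) else 0) +
          min a K * r) <
        (pb D K (min a K) + (min b C - px K C (min a K)) +
          (cD D C ((0 :: gs).getD (lev gs c) 0) (min b C) + (min a K - min b C)) + min a K) * v := by
      rw [h6]
      exact Nat.lt_mul_div_succ _ (by omega)
    have hcell' : (S : ℝ) + ((pb D K (min a K) + (min b C - px K C (min a K)) : ℕ) : ℝ) *
        (W (lev gs c) (min a K + 1) (min b C) : ℕ) +
        (((cD D C ((0 :: gs).getD (lev gs c) 0) (min b C) + (min a K - min b C) : ℕ) : ℝ) *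
          ((if min b C + 1 < C + 1 then W (lev gs c) (min a K) (min b C + 1) else 0 : ℕ) : ℝ) +
          (min a K : ℕ) * r) <
        (((pb D K (min a K) + (min b C - px K C (min a K)) : ℕ) : ℝ) +
          ((cD D C ((0 :: gs).getD (lev gs c) 0) (min b C) + (min a K - min b C) : ℕ) : ℝ) +
          (min a K : ℕ)) * v := by exact_mod_cast hcell
    -- the four terms
    have t0 : (min a K : ℕ) * ((v : ℝ) - r) ≤
        (a : ℝ) * (M + v - W (lev gs b) 1 (min a C)) := by
      have e1 : (r : ℝ) ≤ v := by exact_mod_cast h9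
      have e2 : ((W (lev gs b) 1 (min a C) : ℕ) : ℝ) ≤ r + M := by exact_mod_cast h4.trans h3
      have e3 : ((min a K : ℕ) : ℝ) ≤ a := by exact_mod_cast Nat.min_le_left a K
      calc _ ≤ (a : ℝ) * ((v : ℝ) - r) := mul_le_mul_of_nonneg_right e3 (by linarith)
        _ ≤ _ := mul_le_mul_of_nonneg_left (by linarith) (Nat.cast_nonneg a)
    have t1 : ((pb D K (min a K) + (min b C - px K C (min a K)) : ℕ) : ℝ) *
        ((v : ℝ) - W (lev gs c) (min a K + 1) (min b C)) ≤
        (2 * D * a + (b - a : ℕ) - 2 * eE a : ℝ) *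
          ((v : ℝ) - W (lev gs c) (min (a + 1) K) (min b C)) := by
      rcases Nat.lt_or_ge a K with hlt | hge
      · have e0 : min a K = a := by omega
        have e1 : min (a + 1) K = a + 1 := by omega
        have e2 : pb D K a = bF D a := if_neg (by omega)
        have e3 : px K C a = a := if_neg (by omega)
        have e4 : bF D a + 2 * eE a = 2 * D * a := by
          unfold bF
          rw [eF_eq (by omega)]
          have := hE a (by omega)
          rw [eF_eq (by omega)] at this
          have e5 : 2 * D * a = 2 * (D * a) := by ring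
          omega
        have e6 : (((bF D a + 2 * eE a : ℕ)) : ℝ) = ((2 * D * a : ℕ) : ℝ) := by rw [e4]
        rw [e0] at hvdef h7 ⊢
        rw [e1, e2, e3]
        have e7 : ((W (lev gs c) (a + 1) (min b C) : ℕ) : ℝ) ≤ v := by exact_mod_cast h7
        refine mul_le_mul_of_nonneg_right ?_ (by linarith)
        push_cast at e6 ⊢
        have e8 : ((min b C - a : ℕ) : ℝ) ≤ ((b - a : ℕ) : ℝ) := by
          have : min b C - a ≤ b - a := by omega
          exact_mod_cast this
        linarith
      · have e0 : min a K = K := by omega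
        have e1 : min (a + 1) K = K := by omega
        have e2 : pb D K K = 0 := if_pos rfl
        have e3 : px K C K = C := if_pos rfl
        rw [e0] at hvdef ⊢
        rw [e1, e2, e3, ← hvdef, show 0 + (min b C - C) = 0 by omega]
        simp
    have t2 : ((cD D C ((0 :: gs).getD (lev gs c) 0) (min b C) + (min a K - min b C) : ℕ) : ℝ) *
        ((v : ℝ) - ((if min b C + 1 < C + 1 then W (lev gs c) (min a K) (min b C + 1) else 0 : ℕ) : ℝ)) ≤
        (2 * D * b + (c - b : ℕ) + (a - b : ℕ) - 2 * eE b : ℝ) *
          ((v : ℝ) - W (lev gs c) (min a K) (min (b + 1) C)) := by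
      rcases Nat.lt_or_ge b C with hlt | hge
      · have e0 : min b C = b := by omega
        have e1 : min (b + 1) C = b + 1 := by omega
        have e2 : cD D C ((0 :: gs).getD (lev gs c) 0) b =
            bF D b + ((0 :: gs).getD (lev gs c) 0 - b) := by
          unfold cD
          rw [show Nat.beq b C = false from by
            rw [Bool.eq_false_iff]
            intro h'
            have := Nat.eq_of_beq_eq_true h'
            omega]
          rfl
        have e4 : bF D b + 2 * eE b = 2 * D * b := by
          unfold bF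
          rw [eF_eq (by omega)]
          have := hE b (by omega)
          rw [eF_eq (by omega)] at this
          have e5 : 2 * D * b = 2 * (D * b) := by ring
          omega
        have e6 : (((bF D b + 2 * eE b : ℕ)) : ℝ) = ((2 * D * b : ℕ) : ℝ) := by rw [e4]
        rw [e0] at hvdef h8 ⊢
        rw [if_pos (by omega)] at h8 ⊢
        rw [e1, e2]
        have e7 : ((W (lev gs c) (min a K) (b + 1) : ℕ) : ℝ) ≤ v := by exact_mod_cast h8
        refine mul_le_mul_of_nonneg_right ?_ (by linarith)
        push_cast at e6 ⊢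
        have e8 : (((0 :: gs).getD (lev gs c) 0 - b : ℕ) : ℝ) ≤ ((c - b : ℕ) : ℝ) := by
          have : (0 :: gs).getD (lev gs c) 0 - b ≤ c - b := by omega
          exact_mod_cast this
        have e9 : ((min a K - b : ℕ) : ℝ) ≤ ((a - b : ℕ) : ℝ) := by
          have : min a K - b ≤ a - b := by omega
          exact_mod_cast this
        linarith
      · have e0 : min b C = C := by omega
        have e1 : min (b + 1) C = C := by omega
        have e2 : cD D C ((0 :: gs).getD (lev gs c) 0) C = 0 := by
          unfold cD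
          rw [show Nat.beq C C = true from Nat.beq_refl C]
          rfl
        rw [e0] at hvdef ⊢
        rw [e1, e2, ← hvdef, show 0 + (min a K - C) = 0 by omega]
        simp
    have t3 : 0 ≤ (2 * D * c + (b - c : ℕ) - 2 * eE c : ℝ) *
        ((v : ℝ) - W (lev gs (c + 1)) (min a K) (min b C)) := by
      rcases Nat.lt_or_ge c C with hlt | hge
      · have e1 := hE c (by omega)
        rw [eF_eq (by omega)] at e1
        have e2 : ((eE c : ℕ) : ℝ) ≤ D * c := by exact_mod_cast e1
        have e3 := hlevel _ _ (lev_mono gs (show c ≤ c + 1 by omega)) (hlev _) (min a K) (by omega)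
          (by omega) (min b C) (by omega)
        have e4 : ((W (lev gs (c + 1)) (min a K) (min b C) : ℕ) : ℝ) ≤ v := by exact_mod_cast e3
        refine mul_nonneg ?_ (by linarith)
        have e5 : (0 : ℝ) ≤ ((b - c : ℕ) : ℝ) := Nat.cast_nonneg _
        linarith
      · have e1 : lev gs (c + 1) = lev gs c := by
          rw [← lev_min gs hgs (c + 1), ← lev_min gs hgs c, show min (c + 1) C = C by omega,
            show min c C = C by omega]
        rw [e1, ← hvdef]
        simp
    -- combine
    have hfin : (S : ℝ) ≤ (a : ℝ) * (M + v - W (lev gs b) 1 (min a C)) +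
        (2 * D * a + (b - a : ℕ) - 2 * eE a : ℝ) *
          ((v : ℝ) - W (lev gs c) (min (a + 1) K) (min b C)) +
        (2 * D * b + (c - b : ℕ) + (a - b : ℕ) - 2 * eE b : ℝ) *
          ((v : ℝ) - W (lev gs c) (min a K) (min (b + 1) C)) +
        (2 * D * c + (b - c : ℕ) - 2 * eE c : ℝ) *
          ((v : ℝ) - W (lev gs (c + 1)) (min a K) (min b C)) := by
      refine le_trans ?_ (add_le_add (add_le_add (add_le_add t0 t1) t2) t3)
      nlinarith [hcell']
    have hdiv := div_le_div_of_nonneg_right hfin hS'.le
    rw [div_self hS'.ne'] at hdiv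
    refine hdiv.trans (le_of_eq ?_)
    field_simp

end Pool.Agent.Lib.MP_edae2b_pr
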