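import Pool.Agent.Lib.MP_edae2b_pr.Grid

/-!
# Upper bound for the Laplace transform of the passage time to a point
-/

namespace Pool.Agent.Lib.MP_edae2b_pr

open Finset

variable {ι : Type*} [Fintype ι] [DecidableEq ι]

/-- Exponential weight. -/
noncomputable def psi (θ : ℝ) (y z : ι → ℤ) : ℝ := Real.exp (θ * (∑ i, (z i : ℝ) - ∑ i, (y i : ℝ)))

lemma psi_pos (θ : ℝ) (y z : ι → ℤ) : 0 < psi θ y z := Real.exp_pos _

lemma sum_uv (i : ι) : ∑ j, ((uv i : ι → ℤ) j : ℝ) = 1 := by
  rw [sum_eq_single i (fun j _ hj => by simp [Pi.single_apply, hj]) (by simp)]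
  simp

lemma psi_dv_true (θ : ℝ) (y z : ι → ℤ) (i : ι) :
    psi θ y (z + dv (i, true)) = Real.exp θ * psi θ y z := by
  unfold psi
  rw [← Real.exp_add]
  congr 1
  simp only [dv, if_true, Pi.add_apply, Int.cast_add, sum_add_distrib]
  rw [sum_uv]
  ring

lemma psi_dv_false (θ : ℝ) (y z : ι → ℤ) (i : ι) :
    psi θ y (z + dv (i, false)) = Real.exp (-θ) * psi θ y z := by
  unfold psi
  rw [← Real.exp_add]
  congr 1
  simp only [dv, if_false, Bool.false_eq_true, Pi.add_apply, Pi.neg_apply, Int.cast_add,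
    Int.cast_neg, sum_add_distrib, sum_neg_distrib]
  rw [sum_uv]
  ring

lemma sum_psi_dv (θ : ℝ) (y z : ι → ℤ) :
    ∑ δ : ι × Bool, psi θ y (z + dv δ) = 2 * Fintype.card ι * Real.cosh θ * psi θ y z := by
  rw [Fintype.sum_prod_type]
  simp only [Fintype.sum_bool, psi_dv_true, psi_dv_false]
  rw [sum_const, card_univ, nsmul_eq_mul, Real.cosh_eq]
  ring

/-- Internal adjacency sum. -/
noncomputable def II (θ : ℝ) (y : ι → ℤ) (S : Finset (ι → ℤ)) : ℝ :=
  ∑ z ∈ S, ∑ δ : ι × Bool, if z + dv δ ∈ S then psi θ y (z + dv δ) else 0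

lemma II_insert {θ : ℝ} (hθ : 0 ≤ θ) (y : ι → ℤ) {S : Finset (ι → ℤ)} {u v : ι → ℤ} (hu : u ∈ S)
    (hv : v ∉ S) {δ₀ : ι × Bool} (hδ₀ : v = u + dv δ₀) :
    II θ y S + (1 + Real.exp (-θ)) * psi θ y v ≤ II θ y (insert v S) := by
  unfold II
  rw [sum_insert hv]
  have h1 : ∑ z ∈ S, ∑ δ : ι × Bool, (if z + dv δ ∈ S then psi θ y (z + dv δ) else 0) +
      psi θ y v ≤
      ∑ z ∈ S, ∑ δ : ι × Bool, (if z + dv δ ∈ insert v S then psi θ y (z + dv δ) else 0) := by
    have h2 : ∀ z ∈ S, ∑ δ : ι × Bool, (if z + dv δ ∈ S then psi θ y (z + dv δ) else 0) +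
        (if z = u then psi θ y v else 0) ≤
        ∑ δ : ι × Bool, (if z + dv δ ∈ insert v S then psi θ y (z + dv δ) else 0) := by
      intro z _
      by_cases hz : z = u
      · subst hz
        rw [if_pos rfl]
        have h3 : psi θ y v = ∑ δ : ι × Bool, if δ = δ₀ then psi θ y v else 0 := by simp
        rw [h3, ← sum_add_distrib]
        refine sum_le_sum fun δ _ => ?_
        by_cases hδ : δ = δ₀
        · subst hδ
          rw [← hδ₀, if_neg hv, if_pos rfl, if_pos (mem_insert_self _ _)]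
          simp
        · rw [if_neg hδ, add_zero]
          split_ifs with h4 h5 h5
          · exact le_rfl
          · exact absurd (mem_insert_of_mem h4) h5
          · exact (psi_pos _ _ _).le
          · exact le_rfl
      · rw [if_neg hz, add_zero]
        refine sum_le_sum fun δ _ => ?_
        split_ifs with h4 h5 h5
        · exact le_rfl
        · exact absurd (mem_insert_of_mem h4) h5
        · exact (psi_pos _ _ _).le
        · exact le_rfl
    have h3 := sum_le_sum h2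
    rw [sum_add_distrib, sum_ite_eq' S u, if_pos hu] at h3
    exact h3
  have h2 : Real.exp (-θ) * psi θ y v ≤
      ∑ δ : ι × Bool, (if v + dv δ ∈ insert v S then psi θ y (v + dv δ) else 0) := by
    have hback : v + dv (δ₀.1, !δ₀.2) = u := by
      rw [dv_neg, hδ₀]; simp
    have h3 : psi θ y u ≤
        ∑ δ : ι × Bool, (if v + dv δ ∈ insert v S then psi θ y (v + dv δ) else 0) := by
      have := single_le_sum (f := fun δ : ι × Bool =>
        (if v + dv δ ∈ insert v S then psi θ y (v + dv δ) else 0)) (fun δ _ => by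
          split_ifs
          · exact (psi_pos _ _ _).le
          · exact le_rfl) (mem_univ (δ₀.1, !δ₀.2))
      simp only [hback, if_pos (mem_insert_of_mem hu : u ∈ insert v S)] at this
      exact this
    refine le_trans ?_ h3
    rw [hδ₀]
    obtain ⟨i, b⟩ := δ₀
    cases b
    · rw [psi_dv_false, ← mul_assoc, ← Real.exp_add]
      have : Real.exp (-θ + -θ) ≤ 1 := Real.exp_le_one_iff.mpr (by linarith)
      have := mul_le_mul_of_nonneg_right this (psi_pos θ y u).le
      linarith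
    · rw [psi_dv_true, ← mul_assoc, ← Real.exp_add]
      simp
  linarith

lemma sum_TT_psi (θ : ℝ) (y : ι → ℤ) (S : Finset (ι → ℤ)) :
    ∑ p ∈ TT S, psi θ y (p.1 + dv p.2) + II θ y S =
      2 * Fintype.card ι * Real.cosh θ * ∑ z ∈ S, psi θ y z := by
  have h1 : ∑ p ∈ TT S, psi θ y (p.1 + dv p.2) =
      ∑ z ∈ S, ∑ δ : ι × Bool, if z + dv δ ∉ S then psi θ y (z + dv δ) else 0 := by
    unfold TT
    rw [sum_filter, sum_product]
  rw [h1]
  unfold II
  rw [← sum_add_distrib, mul_sum]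
  refine sum_congr rfl fun z _ => ?_
  rw [← sum_add_distrib, ← sum_psi_dv]
  refine sum_congr rfl fun δ _ => ?_
  by_cases h : z + dv δ ∈ S <;> simp [h]

/-- Upper bound for the Laplace transform of the passage time from the origin to `y`. -/
theorem LT_box_le {θ lam : ℝ} (hθ : 0 ≤ θ) (hlam : 0 < lam)
    (hl : 2 * Fintype.card ι * Real.cosh θ - 1 - Real.exp (-θ) ≤ lam) {n : ℕ}
    (o y : boxF ι n) :
    (LT (boxG ι n) lam {y} {o}).toReal ≤
      (1 + (1 + Real.exp (-θ)) / lam) * psi θ y.1 o.1 := by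
  have h1 := LT_le (G := boxG ι n) hlam (A := ({y} : Set (boxF ι n)))
    (fun S => ∑ z ∈ im S, psi θ y.1 z + (1 + Real.exp (-θ)) * psi θ y.1 o.1 / lam)
    (fun S => (1 + Real.exp (-θ)) * (∑ z ∈ im S, psi θ y.1 z - psi θ y.1 o.1) ≤ II θ y.1 (im S))
    ?_ ?_ ?_ {o} ?_
  · refine h1.trans (le_of_eq ?_)
    have him : im ({o} : Finset (boxF ι n)) = {o.1} := by simp [im]
    rw [him, sum_singleton]
    ring
  · intro S _ hS
    rw [Set.disjoint_singleton_right, not_not, mem_coe] at hS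
    have hy : y.1 ∈ im S := mem_im.mpr ⟨y.2, hS⟩
    have h2 : psi θ y.1 y.1 = 1 := by simp [psi]
    have h3 : psi θ y.1 y.1 ≤ ∑ z ∈ im S, psi θ y.1 z :=
      single_le_sum (f := fun z => psi θ y.1 z) (fun z _ => (psi_pos _ _ _).le) hy
    have h4 : 0 ≤ (1 + Real.exp (-θ)) * psi θ y.1 o.1 / lam := by
      have := psi_pos θ y.1 o.1
      positivity
    rw [h2] at h3
    linarith
  · intro S hS _ q hq
    obtain ⟨h3, h4, h5⟩ := mem_bd.mp hq
    have h6 : (gridG ι).Adj q.1.1 q.2.1 := h5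
    rw [grid_adj_iff] at h6
    obtain ⟨δ, hδ⟩ := h6
    have h7 : q.2.1 ∉ im S := fun h => by
      obtain ⟨_, h⟩ := mem_im.mp h
      exact h4 h
    rw [im_insert, sum_insert h7]
    have h8 := II_insert hθ y.1 (mem_im.mpr ⟨q.1.2, h3⟩) h7 hδ
    linarith
  · intro S hS _
    have h2 : ∀ q ∈ bd (boxG ι n) S, (∑ z ∈ im (insert q.2 S), psi θ y.1 z +
        (1 + Real.exp (-θ)) * psi θ y.1 o.1 / lam) = (∑ z ∈ im S, psi θ y.1 z +
        (1 + Real.exp (-θ)) * psi θ y.1 o.1 / lam) + psi θ y.1 q.2.1 := by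
      intro q hq
      obtain ⟨h3, h4, h5⟩ := mem_bd.mp hq
      have h7 : q.2.1 ∉ im S := fun h => by
        obtain ⟨_, h⟩ := mem_im.mp h
        exact h4 h
      rw [im_insert, sum_insert h7]
      ring
    rw [sum_congr rfl h2, sum_add_distrib, sum_const, nsmul_eq_mul,
      add_mul ((bd (boxG ι n) S).card : ℝ) lam]
    have h3 := sum_bd_le S (fun z => psi θ y.1 z) (fun z => (psi_pos _ _ _).le)
    have h4 := sum_TT_psi θ y.1 (im S)
    have h5 : 0 ≤ ∑ z ∈ im S, psi θ y.1 z := sum_nonneg fun z _ => (psi_pos _ _ _).le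
    have h6 : lam * (∑ z ∈ im S, psi θ y.1 z + (1 + Real.exp (-θ)) * psi θ y.1 o.1 / lam) =
        lam * ∑ z ∈ im S, psi θ y.1 z + (1 + Real.exp (-θ)) * psi θ y.1 o.1 := by
      field_simp
    rw [h6]
    have h7 := mul_le_mul_of_nonneg_right hl h5
    linarith
  · have him : im ({o} : Finset (boxF ι n)) = {o.1} := by simp [im]
    rw [him, sum_singleton, sub_self, mul_zero]
    unfold II
    refine sum_nonneg fun z _ => sum_nonneg fun δ _ => ?_
    split_ifs
    · exact (psi_pos _ _ _).le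
    · exact le_rfl

end Pool.Agent.Lib.MP_edae2b_pr
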