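import Pool.Agent.Lib.MP_edae2b_pr.Iso
import Pool.Agent.Lib.MP_edae2b_pr.Bellman

/-!
# The grid graph, boxes, and the counting of boundary edges
-/

namespace Pool.Agent.Lib.MP_edae2b_pr

open Finset

variable {ι : Type*} [Fintype ι] [DecidableEq ι]

/-- The nearest neighbour graph on `ℤ^ι`. -/
def gridG (ι : Type*) [Fintype ι] : SimpleGraph (ι → ℤ) :=
  SimpleGraph.fromRel fun y z : ι → ℤ => ∑ i, |y i - z i| = 1

/-- The signed unit vectors. -/
def dv (δ : ι × Bool) : ι → ℤ := if δ.2 then uv δ.1 else -uv δ.1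

lemma sum_abs_dv (δ : ι × Bool) : ∑ i, |dv δ i| = 1 := by
  obtain ⟨i, b⟩ := δ
  cases b
  · simp only [dv, if_false, Pi.neg_apply, abs_neg, Bool.false_eq_true]
    rw [sum_eq_single i (fun j _ hj => by simp [Pi.single_apply, hj]) (by simp)]
    simp
  · simp only [dv, if_true]
    rw [sum_eq_single i (fun j _ hj => by simp [Pi.single_apply, hj]) (by simp)]
    simp

lemma dv_ne_zero (δ : ι × Bool) : dv δ ≠ 0 := by
  intro h
  have := sum_abs_dv δ
  simp [h] at this

lemma dv_self (i : ι) (b : Bool) : dv (i, b) i = if b then 1 else -1 := by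
  cases b <;> simp [dv]

lemma dv_other (i j : ι) (b : Bool) (h : i ≠ j) : dv (i, b) j = 0 := by
  cases b <;> simp [dv, Pi.single_apply, h.symm]

lemma dv_injective : Function.Injective (dv : ι × Bool → ι → ℤ) := by
  rintro ⟨i, b⟩ ⟨j, c⟩ h
  have h1 := congrFun h i
  rw [dv_self] at h1
  by_cases hij : i = j
  · subst hij
    rw [dv_self] at h1
    cases b <;> cases c <;> simp_all
  · exfalso
    rw [dv_other j i c (fun h => hij h.symm)] at h1
    cases b <;> simp at h1

lemma grid_adj_iff {x y : ι → ℤ} : (gridG ι).Adj x y ↔ ∃ δ, y = x + dv δ := by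
  unfold gridG
  rw [SimpleGraph.fromRel_adj]
  constructor
  · rintro ⟨_, h⟩
    have h1 : ∑ i, |y i - x i| = 1 := by
      rcases h with h | h
      · rw [← h]
        exact sum_congr rfl fun i _ => abs_sub_comm _ _
      · exact h
    obtain ⟨i, hi⟩ : ∃ i, y i - x i ≠ 0 := by
      by_contra hcon
      push Not at hcon
      simp [hcon] at h1
    have h2 : |y i - x i| + ∑ j ∈ univ.erase i, |y j - x j| = 1 := by
      rw [← h1, add_sum_erase univ (fun j => |y j - x j|) (mem_univ i)]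
    have h3 : 0 ≤ ∑ j ∈ univ.erase i, |y j - x j| := sum_nonneg fun j _ => abs_nonneg _
    have h4 : 1 ≤ |y i - x i| := Int.one_le_abs hi
    have h5 : ∑ j ∈ univ.erase i, |y j - x j| = 0 := by omega
    have h6 : |y i - x i| = 1 := by omega
    rw [sum_eq_zero_iff_of_nonneg fun j _ => abs_nonneg _] at h5
    have h7 : ∀ j, j ≠ i → y j = x j := by
      intro j hj
      have := h5 j (mem_erase.mpr ⟨hj, mem_univ j⟩)
      rw [abs_eq_zero] at this
      omega
    rcases (abs_eq (by norm_num : (0 : ℤ) ≤ 1)).mp h6 with h8 | h8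
    · refine ⟨(i, true), ?_⟩
      funext j
      by_cases hj : j = i
      · subst hj
        simp [dv]
        omega
      · simp [dv, Pi.single_apply, hj, h7 j hj]
    · refine ⟨(i, false), ?_⟩
      funext j
      by_cases hj : j = i
      · subst hj
        simp [dv]
        omega
      · simp [dv, Pi.single_apply, hj, h7 j hj]
  · rintro ⟨δ, rfl⟩
    refine ⟨fun h => dv_ne_zero δ (by simpa using h.symm), Or.inr ?_⟩
    simpa using sum_abs_dv δ

lemma dv_neg (δ : ι × Bool) : dv (δ.1, !δ.2) = -dv δ := by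
  obtain ⟨i, b⟩ := δ
  cases b <;> simp [dv]

/-- The box of radius `n`. -/
noncomputable def boxF (ι : Type*) [Fintype ι] [DecidableEq ι] (n : ℕ) : Finset (ι → ℤ) :=
  Fintype.piFinset fun _ => Finset.Icc (-(n : ℤ)) n

lemma mem_boxF {n : ℕ} {z : ι → ℤ} : z ∈ boxF ι n ↔ ∀ i, |z i| ≤ n := by
  simp [boxF, Fintype.mem_piFinset, abs_le]

/-- The nearest neighbour graph on the box. -/
noncomputable def boxG (ι : Type*) [Fintype ι] [DecidableEq ι] (n : ℕ) : SimpleGraph (boxF ι n) :=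
  (gridG ι).comap Subtype.val

noncomputable instance (n : ℕ) : DecidableRel (boxG ι n).Adj := Classical.decRel _

/-- The faces of the box. -/
def face (ι : Type*) [Fintype ι] [DecidableEq ι] (n : ℕ) : Set (boxF ι n) :=
  {z | ∃ i, |z.1 i| = n}

/-- The underlying set of lattice points. -/
def im {n : ℕ} (S : Finset (boxF ι n)) : Finset (ι → ℤ) := S.image Subtype.val

lemma mem_im {n : ℕ} {S : Finset (boxF ι n)} {z : ι → ℤ} : z ∈ im S ↔ ∃ h : z ∈ boxF ι n,
    (⟨z, h⟩ : boxF ι n) ∈ S := by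
  simp [im]

lemma im_insert {n : ℕ} (S : Finset (boxF ι n)) (v : boxF ι n) :
    im (insert v S) = insert v.1 (im S) := by simp [im]

/-- Directed boundary of a set of lattice points. -/
def TT (S : Finset (ι → ℤ)) : Finset ((ι → ℤ) × (ι × Bool)) :=
  (S ×ˢ univ).filter fun p => p.1 + dv p.2 ∉ S

lemma mem_TT {S : Finset (ι → ℤ)} {p : (ι → ℤ) × (ι × Bool)} :
    p ∈ TT S ↔ p.1 ∈ S ∧ p.1 + dv p.2 ∉ S := by simp [TT]

lemma TT_injOn (S : Finset (ι → ℤ)) :
    Set.InjOn (fun p : (ι → ℤ) × (ι × Bool) => (p.1, p.1 + dv p.2)) (TT S : Set _) := by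
  rintro ⟨z, δ⟩ _ ⟨z', δ'⟩ _ h
  simp only [Prod.mk.injEq] at h
  obtain ⟨h1, h2⟩ := h
  subst h1
  rw [add_right_inj] at h2
  rw [dv_injective h2]

lemma sum_bd_le {n : ℕ} (S : Finset (boxF ι n)) (F : (ι → ℤ) → ℝ) (hF : ∀ z, 0 ≤ F z) :
    ∑ q ∈ bd (boxG ι n) S, F q.2.1 ≤ ∑ p ∈ TT (im S), F (p.1 + dv p.2) := by
  have h1 : ∑ q ∈ bd (boxG ι n) S, F q.2.1 =
      ∑ r ∈ (bd (boxG ι n) S).image (fun q => (q.1.1, q.2.1)), F r.2 := by
    rw [sum_image]
    rintro ⟨a, b⟩ _ ⟨a', b'⟩ _ h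
    simp only [Prod.mk.injEq] at h
    exact Prod.ext (Subtype.ext h.1) (Subtype.ext h.2)
  have h2 : ∑ p ∈ TT (im S), F (p.1 + dv p.2) =
      ∑ r ∈ (TT (im S)).image (fun p => (p.1, p.1 + dv p.2)), F r.2 := by
    rw [sum_image (TT_injOn _)]
  rw [h1, h2]
  refine sum_le_sum_of_subset_of_nonneg (fun r hr => ?_) fun r _ _ => hF _
  rw [mem_image] at hr ⊢
  obtain ⟨q, hq, rfl⟩ := hr
  rw [mem_bd] at hq
  obtain ⟨h3, h4, h5⟩ := hq
  have h6 : (gridG ι).Adj q.1.1 q.2.1 := h5
  rw [grid_adj_iff] at h6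
  obtain ⟨δ, hδ⟩ := h6
  refine ⟨(q.1.1, δ), mem_TT.mpr ⟨mem_im.mpr ⟨q.1.2, h3⟩, ?_⟩, by simp [hδ]⟩
  rw [← hδ]
  intro h
  obtain ⟨_, h⟩ := mem_im.mp h
  exact h4 h

lemma le_sum_bd {n : ℕ} (S : Finset (boxF ι n)) (hS : Disjoint (S : Set (boxF ι n)) (face ι n))
    (F : (ι → ℤ) → ℝ) (hF : ∀ q ∈ bd (boxG ι n) S, 0 ≤ F q.2.1) :
    ∑ p ∈ TT (im S), F (p.1 + dv p.2) ≤ ∑ q ∈ bd (boxG ι n) S, F q.2.1 := by
  have h1 : ∑ q ∈ bd (boxG ι n) S, F q.2.1 =
      ∑ r ∈ (bd (boxG ι n) S).image (fun q => (q.1.1, q.2.1)), F r.2 := by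
    rw [sum_image]
    rintro ⟨a, b⟩ _ ⟨a', b'⟩ _ h
    simp only [Prod.mk.injEq] at h
    exact Prod.ext (Subtype.ext h.1) (Subtype.ext h.2)
  have h2 : ∑ p ∈ TT (im S), F (p.1 + dv p.2) =
      ∑ r ∈ (TT (im S)).image (fun p => (p.1, p.1 + dv p.2)), F r.2 := by
    rw [sum_image (TT_injOn _)]
  rw [h1, h2]
  refine sum_le_sum_of_subset_of_nonneg (fun r hr => ?_) fun r hr _ => ?_
  · rw [mem_image] at hr ⊢
    obtain ⟨p, hp, rfl⟩ := hr
    rw [mem_TT] at hp
    obtain ⟨h3, h4⟩ := hp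
    obtain ⟨h5, h6⟩ := mem_im.mp h3
    have h7 : p.1 + dv p.2 ∈ boxF ι n := by
      rw [mem_boxF]
      intro i
      have h8 : |p.1 i| ≤ n := mem_boxF.mp h5 i
      have h9 : |p.1 i| ≠ n := by
        intro h
        exact Set.disjoint_left.mp hS (Finset.mem_coe.mpr h6) ⟨i, h⟩
      have h10 : |dv p.2 i| ≤ 1 := by
        rw [← sum_abs_dv p.2]
        exact single_le_sum (f := fun i => |dv p.2 i|) (fun j _ => abs_nonneg _) (mem_univ i)
      have h11 := abs_add_le (p.1 i) (dv p.2 i)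
      have h12 : |p.1 i| ≤ n - 1 := by omega
      simp only [Pi.add_apply]
      omega
    refine ⟨(⟨p.1, h5⟩, ⟨p.1 + dv p.2, h7⟩), mem_bd.mpr ⟨h6, fun h => h4 (mem_im.mpr ⟨h7, h⟩), ?_⟩,
      rfl⟩
    exact grid_adj_iff.mpr ⟨p.2, rfl⟩
  · obtain ⟨q, hq, rfl⟩ := mem_image.mp hr
    exact hF q hq

section layers

variable {D : ℕ}

/-- The layer `k` of a set of lattice points. -/
def lay (S : Finset (Fin (D + 1) → ℤ)) (k : ℤ) : Finset (Fin (D + 1) → ℤ) :=
  S.filter fun z => z 0 = k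

lemma mem_lay {S : Finset (Fin (D + 1) → ℤ)} {k : ℤ} {z : Fin (D + 1) → ℤ} :
    z ∈ lay S k ↔ z ∈ S ∧ z 0 = k := by simp [lay]

/-- Boundary edges entering layer `k`. -/
def cc (S : Finset (Fin (D + 1) → ℤ)) (k : ℤ) : ℕ :=
  ((TT S).filter fun p => (p.1 + dv p.2) 0 = k).card

lemma cc_eq (S : Finset (Fin (D + 1) → ℤ)) (k : ℤ) :
    cc S k = ∑ δ : Fin (D + 1) × Bool,
      (S.filter fun z => z + dv δ ∉ S ∧ (z + dv δ) 0 = k).card := by
  unfold cc
  have h1 : ((TT S).filter fun p => (p.1 + dv p.2) 0 = k) =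
      (univ : Finset (Fin (D + 1) × Bool)).biUnion fun δ =>
        (S.filter fun z => z + dv δ ∉ S ∧ (z + dv δ) 0 = k).image fun z => (z, δ) := by
    ext ⟨z, δ⟩
    simp only [mem_filter, mem_TT, mem_biUnion, mem_univ, true_and, mem_image, Prod.mk.injEq]
    constructor
    · rintro ⟨⟨h1, h2⟩, h3⟩
      exact ⟨δ, z, ⟨h1, h2, h3⟩, rfl, rfl⟩
    · rintro ⟨δ', z', ⟨h1, h2, h3⟩, rfl, rfl⟩
      exact ⟨⟨h1, h2⟩, h3⟩
  rw [h1, card_biUnion]
  · refine sum_congr rfl fun δ _ => ?_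
    rw [card_image_of_injective]
    intro z z' h
    exact (Prod.mk.inj h).1
  · intro δ _ δ' _ hne
    rw [Function.onFun, disjoint_left]
    rintro ⟨z, δ''⟩ h h'
    rw [mem_image] at h h'
    obtain ⟨_, _, h2⟩ := h
    obtain ⟨_, _, h3⟩ := h'
    exact hne ((Prod.mk.inj h2).2.trans (Prod.mk.inj h3).2.symm)

lemma card_lay_plus (S : Finset (Fin (D + 1) → ℤ)) (k : ℤ) (i : Fin D) :
    (S.filter fun z => z + dv (i.succ, true) ∉ S ∧ (z + dv (i.succ, true)) 0 = k).card +
      NN (lay S k) i.succ = (lay S k).card := by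
  have h1 : (S.filter fun z => z + dv (i.succ, true) ∉ S ∧ (z + dv (i.succ, true)) 0 = k) =
      (lay S k).filter fun z => ¬ (z + uv i.succ ∈ lay S k) := by
    ext z
    have h0 : (z + uv i.succ) 0 = z 0 := by simp [Pi.single_apply, (Fin.succ_ne_zero i).symm]
    simp only [mem_filter, mem_lay, dv, if_true]
    rw [h0]
    tauto
  rw [h1, add_comm]
  exact card_filter_add_card_filter_not _

lemma NN_minus {ι : Type*} [Fintype ι] [DecidableEq ι] (S : Finset (ι → ℤ)) (i : ι) :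
    (S.filter fun z => z - uv i ∈ S).card = NN S i := by
  unfold NN
  refine card_bij' (fun z _ => z - uv i) (fun z _ => z + uv i) ?_ ?_ ?_ ?_
  · intro z hz
    rw [mem_filter] at hz ⊢
    exact ⟨hz.2, by simpa using hz.1⟩
  · intro z hz
    rw [mem_filter] at hz ⊢
    exact ⟨hz.2, by simpa using hz.1⟩
  · intro z _; simp
  · intro z _; simp

lemma card_lay_minus (S : Finset (Fin (D + 1) → ℤ)) (k : ℤ) (i : Fin D) :
    (S.filter fun z => z + dv (i.succ, false) ∉ S ∧ (z + dv (i.succ, false)) 0 = k).card +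
      NN (lay S k) i.succ = (lay S k).card := by
  have h1 : (S.filter fun z => z + dv (i.succ, false) ∉ S ∧ (z + dv (i.succ, false)) 0 = k) =
      (lay S k).filter fun z => ¬ (z - uv i.succ ∈ lay S k) := by
    ext z
    have h0 : (z - uv i.succ) 0 = z 0 := by simp [Pi.single_apply, (Fin.succ_ne_zero i).symm]
    simp only [mem_filter, mem_lay, dv, if_false, Bool.false_eq_true, ← sub_eq_add_neg]
    rw [h0]
    tauto
  rw [h1, ← NN_minus, add_comm]
  exact card_filter_add_card_filter_not _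

lemma card_lay_up (S : Finset (Fin (D + 1) → ℤ)) (k : ℤ) :
    (lay S (k - 1)).card ≤
      (S.filter fun z => z + dv ((0 : Fin (D + 1)), true) ∉ S ∧ (z + dv ((0 : Fin (D + 1)), true)) 0 = k).card +
      (lay S k).card := by
  have h1 : (S.filter fun z => z + dv ((0 : Fin (D + 1)), true) ∉ S ∧ (z + dv ((0 : Fin (D + 1)), true)) 0 = k) =
      (lay S (k - 1)).filter fun z => ¬ (z + uv 0 ∈ S) := by
    ext z
    simp only [mem_filter, mem_lay, dv, if_true, Pi.add_apply, Pi.single_eq_same]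
    have : z 0 + 1 = k ↔ z 0 = k - 1 := by omega
    rw [this]
    tauto
  rw [h1]
  have h2 := card_filter_add_card_filter_not (s := lay S (k - 1)) (fun z => z + uv 0 ∈ S)
  have h3 : ((lay S (k - 1)).filter fun z => z + uv 0 ∈ S).card ≤ (lay S k).card := by
    refine card_le_card_of_injOn (fun z => z + uv 0) (fun z hz => ?_)
      (fun _ _ _ _ h => add_right_cancel h)
    rw [mem_coe, mem_filter, mem_lay] at hz
    rw [mem_coe, mem_lay]
    refine ⟨hz.2, ?_⟩
    simp only [Pi.add_apply, Pi.single_eq_same]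
    omega
  omega

lemma card_lay_down (S : Finset (Fin (D + 1) → ℤ)) (k : ℤ) :
    (lay S (k + 1)).card ≤
      (S.filter fun z => z + dv ((0 : Fin (D + 1)), false) ∉ S ∧ (z + dv ((0 : Fin (D + 1)), false)) 0 = k).card +
      (lay S k).card := by
  have h1 : (S.filter fun z => z + dv ((0 : Fin (D + 1)), false) ∉ S ∧ (z + dv ((0 : Fin (D + 1)), false)) 0 = k) =
      (lay S (k + 1)).filter fun z => ¬ (z - uv 0 ∈ S) := by
    ext z
    simp only [mem_filter, mem_lay, dv, if_false, Bool.false_eq_true, ← sub_eq_add_neg,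
      Pi.sub_apply, Pi.single_eq_same]
    have : z 0 - 1 = k ↔ z 0 = k + 1 := by omega
    rw [this]
    tauto
  rw [h1]
  have h2 := card_filter_add_card_filter_not (s := lay S (k + 1)) (fun z => z - uv 0 ∈ S)
  have h3 : ((lay S (k + 1)).filter fun z => z - uv 0 ∈ S).card ≤ (lay S k).card := by
    refine card_le_card_of_injOn (fun z => z - uv 0) (fun z hz => ?_)
      (fun _ _ _ _ h => sub_left_injective h)
    rw [mem_coe, mem_filter, mem_lay] at hz
    rw [mem_coe, mem_lay]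
    refine ⟨hz.2, ?_⟩
    simp only [Pi.sub_apply, Pi.single_eq_same]
    omega
  omega

/-- Lower bound for the number of boundary edges entering a layer. -/
theorem cc_ge (S : Finset (Fin (D + 1) → ℤ)) (k : ℤ) :
    2 * D * (lay S k).card + ((lay S (k - 1)).card - (lay S k).card) +
      ((lay S (k + 1)).card - (lay S k).card) ≤ cc S k + 2 * eE (lay S k).card := by
  have h1 : cc S k = (S.filter fun z => z + dv ((0 : Fin (D + 1)), true) ∉ S ∧ (z + dv ((0 : Fin (D + 1)), true)) 0 = k).card +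
      (S.filter fun z => z + dv ((0 : Fin (D + 1)), false) ∉ S ∧ (z + dv ((0 : Fin (D + 1)), false)) 0 = k).card +
      ∑ i : Fin D, ((S.filter fun z => z + dv (i.succ, true) ∉ S ∧
        (z + dv (i.succ, true)) 0 = k).card +
        (S.filter fun z => z + dv (i.succ, false) ∉ S ∧ (z + dv (i.succ, false)) 0 = k).card) := by
    rw [cc_eq, Fintype.sum_prod_type, Fin.sum_univ_succ]
    simp only [Fintype.sum_bool]
  have h2 : ∑ i : Fin D, ((S.filter fun z => z + dv (i.succ, true) ∉ S ∧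
        (z + dv (i.succ, true)) 0 = k).card +
        (S.filter fun z => z + dv (i.succ, false) ∉ S ∧ (z + dv (i.succ, false)) 0 = k).card) +
      2 * ∑ i : Fin D, NN (lay S k) i.succ = 2 * D * (lay S k).card := by
    rw [mul_sum, ← sum_add_distrib]
    have : ∀ i ∈ (univ : Finset (Fin D)), ((S.filter fun z => z + dv (i.succ, true) ∉ S ∧
        (z + dv (i.succ, true)) 0 = k).card +
        (S.filter fun z => z + dv (i.succ, false) ∉ S ∧ (z + dv (i.succ, false)) 0 = k).card) +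
        2 * NN (lay S k) i.succ = 2 * (lay S k).card := by
      intro i _
      have := card_lay_plus S k i
      have := card_lay_minus S k i
      omega
    rw [sum_congr rfl this, sum_const, card_univ, Fintype.card_fin, smul_eq_mul]
    ring
  have h3 : ∑ i : Fin D, NN (lay S k) i.succ ≤ eE (lay S k).card := by
    have := iso ((univ : Finset (Fin D)).map (Fin.succEmb D)) (lay S k)
    rw [sum_map] at this
    simpa using this
  have h4 := card_lay_up S k
  have h5 := card_lay_down S k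
  omega

end layers

end Pool.Agent.Lib.MP_edae2b_pr
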