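import Mathlib

/-!
# The edge isoperimetric inequality in `ℤ^ι`
-/

namespace Pool.Agent.Lib.MP_edae2b_pr

open Finset

/-- Binary digit sum with fuel. -/
def pcf : ℕ → ℕ → ℕ
  | 0, _ => 0
  | f + 1, n => n % 2 + pcf f (n / 2)

lemma pcf_zero (f : ℕ) : pcf f 0 = 0 := by
  induction f with
  | zero => rfl
  | succ f ih => simp [pcf, ih]

lemma pcf_eq (f g n : ℕ) (hf : n < 2 ^ f) (hg : n < 2 ^ g) : pcf f n = pcf g n := by
  induction f generalizing g n with
  | zero =>
    have : n = 0 := by simpa using hf
    rw [this, pcf_zero, pcf_zero]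
  | succ f ih =>
    cases g with
    | zero =>
      have : n = 0 := by simpa using hg
      rw [this, pcf_zero, pcf_zero]
    | succ g =>
      simp only [pcf]
      rw [ih g (n / 2) (by rw [pow_succ] at hf; omega) (by rw [pow_succ] at hg; omega)]

/-- Binary digit sum. -/
def pcount (n : ℕ) : ℕ := pcf n n

lemma pcount_eq {f n : ℕ} (h : n < 2 ^ f) : pcount n = pcf f n :=
  pcf_eq _ _ _ n.lt_two_pow_self h

lemma pcount_two_mul (n : ℕ) : pcount (2 * n) = pcount n := by
  rw [pcount_eq (f := 2 * n + 1) (n := 2 * n) (by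
    calc 2 * n < 2 ^ (2 * n) := Nat.lt_two_pow_self
      _ ≤ 2 ^ (2 * n + 1) := Nat.pow_le_pow_right (by norm_num) (by omega))]
  simp only [pcf]
  rw [show 2 * n / 2 = n by omega, show 2 * n % 2 = 0 by omega, zero_add]
  exact (pcount_eq (by
    calc n < 2 ^ n := Nat.lt_two_pow_self
      _ ≤ 2 ^ (2 * n) := Nat.pow_le_pow_right (by norm_num) (by omega))).symm

lemma pcount_two_mul_add_one (n : ℕ) : pcount (2 * n + 1) = pcount n + 1 := by
  rw [pcount_eq (f := 2 * n + 1 + 1) (n := 2 * n + 1) (by
    calc 2 * n + 1 < 2 ^ (2 * n + 1) := Nat.lt_two_pow_self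
      _ ≤ 2 ^ (2 * n + 1 + 1) := Nat.pow_le_pow_right (by norm_num) (by omega))]
  have h1 : pcf (2 * n + 1 + 1) (2 * n + 1) = (2 * n + 1) % 2 + pcf (2 * n + 1) ((2 * n + 1) / 2) :=
    rfl
  rw [h1, show (2 * n + 1) / 2 = n by omega, show (2 * n + 1) % 2 = 1 by omega, add_comm]
  congr 1
  exact (pcount_eq (by
    calc n < 2 ^ n := Nat.lt_two_pow_self
      _ ≤ 2 ^ (2 * n + 1) := Nat.pow_le_pow_right (by norm_num) (by omega))).symm

/-- The maximal number of edges spanned by `n` vertices. -/
def eE (n : ℕ) : ℕ := ∑ i ∈ range n, pcount i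

lemma eE_succ (n : ℕ) : eE (n + 1) = eE n + pcount n := by simp [eE, sum_range_succ]

lemma eE_two_mul (n : ℕ) : eE (2 * n) = 2 * eE n + n := by
  induction n with
  | zero => simp [eE]
  | succ n ih =>
    rw [show 2 * (n + 1) = 2 * n + 1 + 1 by ring, eE_succ, eE_succ, ih, eE_succ,
      pcount_two_mul, pcount_two_mul_add_one]
    ring

lemma eE_two_mul_add_one (n : ℕ) : eE (2 * n + 1) = eE n + eE (n + 1) + n := by
  rw [eE_succ, eE_two_mul, eE_succ, pcount_two_mul]
  ring

lemma eE_zero : eE 0 = 0 := by simp [eE]

lemma eE_one : eE 1 = 0 := by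
  rw [show (1 : ℕ) = 0 + 1 from rfl, eE_succ, eE_zero]
  rfl

lemma eE_super (a b : ℕ) : eE a + eE b + min a b ≤ eE (a + b) := by
  have main : ∀ s a b : ℕ, a + b = s → eE a + eE b + min a b ≤ eE (a + b) := by
    intro s
    induction s using Nat.strong_induction_on with
    | _ s ih =>
      intro a b hab
      rcases Nat.eq_zero_or_pos a with rfl | ha
      · simp [eE_zero]
      rcases Nat.eq_zero_or_pos b with rfl | hb
      · simp [eE_zero]
      rcases Nat.even_or_odd' a with ⟨a', ha' | ha'⟩ <;>
        rcases Nat.even_or_odd' b with ⟨b', hb' | hb'⟩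
      · subst ha' hb'
        have h1 := ih (a' + b') (by omega) a' b' rfl
        rw [eE_two_mul, eE_two_mul, show 2 * a' + 2 * b' = 2 * (a' + b') by ring, eE_two_mul]
        omega
      · subst ha' hb'
        have h1 := ih (a' + b') (by omega) a' b' rfl
        have h2 := ih (a' + (b' + 1)) (by omega) a' (b' + 1) rfl
        rw [eE_two_mul, eE_two_mul_add_one, show 2 * a' + (2 * b' + 1) = 2 * (a' + b') + 1 by ring,
          eE_two_mul_add_one]
        rw [show a' + (b' + 1) = a' + b' + 1 by ring] at h2
        omega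
      · subst ha' hb'
        have h1 := ih (a' + b') (by omega) a' b' rfl
        have h2 := ih (a' + 1 + b') (by omega) (a' + 1) b' rfl
        rw [eE_two_mul, eE_two_mul_add_one, show 2 * a' + 1 + 2 * b' = 2 * (a' + b') + 1 by ring,
          eE_two_mul_add_one]
        rw [show a' + 1 + b' = a' + b' + 1 by ring] at h2
        omega
      · subst ha' hb'
        rw [eE_two_mul_add_one, eE_two_mul_add_one,
          show 2 * a' + 1 + (2 * b' + 1) = 2 * (a' + b' + 1) by ring, eE_two_mul]
        rcases Nat.eq_zero_or_pos (a' + b') with h0 | h0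
        · have ha0 : a' = 0 := by omega
          have hb0 : b' = 0 := by omega
          subst ha0 hb0
          simp [eE_zero, eE_one]
        · have h1 := ih (a' + (b' + 1)) (by omega) a' (b' + 1) rfl
          have h2 := ih (a' + 1 + b') (by omega) (a' + 1) b' rfl
          rw [show a' + (b' + 1) = a' + b' + 1 by ring] at h1
          rw [show a' + 1 + b' = a' + b' + 1 by ring] at h2
          omega
  exact main _ a b rfl

lemma eE_mono {a b : ℕ} (h : a ≤ b) : eE a ≤ eE b := by
  obtain ⟨c, rfl⟩ := Nat.exists_eq_add_of_le h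
  have := eE_super a c
  omega

variable {ι : Type*} [Fintype ι] [DecidableEq ι]

/-- The unit vector. -/
abbrev uv (i : ι) : ι → ℤ := Pi.single i 1

/-- The number of pairs `u, u + e_i` in `S`. -/
def NN (S : Finset (ι → ℤ)) (i : ι) : ℕ := (S.filter fun u => u + uv i ∈ S).card

lemma NN_split (S : Finset (ι → ℤ)) (i j : ι) (c : ℤ) :
    NN S j ≤ NN (S.filter fun u => u i ≤ c) j + NN (S.filter fun u => ¬ u i ≤ c) j +
      if j = i then min (S.filter fun u => u i ≤ c).card (S.filter fun u => ¬ u i ≤ c).card
      else 0 := by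
  set S1 := S.filter fun u => u i ≤ c with hS1
  set S2 := S.filter fun u => ¬ u i ≤ c with hS2
  have hsub : (S.filter fun u => u + uv j ∈ S) ⊆
      (S1.filter fun u => u + uv j ∈ S1) ∪ (S2.filter fun u => u + uv j ∈ S2) ∪
        (if j = i then S.filter fun u => u ∈ S1 ∧ u + uv j ∈ S2 else ∅) := by
    intro u hu
    rw [mem_filter] at hu
    obtain ⟨hu, hu'⟩ := hu
    rw [mem_union, mem_union]
    by_cases h1 : u i ≤ c
    · have hu1 : u ∈ S1 := mem_filter.mpr ⟨hu, h1⟩
      by_cases h2 : (u + uv j) i ≤ c
      · left; left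
        exact mem_filter.mpr ⟨hu1, mem_filter.mpr ⟨hu', h2⟩⟩
      · right
        have hji : j = i := by
          by_contra hne
          apply h2
          simp only [Pi.add_apply, Pi.single_apply]
          rw [if_neg (fun h => hne h.symm)]
          simpa using h1
        rw [if_pos hji]
        exact mem_filter.mpr ⟨hu, hu1, mem_filter.mpr ⟨hu', h2⟩⟩
    · left; right
      refine mem_filter.mpr ⟨mem_filter.mpr ⟨hu, h1⟩, mem_filter.mpr ⟨hu', ?_⟩⟩
      intro h2
      apply h1
      simp only [Pi.add_apply, Pi.single_apply] at h2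
      split_ifs at h2 <;> omega
  have hcard := card_le_card hsub
  unfold NN
  refine hcard.trans ?_
  refine (card_union_le _ _).trans ?_
  refine add_le_add (card_union_le _ _) ?_
  split_ifs with hji
  · refine le_min ?_ ?_
    · refine card_le_card fun u hu => ?_
      exact (mem_filter.mp hu).2.1
    · refine card_le_card_of_injOn (fun u => u + uv j) (fun u hu => ?_) (fun u _ v _ h => ?_)
      · exact (mem_filter.mp hu).2.2
      · exact add_right_cancel h
  · simp

/-- The edge isoperimetric inequality. -/
theorem iso (I : Finset ι) (S : Finset (ι → ℤ)) : ∑ i ∈ I, NN S i ≤ eE S.card := by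
  have main : ∀ n, ∀ S : Finset (ι → ℤ), S.card = n → ∑ i ∈ I, NN S i ≤ eE S.card := by
    intro n
    induction n using Nat.strong_induction_on with
    | _ n ih =>
      intro S hS
      by_cases h : ∃ x ∈ S, ∃ y ∈ S, ∃ i, x i < y i
      · obtain ⟨x, hx, y, hy, i, hxy⟩ := h
        set S1 := S.filter fun u => u i ≤ x i with hS1
        set S2 := S.filter fun u => ¬ u i ≤ x i with hS2
        have hcard : S1.card + S2.card = S.card :=
          card_filter_add_card_filter_not _
        have hx1 : 0 < S1.card := card_pos.mpr ⟨x, mem_filter.mpr ⟨hx, le_rfl⟩⟩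
        have hy1 : 0 < S2.card := card_pos.mpr ⟨y, mem_filter.mpr ⟨hy, by omega⟩⟩
        have h1 := ih S1.card (by omega) S1 rfl
        have h2 := ih S2.card (by omega) S2 rfl
        have h3 : ∑ j ∈ I, NN S j ≤ ∑ j ∈ I, NN S1 j + ∑ j ∈ I, NN S2 j +
            min S1.card S2.card := by
          calc ∑ j ∈ I, NN S j ≤ ∑ j ∈ I, (NN S1 j + NN S2 j +
                if j = i then min S1.card S2.card else 0) :=
                sum_le_sum fun j _ => NN_split S i j (x i)
            _ = ∑ j ∈ I, NN S1 j + ∑ j ∈ I, NN S2 j +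
                ∑ j ∈ I, (if j = i then min S1.card S2.card else 0) := by
                rw [sum_add_distrib, sum_add_distrib]
            _ ≤ _ := by
                refine Nat.add_le_add_left ?_ _
                rw [sum_ite_eq']
                split_ifs
                · exact le_rfl
                · exact Nat.zero_le _
        have h4 := eE_super S1.card S2.card
        rw [hcard] at h4
        omega
      · push Not at h
        have h0 : ∀ i ∈ I, NN S i = 0 := by
          intro i _
          unfold NN
          rw [card_eq_zero, filter_eq_empty_iff]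
          intro u hu hu'
          have := h u hu (u + uv i) hu' i
          simp at this
        rw [sum_eq_zero h0]
        exact Nat.zero_le _
  exact main _ S rfl

end Pool.Agent.Lib.MP_edae2b_pr
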