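import Pool.Agent.Lib.MP_edae2b_pr.Transfer

/-!
# Lower bound for the time constant in the diagonal direction
-/

namespace Pool.Agent.Lib.MP_edae2b_pr

open MeasureTheory ProbabilityTheory Filter Topology
open scoped ENNReal

variable {ι : Type*} [Fintype ι] [DecidableEq ι]

lemma mem_boxF_of_le {y : ι → ℤ} {m : ℕ} (h : (∑ i, |y i|).toNat ≤ m) : y ∈ boxF ι m := by
  rw [mem_boxF]
  intro i
  have h1 : |y i| ≤ ∑ i, |y i| :=
    Finset.single_le_sum (f := fun i => |y i|) (fun j _ => abs_nonneg _) (Finset.mem_univ i)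
  omega

lemma zero_mem_boxF (m : ℕ) : (0 : ι → ℤ) ∈ boxF ι m := by
  rw [mem_boxF]; simp

lemma box_walk {x y : ι → ℤ} (p : (gridG ι).Walk x y) :
    ∃ m0 : ℕ, ∀ m, m0 ≤ m → ∀ (hx : x ∈ boxF ι m) (hy : y ∈ boxF ι m),
      ∃ q : (boxG ι m).Walk ⟨x, hx⟩ ⟨y, hy⟩, q.edges.map (Sym2.map Subtype.val) = p.edges := by
  induction p with
  | nil => exact ⟨0, fun m _ hx hy => ⟨SimpleGraph.Walk.nil, by simp⟩⟩
  | cons h p ih =>
    rename_i x y z
    obtain ⟨m0, hm0⟩ := ih
    refine ⟨max m0 (∑ i, |y i|).toNat, fun m hm hx hz => ?_⟩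
    have hy : y ∈ boxF ι m := mem_boxF_of_le ((le_max_right _ _).trans hm)
    obtain ⟨q, hq⟩ := hm0 m ((le_max_left _ _).trans hm) hy hz
    have hadj : (boxG ι m).Adj ⟨x, hx⟩ ⟨y, hy⟩ := h
    refine ⟨SimpleGraph.Walk.cons hadj q, ?_⟩
    rw [SimpleGraph.Walk.edges_cons, SimpleGraph.Walk.edges_cons, List.map_cons, hq]
    simp

lemma grid_reachable (x y : ι → ℤ) :
    ∃ p : (gridG ι).Walk x y, (p.length : ℤ) ≤ ∑ i, |y i - x i| := by
  have main : ∀ N : ℕ, ∀ x : ι → ℤ, ∑ i, |y i - x i| = N →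
      ∃ p : (gridG ι).Walk x y, p.length = N := by
    intro N
    induction N with
    | zero =>
      intro x hx
      have h1 : ∀ i, y i = x i := by
        have : ∑ i, |y i - x i| = 0 := by simpa using hx
        rw [Finset.sum_eq_zero_iff_of_nonneg fun j _ => abs_nonneg _] at this
        intro i
        have h2 := this i (Finset.mem_univ i)
        rw [abs_eq_zero] at h2
        omega
      have h2 : x = y := funext fun i => (h1 i).symm
      subst h2
      exact ⟨SimpleGraph.Walk.nil, rfl⟩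
    | succ N ih =>
      intro x hx
      obtain ⟨i, hi⟩ : ∃ i, y i - x i ≠ 0 := by
        by_contra hcon
        push Not at hcon
        simp [hcon] at hx
        omega
      obtain ⟨b, hb⟩ : ∃ b : Bool, |y i - (x + dv (i, b)) i| = |y i - x i| - 1 := by
        rcases lt_or_gt_of_ne hi with h | h
        · refine ⟨false, ?_⟩
          simp only [Pi.add_apply, dv_self, Bool.false_eq_true, if_false]
          rw [abs_of_neg h, abs_of_nonpos (by omega)]
          ring
        · refine ⟨true, ?_⟩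
          simp only [Pi.add_apply, dv_self, if_true]
          rw [abs_of_pos h, abs_of_nonneg (by omega)]
          ring
      have h1 : ∑ j, |y j - (x + dv (i, b)) j| = N := by
        have h2 : ∑ j, |y j - (x + dv (i, b)) j| = ∑ j, (|y j - x j| - if j = i then 1 else 0) := by
          refine Finset.sum_congr rfl fun j _ => ?_
          by_cases hj : j = i
          · subst hj
            rw [hb, if_pos rfl]
          · rw [if_neg hj, sub_zero, Pi.add_apply, dv_other i j b (fun h => hj h.symm), add_zero]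
        rw [h2, Finset.sum_sub_distrib, Finset.sum_ite_eq' Finset.univ i]
        simp only [Finset.mem_univ, if_true]
        rw [hx]
        push_cast
        ring
      obtain ⟨p, hp⟩ := ih _ h1
      refine ⟨SimpleGraph.Walk.cons (grid_adj_iff.mpr ⟨(i, b), rfl⟩) p, ?_⟩
      rw [SimpleGraph.Walk.length_cons, hp]
  have h0 : 0 ≤ ∑ i, |y i - x i| := Finset.sum_nonneg fun i _ => abs_nonneg _
  obtain ⟨p, hp⟩ := main (∑ i, |y i - x i|).toNat x (by omega)
  exact ⟨p, by omega⟩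

lemma grid_nonempty_walk (x y : ι → ℤ) : Nonempty ((gridG ι).Walk x y) :=
  ⟨(grid_reachable x y).choose⟩

lemma pt_lt_of_Tz_lt {c : Sym2 (ι → ℤ) → ℝ} (hc : ∀ e, 0 ≤ c e) {y : ι → ℤ} {r : ℝ} (hr : 0 < r)
    (h : Tz (gridG ι) c 0 y < r) :
    ∃ m0 : ℕ, ∀ m, m0 ≤ m → ∀ hy : y ∈ boxF ι m,
      pt (boxG ι m) {⟨y, hy⟩} ({⟨0, zero_mem_boxF m⟩} : Set (boxF ι m))
        (cw fun e => c (e.map Subtype.val)) < ENNReal.ofReal r := by
  obtain ⟨p, hp⟩ := exists_walk_of_Tz_lt (grid_nonempty_walk _ _) h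
  obtain ⟨m0, hm0⟩ := box_walk p
  refine ⟨m0, fun m hm hy => ?_⟩
  obtain ⟨q, hq⟩ := hm0 m hm (zero_mem_boxF m) hy
  refine (pt_le (Set.mem_singleton _) (Set.mem_singleton _) q).trans_lt ?_
  rw [ofReal_cost (fun e => hc _)]
  refine (ENNReal.ofReal_lt_ofReal_iff hr).mpr ?_
  have : (q.edges.map fun e => c (e.map Subtype.val)) = p.edges.map c := by
    rw [← hq, List.map_map]
    rfl
  rw [this]
  exact hp

variable {Ω : Type*} [MeasurableSpace Ω] {P : Measure Ω} [IsProbabilityMeasure P]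
  {ω : Sym2 (ι → ℤ) → Ω → ℝ}

/-- Tail bound for the passage time to a point. -/
theorem tail_bound (hind : iIndepFun ω P) (hlaw : ∀ e, Measurable (ω e) ∧ P.map (ω e) = ex)
    {θ lam τ : ℝ} (hθ : 0 ≤ θ) (hlam : 0 < lam)
    (hl : 2 * Fintype.card ι * Real.cosh θ - 1 - Real.exp (-θ) ≤ lam) (hτ : 0 < τ)
    (y : ι → ℤ) :
    P {t | Tz (gridG ι) (fun e => ω e t) 0 y < τ} ≤
      ENNReal.ofReal (Real.exp (lam * τ) * ((1 + (1 + Real.exp (-θ)) / lam) * psi θ y 0)) := by
  set b : ℝ≥0∞ := ENNReal.ofReal (Real.exp (lam * τ) * ((1 + (1 + Real.exp (-θ)) / lam) * psi θ y 0))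
    with hb
  set m1 := (∑ i, |y i|).toNat with hm1
  have hy : ∀ k, y ∈ boxF ι (m1 + k) := fun k => mem_boxF_of_le (by omega)
  let E : ℕ → Set Ω := fun k => {t | pt (boxG ι (m1 + k)) {⟨y, hy k⟩}
    ({⟨0, zero_mem_boxF _⟩} : Set (boxF ι (m1 + k))) (cw fun e => ω (e.map Subtype.val) t) <
      ENNReal.ofReal τ}
  have hE : ∀ k, P (E k) ≤ b := by
    intro k
    have hmap := law_map hind hlaw (fun z : boxF ι (m1 + k) => z.1) Subtype.val_injective
    have hmeasA : MeasurableSet {w : Sym2 (boxF ι (m1 + k)) → ℝ |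
        pt (boxG ι (m1 + k)) {⟨y, hy k⟩} ({⟨0, zero_mem_boxF _⟩} : Set (boxF ι (m1 + k))) (cw w) <
          ENNReal.ofReal τ} :=
      measurableSet_lt (measurable_pt (X := fun e w => cw w e) measurable_cw _ _) measurable_const
    have hmeasX : Measurable (fun t => fun e : Sym2 (boxF ι (m1 + k)) =>
        ω (e.map (fun z : boxF ι (m1 + k) => z.1)) t) :=
      measurable_pi_lambda _ fun e => (hlaw _).1
    have h1 : P (E k) = pex (Sym2 (boxF ι (m1 + k))) {w | pt (boxG ι (m1 + k)) {⟨y, hy k⟩}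
        ({⟨0, zero_mem_boxF _⟩} : Set (boxF ι (m1 + k))) (cw w) < ENNReal.ofReal τ} := by
      rw [← hmap, Measure.map_apply hmeasX hmeasA]
      rfl
    rw [h1]
    have h2 := measure_pt_lt_le (G := boxG ι (m1 + k)) (A := {⟨y, hy k⟩})
      (S := ({⟨0, zero_mem_boxF _⟩} : Finset (boxF ι (m1 + k)))) hlam.le hτ.le
    rw [Finset.coe_singleton] at h2
    refine h2.trans ?_
    have h3 := LT_box_le (n := m1 + k) hθ hlam hl ⟨0, zero_mem_boxF _⟩ ⟨y, hy k⟩
    rw [hb, ENNReal.ofReal_mul (Real.exp_pos _).le]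
    gcongr
    have hfin : LT (boxG ι (m1 + k)) lam {⟨y, hy k⟩} {⟨0, zero_mem_boxF _⟩} ≠ ∞ :=
      ne_top_of_le_ne_top ENNReal.one_ne_top (LT_le_one hlam.le _ _)
    rw [← ENNReal.ofReal_toReal hfin]
    exact ENNReal.ofReal_le_ofReal h3
  let F : ℕ → Set Ω := fun K => ⋂ k ∈ Set.Ici K, E k
  have hF : Monotone F := by
    intro K K' hKK' t ht
    simp only [F, Set.mem_iInter, Set.mem_Ici] at ht ⊢
    exact fun k hk => ht k (hKK'.trans hk)
  have hsub : {t | Tz (gridG ι) (fun e => ω e t) 0 y < τ} ≤ᵐ[P] (⋃ K, F K : Set Ω) := by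
    filter_upwards [weights_nonneg hlaw] with t ht hT
    obtain ⟨m0, hm0⟩ := pt_lt_of_Tz_lt ht hτ hT
    refine Set.mem_iUnion.mpr ⟨m0, ?_⟩
    simp only [F, Set.mem_iInter, Set.mem_Ici]
    intro k hk
    exact hm0 (m1 + k) (by omega) (hy k)
  refine (measure_mono_ae hsub).trans ?_
  rw [hF.measure_iUnion]
  refine iSup_le fun K => (measure_mono ?_).trans (hE K)
  intro t ht
  simp only [F, Set.mem_iInter, Set.mem_Ici] at ht
  exact ht K le_rfl

/-- Lower bound for the time constant in the diagonal direction. -/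
theorem diag_lower [Nonempty ι] (hind : iIndepFun ω P)
    (hlaw : ∀ e, Measurable (ω e) ∧ P.map (ω e) = ex)
    {θ lam s L : ℝ} (hθ : 0 ≤ θ) (hlam : 0 < lam)
    (hl : 2 * Fintype.card ι * Real.cosh θ - 1 - Real.exp (-θ) ≤ lam) (hs : 0 < s)
    (hsl : lam * s < θ * Fintype.card ι)
    (hL : ∀ᵐ t ∂P, Tendsto (fun n : ℕ => Tz (gridG ι) (fun e => ω e t) 0 (n • (1 : ι → ℤ)) / n)
      atTop (𝓝 L)) : s ≤ L := by
  by_contra hcon
  push Not at hcon
  set δ : ℝ := θ * Fintype.card ι - lam * s with hδ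
  have hδ0 : 0 < δ := by linarith
  set C : ℝ := 1 + (1 + Real.exp (-θ)) / lam with hC
  have hC0 : 0 < C := by positivity
  let E : ℕ → Set Ω := fun n => {t | Tz (gridG ι) (fun e => ω e t) 0 (n • (1 : ι → ℤ)) < s * n}
  have hE : ∀ n : ℕ, 0 < n → P (E n) ≤ ENNReal.ofReal (C * Real.exp (-(δ * n))) := by
    intro n hn
    have hn' : (0 : ℝ) < n := by exact_mod_cast hn
    refine (tail_bound hind hlaw hθ hlam hl (by positivity) _).trans (le_of_eq ?_)
    congr 1
    unfold psi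
    have h1 : ∑ i : ι, (((n • (1 : ι → ℤ)) i : ℤ) : ℝ) = Fintype.card ι * n := by
      simp
    rw [h1]
    simp only [Pi.zero_apply, Int.cast_zero, Finset.sum_const_zero, zero_sub]
    rw [← hC, mul_left_comm, ← Real.exp_add]
    congr 2
    rw [hδ]
    ring
  let F : ℕ → Set Ω := fun N => ⋂ n ∈ Set.Ici N, E n
  have hF0 : ∀ N, P (F N) = 0 := by
    intro N
    have h1 : ∀ n, max N 1 ≤ n → P (F N) ≤ ENNReal.ofReal (C * Real.exp (-(δ * n))) := by
      intro n hn
      refine (measure_mono ?_).trans (hE n (by omega))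
      intro t ht
      simp only [F, Set.mem_iInter, Set.mem_Ici] at ht
      exact ht n (by omega)
    have h2 : Tendsto (fun n : ℕ => ENNReal.ofReal (C * Real.exp (-(δ * n)))) atTop (𝓝 0) := by
      have h3 : Tendsto (fun n : ℕ => C * Real.exp (-(δ * n))) atTop (𝓝 (C * 0)) := by
        refine Tendsto.const_mul _ ?_
        refine Real.tendsto_exp_neg_atTop_nhds_zero.comp ?_
        exact Tendsto.const_mul_atTop hδ0 tendsto_natCast_atTop_atTop
      rw [mul_zero] at h3
      have := ENNReal.tendsto_ofReal h3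
      simpa using this
    have h3 := ge_of_tendsto h2 (eventually_atTop.mpr ⟨max N 1, fun n hn => h1 n hn⟩)
    exact le_antisymm h3 zero_le
  have hU : P (⋃ N, F N) = 0 := measure_iUnion_null hF0
  have hae : ∀ᵐ t ∂P, t ∈ ⋃ N, F N := by
    filter_upwards [hL] with t ht
    have h1 : ∀ᶠ n : ℕ in atTop, Tz (gridG ι) (fun e => ω e t) 0 (n • (1 : ι → ℤ)) / n < s :=
      ht.eventually (gt_mem_nhds hcon)
    obtain ⟨N, hN⟩ := eventually_atTop.mp h1
    refine Set.mem_iUnion.mpr ⟨max N 1, ?_⟩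
    simp only [F, Set.mem_iInter, Set.mem_Ici]
    intro n hn
    have hn' : (0 : ℝ) < n := by
      have : 0 < n := by omega
      exact_mod_cast this
    have h2 := hN n (by omega)
    rw [div_lt_iff₀ hn'] at h2
    exact h2
  have h1 : P (⋃ N, F N) = 1 := by
    rw [← measure_univ (μ := P)]
    refine measure_congr ?_
    filter_upwards [hae] with t ht
    exact propext ⟨fun _ => trivial, fun _ => ht⟩
  rw [hU] at h1
  exact zero_ne_one h1

end Pool.Agent.Lib.MP_edae2b_pr
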