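import Pool.Agent.Lib.MP_edae2b_pr.C14a
import Pool.Agent.Lib.MP_edae2b_pr.C14b
import Pool.Agent.Lib.MP_edae2b_pr.C14c

/-!
# The potential in dimension 14
-/

namespace Pool.Agent.Lib.MP_edae2b_pr

set_option maxRecDepth 100000

theorem ok14 : OK 1000000000 90786794 13 100 400 [20, 40, 60, 80, 120, 160, 240, 320, 400] rho14 where
  hS := by norm_num
  hK := by norm_num
  hKC := by norm_num
  hC := by norm_num
  hgs := by decide
  hmono := by decide
  hlen := by decide +kernel
  hE := by decide +kernel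
  hcheck := by
    intro k hk
    have hk' : k < 10 := hk
    interval_cases k
    exacts [ck14_0, ck14_1, ck14_2, ck14_3, ck14_4, ck14_5, ck14_6, ck14_7, ck14_8, ck14_9]

theorem pot14 : ∃ V : ℕ → ℕ → ℕ → ℝ, IsPot 13 ((90786794 : ℕ) / (1000000000 : ℕ) : ℝ) V :=
  isPot_of_OK ok14

end Pool.Agent.Lib.MP_edae2b_pr
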