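import Pool.Agent.Lib.MP_edae2b_pr.C15

/-!
# The potential in dimension 15
-/

namespace Pool.Agent.Lib.MP_edae2b_pr

set_option maxRecDepth 100000

theorem ok15 : OK 1000000000 87503128 14 80 200 [30, 60, 100, 150, 200] rho15 where
  hS := by norm_num
  hK := by norm_num
  hKC := by norm_num
  hC := by norm_num
  hgs := by decide
  hmono := by decide
  hlen := by decide +kernel
  hE := by decide +kernel
  hcheck := by
    intro k hk
    have hk' : k < 6 := hk
    interval_cases k
    exacts [ck15_0, ck15_1, ck15_2, ck15_3, ck15_4, ck15_5]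

theorem pot15 : ∃ V : ℕ → ℕ → ℕ → ℝ, IsPot 14 ((87503128 : ℕ) / (1000000000 : ℕ) : ℝ) V :=
  isPot_of_OK ok15

end Pool.Agent.Lib.MP_edae2b_pr
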