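import Pool.Agent.Lib.MP_edae2b_pr.C24

/-!
# The potential in dimension 24
-/

namespace Pool.Agent.Lib.MP_edae2b_pr

set_option maxRecDepth 100000

theorem ok24 : OK 1000000000 63242083 23 80 200 [30, 60, 100, 150, 200] rho24 where
  hS := by norm_num
  hK := by norm_num
  hKC := by norm_num
  hC := by norm_num
  hgs := by decide
  hmono := by decide
  hlen := by decide +kernel
  hE := by decide +kernel
  hcheck := by
    intro k hk
    have hk' : k < 6 := hk
    interval_cases k
    exacts [ck24_0, ck24_1, ck24_2, ck24_3, ck24_4, ck24_5]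

theorem pot24 : ∃ V : ℕ → ℕ → ℕ → ℝ, IsPot 23 ((63242083 : ℕ) / (1000000000 : ℕ) : ℝ) V :=
  isPot_of_OK ok24

end Pool.Agent.Lib.MP_edae2b_pr
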