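import Pool.Agent.Lib.MP_edae2b_pr.Upper
import Pool.Agent.Lib.MP_edae2b_pr.OK14
import Pool.Agent.Lib.MP_edae2b_pr.OK15
import Pool.Agent.Lib.MP_edae2b_pr.OK16
import Pool.Agent.Lib.MP_edae2b_pr.OK17
import Pool.Agent.Lib.MP_edae2b_pr.OK19
import Pool.Agent.Lib.MP_edae2b_pr.OK21
import Pool.Agent.Lib.MP_edae2b_pr.OK24
import Pool.Agent.Lib.MP_edae2b_pr.OK29

/-!
# The limit shape of the Eden model is not a Euclidean ball in dimensions at least 14
-/

namespace Pool.Agent.Lib.MP_edae2b_pr

open MeasureTheory ProbabilityTheory Filter Topology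

lemma exp_upper : Real.exp (59 / 50) ≤ 32544 / 10000 := by
  have h1 : Real.exp (59 / 100) ≤ 180399 / 100000 := by
    refine (Real.exp_bound' (by norm_num) (by norm_num) (n := 9) (by norm_num)).trans ?_
    simp only [Finset.sum_range_succ, Finset.sum_range_zero, Nat.factorial]
    norm_num
  rw [show (59 / 50 : ℝ) = 59 / 100 + 59 / 100 by norm_num, Real.exp_add]
  calc Real.exp (59 / 100) * Real.exp (59 / 100) ≤ (180399 / 100000) * (180399 / 100000) := by
        gcongr
    _ ≤ _ := by norm_num

lemma exp_lower : Real.exp (-(59 / 50)) ≤ 3073 / 10000 := by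
  have h1 : (180398 / 100000 : ℝ) ≤ Real.exp (59 / 100) := by
    refine le_trans ?_ (Real.sum_le_exp_of_nonneg (by norm_num) 9)
    simp only [Finset.sum_range_succ, Finset.sum_range_zero, Nat.factorial]
    norm_num
  have h2 : (10000 / 3073 : ℝ) ≤ Real.exp (59 / 50) := by
    rw [show (59 / 50 : ℝ) = 59 / 100 + 59 / 100 by norm_num, Real.exp_add]
    calc (10000 / 3073 : ℝ) ≤ (180398 / 100000) * (180398 / 100000) := by norm_num
      _ ≤ _ := by gcongr
  rw [Real.exp_neg]
  refine inv_le_of_inv_le₀ (by norm_num) ?_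
  rw [inv_div]
  exact h2

variable {d : ℕ} {Ω : Type*} [MeasurableSpace Ω] {P : Measure Ω} [IsProbabilityMeasure P]
  {ω : Sym2 (Fin d → ℤ) → Ω → ℝ}

theorem key {D : ℕ} (hD : D + 1 ≤ d) (hind : iIndepFun ω P)
    (hlaw : ∀ e, Measurable (ω e) ∧ P.map (ω e) = ex) {μ s : ℝ}
    (hV : ∃ V : ℕ → ℕ → ℕ → ℝ, IsPot D μ V) (hs : 0 < s) (hμs : μ ^ 2 * d < s ^ 2)
    (hsl : ((d : ℝ) * (32544 / 10000) + (d - 1) * (3073 / 10000) - 1) * s < 59 / 50 * d) :
    ¬ ∃ c : ℝ, ∀ x : Fin d → ℤ, ∀ᵐ t ∂P, Tendsto (fun n : ℕ =>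
      Tz (gridG (Fin d)) (fun e => ω e t) 0 (n • x) / n) atTop
      (𝓝 (c * Real.sqrt (∑ i, ((x i : ℝ)) ^ 2))) := by
  rintro ⟨c, hc⟩
  obtain ⟨V, hV⟩ := hV
  have hd : 1 ≤ d := by omega
  have hd' : (1 : ℝ) ≤ d := by exact_mod_cast hd
  haveI : Nonempty (Fin d) := ⟨⟨0, by omega⟩⟩
  have h1 : s ≤ c * Real.sqrt d := by
    refine diag_lower (ι := Fin d) hind hlaw (θ := 59 / 50)
      (lam := (d : ℝ) * (32544 / 10000) + (d - 1) * (3073 / 10000) - 1) (by norm_num) ?_ ?_ hs ?_ ?_
    · nlinarith
    · rw [Fintype.card_fin, Real.cosh_eq]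
      have h2 := exp_upper
      have h3 := exp_lower
      have h4 : (d : ℝ) * Real.exp (59 / 50) ≤ d * (32544 / 10000) :=
        mul_le_mul_of_nonneg_left h2 (by linarith)
      have h5 : ((d : ℝ) - 1) * Real.exp (-(59 / 50)) ≤ (d - 1) * (3073 / 10000) :=
        mul_le_mul_of_nonneg_left h3 (by linarith)
      linarith
    · rw [Fintype.card_fin]
      exact hsl
    · have h2 := hc 1
      have h3 : ∑ i : Fin d, (((1 : Fin d → ℤ) i : ℤ) : ℝ) ^ 2 = d := by simp
      rw [h3] at h2
      exact h2
  have hsq : 0 < Real.sqrt d := Real.sqrt_pos.mpr (by linarith)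
  have hc0 : 0 < c := by
    by_contra hcon
    push Not at hcon
    have := mul_nonpos_of_nonpos_of_nonneg hcon hsq.le
    linarith
  have h2 := axis_upper hD hind hlaw hV hc0.le hc
  have h3 : μ * Real.sqrt d < s := by
    refine lt_of_pow_lt_pow_left₀ 2 hs.le ?_
    rw [mul_pow, Real.sq_sqrt (by linarith)]
    exact hμs
  have h4 : c * Real.sqrt d ≤ μ * Real.sqrt d := mul_le_mul_of_nonneg_right h2 hsq.le
  linarith

theorem not_ball (h14 : 14 ≤ d) (h35 : d < 35) (hind : iIndepFun ω P)
    (hlaw : ∀ e, Measurable (ω e) ∧ P.map (ω e) = ex) :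
    ¬ ∃ c : ℝ, ∀ x : Fin d → ℤ, ∀ᵐ t ∂P, Tendsto (fun n : ℕ =>
      Tz (gridG (Fin d)) (fun e => ω e t) 0 (n • x) / n) atTop
      (𝓝 (c * Real.sqrt (∑ i, ((x i : ℝ)) ^ 2))) := by
  interval_cases d
  · exact key (s := 169979 / 500000) (by norm_num) hind hlaw pot14 (by norm_num) (by norm_num)
      (by norm_num)
  · exact key (s := 67851 / 200000) (by norm_num) hind hlaw pot15 (by norm_num) (by norm_num)
      (by norm_num)
  · exact key (s := 336539 / 1000000) (by norm_num) hind hlaw pot16 (by norm_num) (by norm_num)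
      (by norm_num)
  · exact key (s := 332859 / 1000000) (by norm_num) hind hlaw pot17 (by norm_num) (by norm_num)
      (by norm_num)
  · exact key (s := 168697 / 500000) (by norm_num) hind hlaw pot17 (by norm_num) (by norm_num)
      (by norm_num)
  · exact key (s := 165077 / 500000) (by norm_num) hind hlaw pot19 (by norm_num) (by norm_num)
      (by norm_num)
  · exact key (s := 10443 / 31250) (by norm_num) hind hlaw pot19 (by norm_num) (by norm_num)
      (by norm_num)
  · exact key (s := 65387 / 200000) (by norm_num) hind hlaw pot21 (by norm_num) (by norm_num)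
      (by norm_num)
  · exact key (s := 13221 / 40000) (by norm_num) hind hlaw pot21 (by norm_num) (by norm_num)
      (by norm_num)
  · exact key (s := 334043 / 1000000) (by norm_num) hind hlaw pot21 (by norm_num) (by norm_num)
      (by norm_num)
  · exact key (s := 64627 / 200000) (by norm_num) hind hlaw pot24 (by norm_num) (by norm_num)
      (by norm_num)
  · exact key (s := 13049 / 40000) (by norm_num) hind hlaw pot24 (by norm_num) (by norm_num)
      (by norm_num)
  · exact key (s := 16463 / 50000) (by norm_num) hind hlaw pot24 (by norm_num) (by norm_num)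
      (by norm_num)
  · exact key (s := 166121 / 500000) (by norm_num) hind hlaw pot24 (by norm_num) (by norm_num)
      (by norm_num)
  · exact key (s := 167587 / 500000) (by norm_num) hind hlaw pot24 (by norm_num) (by norm_num)
      (by norm_num)
  · exact key (s := 63719 / 200000) (by norm_num) hind hlaw pot29 (by norm_num) (by norm_num)
      (by norm_num)
  · exact key (s := 160551 / 500000) (by norm_num) hind hlaw pot29 (by norm_num) (by norm_num)
      (by norm_num)
  · exact key (s := 323571 / 1000000) (by norm_num) hind hlaw pot29 (by norm_num) (by norm_num)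
      (by norm_num)
  · exact key (s := 326003 / 1000000) (by norm_num) hind hlaw pot29 (by norm_num) (by norm_num)
      (by norm_num)
  · exact key (s := 821 / 2500) (by norm_num) hind hlaw pot29 (by norm_num) (by norm_num)
      (by norm_num)
  · exact key (s := 82691 / 250000) (by norm_num) hind hlaw pot29 (by norm_num) (by norm_num)
      (by norm_num)

end Pool.Agent.Lib.MP_edae2b_pr
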