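import Pool.Agent.Lib.MP_edae2b_pr.Axis
import Pool.Agent.Lib.MP_edae2b_pr.Diag

/-!
# First passage percolation on `ℤ^d`: transfer to finite boxes
-/

namespace Pool.Agent.Lib.MP_edae2b_pr

open MeasureTheory ProbabilityTheory Filter Topology
open scoped ENNReal

section single

lemma measurable_exp_half : Measurable fun x : ℝ => ENNReal.ofReal (Real.exp (x / 2)) :=
  (Real.measurable_exp.comp (measurable_id.div_const 2)).ennreal_ofReal

lemma lintegral_exp_half : ∫⁻ x, ENNReal.ofReal (Real.exp (x / 2)) ∂ex = 2 := by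
  unfold ex expMeasure gammaMeasure
  rw [lintegral_withDensity_eq_lintegral_mul _
    (show Measurable (gammaPDF 1 1) from (measurable_gammaPDFReal 1 1).ennreal_ofReal)
    measurable_exp_half]
  have h1 : ∀ x : ℝ, (gammaPDF 1 1 * fun x => ENNReal.ofReal (Real.exp (x / 2))) x =
      2 * exponentialPDF (1 / 2) x := by
    intro x
    simp only [Pi.mul_apply]
    have hpdf : gammaPDF 1 1 x = exponentialPDF 1 x := rfl
    rw [hpdf]
    rcases lt_or_ge x 0 with hx | hx
    · rw [exponentialPDF_of_neg hx, exponentialPDF_of_neg hx]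
      simp
    · rw [exponentialPDF_of_nonneg hx, exponentialPDF_of_nonneg hx,
        ← ENNReal.ofReal_mul (by positivity), show (2 : ℝ≥0∞) = ENNReal.ofReal 2 by simp,
        ← ENNReal.ofReal_mul (by norm_num)]
      congr 1
      rw [one_mul, one_mul, ← Real.exp_add, ← mul_assoc]
      norm_num
      congr 1
      ring
  simp only [h1]
  rw [lintegral_const_mul' _ _ (by simp), lintegral_exponentialPDF_eq_one (by norm_num)]
  simp

end single

variable {κ : Type*} {Ω : Type*} [MeasurableSpace Ω] {P : Measure Ω}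
  [IsProbabilityMeasure P] {X : κ → Ω → ℝ}

/-- Chernoff bound for sums of independent exponential variables. -/
lemma chernoff (hind : iIndepFun X P) (hlaw : ∀ e, Measurable (X e) ∧ P.map (X e) = ex)
    (F : Finset κ) (a : ℝ) :
    P {t | a ≤ ∑ e ∈ F, X e t} ≤ ENNReal.ofReal (Real.exp (-(a / 2))) * 2 ^ F.card := by
  have hm : ∀ e, Measurable fun t => ENNReal.ofReal (Real.exp (X e t / 2)) := fun e =>
    measurable_exp_half.comp (hlaw e).1
  have h1 : ∫⁻ t, ∏ e ∈ F, ENNReal.ofReal (Real.exp (X e t / 2)) ∂P = 2 ^ F.card := by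
    have h2 : iIndepFun (fun e t => ENNReal.ofReal (Real.exp (X e t / 2))) P :=
      hind.comp (fun _ x => ENNReal.ofReal (Real.exp (x / 2)))
        (fun _ => measurable_exp_half)
    rw [lintegral_prod_eq_prod_lintegral_of_indepFun F _ h2 hm]
    have h3 : ∀ e ∈ F, ∫⁻ t, ENNReal.ofReal (Real.exp (X e t / 2)) ∂P = 2 := by
      intro e _
      rw [← lintegral_exp_half, ← (hlaw e).2, lintegral_map
        measurable_exp_half (hlaw e).1]
    rw [Finset.prod_congr rfl h3, Finset.prod_const]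
  have h2 : P {t | a ≤ ∑ e ∈ F, X e t} ≤
      P {t | ENNReal.ofReal (Real.exp (a / 2)) ≤ ∏ e ∈ F, ENNReal.ofReal (Real.exp (X e t / 2))} := by
    refine measure_mono fun t ht => ?_
    rw [Set.mem_ofPred_eq] at ht ⊢
    rw [← ENNReal.ofReal_prod_of_nonneg (fun e _ => (Real.exp_pos _).le), ← Real.exp_sum]
    refine ENNReal.ofReal_le_ofReal (Real.exp_le_exp.mpr ?_)
    rw [← Finset.sum_div]
    linarith
  refine h2.trans ?_
  have h3 := meas_ge_le_lintegral_div (μ := P) (F.aemeasurable_fun_prod fun e _ => (hm e).aemeasurable)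
    (ε := ENNReal.ofReal (Real.exp (a / 2))) (by simp [Real.exp_pos]) ENNReal.ofReal_ne_top
  refine h3.trans (le_of_eq ?_)
  rw [h1, Real.exp_neg, ENNReal.ofReal_inv_of_pos (Real.exp_pos _), ENNReal.div_eq_inv_mul]

variable {W : Type*} {ω : Sym2 W → Ω → ℝ}

lemma law_map (hind : iIndepFun ω P) (hlaw : ∀ e, Measurable (ω e) ∧ P.map (ω e) = ex)
    {V : Type*} [Fintype V] [DecidableEq V] (j : V → W) (hj : Function.Injective j) :
    P.map (fun t => fun e : Sym2 V => ω (e.map j) t) = pex (Sym2 V) := by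
  have h1 : iIndepFun (fun (e : Sym2 V) t => ω (e.map j) t) P :=
    hind.precomp (Sym2.map.injective hj)
  rw [h1.map_fun_eq_pi_map fun e => (hlaw _).1.aemeasurable]
  unfold pex
  congr 1
  funext e
  exact (hlaw _).2

lemma weights_nonneg [Countable W] (hlaw : ∀ e, Measurable (ω e) ∧ P.map (ω e) = ex) :
    ∀ᵐ t ∂P, ∀ e, 0 ≤ ω e t := by
  rw [ae_all_iff]
  intro e
  have h1 : ∀ᵐ x ∂(P.map (ω e)), (0 : ℝ) ≤ x := by
    rw [(hlaw e).2]; exact ex_nonneg_ae
  exact ae_of_ae_map (hlaw e).1.aemeasurable h1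

/-- The passage time. -/
noncomputable def Tz (G : SimpleGraph W) (c : Sym2 W → ℝ) (x y : W) : ℝ :=
  ⨅ p : G.Walk x y, (p.edges.map c).sum

lemma sum_edges_nonneg {G : SimpleGraph W} {c : Sym2 W → ℝ} (hc : ∀ e, 0 ≤ c e) {x y : W}
    (p : G.Walk x y) : 0 ≤ (p.edges.map c).sum := by
  refine List.sum_nonneg fun a ha => ?_
  obtain ⟨e, _, rfl⟩ := List.mem_map.mp ha
  exact hc e

lemma Tz_le {G : SimpleGraph W} {c : Sym2 W → ℝ} (hc : ∀ e, 0 ≤ c e) {x y : W}
    (p : G.Walk x y) : Tz G c x y ≤ (p.edges.map c).sum :=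
  ciInf_le ⟨0, by rintro _ ⟨q, rfl⟩; exact sum_edges_nonneg hc q⟩ p

lemma Tz_triangle {G : SimpleGraph W} {c : Sym2 W → ℝ} (hc : ∀ e, 0 ≤ c e) {x y z : W}
    (hne : Nonempty (G.Walk x y)) (p : G.Walk y z) :
    Tz G c x z ≤ Tz G c x y + (p.edges.map c).sum := by
  have : Tz G c x z - (p.edges.map c).sum ≤ Tz G c x y := by
    refine le_ciInf fun q => ?_
    have := Tz_le hc (q.append p)
    rw [SimpleGraph.Walk.edges_append, List.map_append, List.sum_append] at this
    linarith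
  linarith

lemma exists_walk_of_Tz_lt {G : SimpleGraph W} {c : Sym2 W → ℝ} {x y : W} {r : ℝ}
    (hne : Nonempty (G.Walk x y)) (h : Tz G c x y < r) :
    ∃ p : G.Walk x y, (p.edges.map c).sum < r := exists_lt_of_ciInf_lt h

lemma ofReal_cost {V : Type*} {G : SimpleGraph V} {c : Sym2 V → ℝ} (hc : ∀ e, 0 ≤ c e) {x y : V}
    (p : G.Walk x y) : cost (cw c) p = ENNReal.ofReal (p.edges.map c).sum := by
  induction p with
  | nil => simp
  | cons h q ih =>
    rw [cost_cons, ih, SimpleGraph.Walk.edges_cons, List.map_cons, List.sum_cons,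
      ENNReal.ofReal_add (hc _) (sum_edges_nonneg hc q)]
    rfl

/-- From a finite graph mapped into `G`. -/
lemma exists_Tz_lt {G : SimpleGraph W} {c : Sym2 W → ℝ} (hc : ∀ e, 0 ≤ c e) {V : Type*}
    {G' : SimpleGraph V} (φ : G' →g G) {A S : Set V} {r : ℝ}
    (h : pt G' A S (cw fun e => c (e.map φ)) < ENNReal.ofReal r) :
    ∃ u ∈ S, ∃ a ∈ A, Tz G c (φ u) (φ a) < r := by
  unfold pt at h
  simp only [iInf_lt_iff] at h
  obtain ⟨u, hu, a, ha, p, hp⟩ := h
  refine ⟨u, hu, a, ha, ?_⟩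
  rw [ofReal_cost (fun e => hc _)] at hp
  have hp' : (p.edges.map fun e => c (e.map φ)).sum < r :=
    (ENNReal.ofReal_lt_ofReal_iff_of_nonneg (sum_edges_nonneg (fun e => hc _) p)).mp hp
  refine (Tz_le hc (p.map φ)).trans_lt ?_
  rw [SimpleGraph.Walk.edges_map, List.map_map]
  exact hp'

end Pool.Agent.Lib.MP_edae2b_pr
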