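import Pool.Agent.Lib.MP_edae2b_pr.Lower

/-!
# Upper bound for the time constant in the axis direction
-/

namespace Pool.Agent.Lib.MP_edae2b_pr

open MeasureTheory ProbabilityTheory Filter Topology
open scoped ENNReal

variable {d D : ℕ}

/-- Embedding of `ℤ^(D+1)` in `ℤ^d` by zero coordinates. -/
def jj (D d : ℕ) (z : Fin (D + 1) → ℤ) : Fin d → ℤ :=
  fun i => if h : i.val < D + 1 then z ⟨i.val, h⟩ else 0

lemma jj_zero : jj D d 0 = 0 := by
  funext i
  simp [jj]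

lemma jj_injective (hD : D + 1 ≤ d) : Function.Injective (jj D d) := by
  intro x y h
  funext i
  have h1 := congrFun h ⟨i.val, lt_of_lt_of_le i.isLt hD⟩
  simp only [jj] at h1
  rw [dif_pos i.isLt, dif_pos i.isLt] at h1
  exact h1

lemma jj_add_dv (hD : D + 1 ≤ d) (z : Fin (D + 1) → ℤ) (δ : Fin (D + 1) × Bool) :
    jj D d (z + dv δ) = jj D d z + dv (Fin.castLE hD δ.1, δ.2) := by
  obtain ⟨i, b⟩ := δ
  funext j
  have hj0 : (Fin.castLE hD i = j) ↔ (i.val = j.val) := by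
    constructor
    · intro h; rw [← h]; rfl
    · intro h; exact Fin.ext h
  by_cases hj : j.val < D + 1
  · simp only [jj, hj, dif_pos, Pi.add_apply]
    congr 1
    by_cases hij : i.val = j.val
    · have h1 : i = ⟨j.val, hj⟩ := Fin.ext hij
      have h2 : Fin.castLE hD i = j := hj0.mpr hij
      rw [← h1, dv_self, ← h2, dv_self]
    · rw [dv_other _ _ _ (fun h => hij (by rw [h])), dv_other _ _ _ (fun h => hij (hj0.mp h))]
  · simp only [jj, hj, dif_neg, not_false_eq_true, Pi.add_apply]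
    rw [dv_other _ _ _ (fun h => hj (by rw [← hj0.mp h]; exact i.isLt))]
    simp

/-- The embedding of the box as a graph homomorphism. -/
def jhom (hD : D + 1 ≤ d) (n : ℕ) : boxG (Fin (D + 1)) n →g gridG (Fin d) where
  toFun z := jj D d z.1
  map_rel' := by
    intro x y h
    have h' : (gridG (Fin (D + 1))).Adj x.1 y.1 := h
    rw [grid_adj_iff] at h'
    obtain ⟨δ, hδ⟩ := h'
    refine grid_adj_iff.mpr ⟨(Fin.castLE hD δ.1, δ.2), ?_⟩
    rw [hδ, jj_add_dv hD]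

lemma jhom_apply (hD : D + 1 ≤ d) (n : ℕ) (z : boxF (Fin (D + 1)) n) :
    jhom hD n z = jj D d z.1 := rfl

/-- The lattice direction close to `y`. -/
def xx (k : ℕ) (y : Fin (D + 1) → ℤ) : Fin (D + 1) → ℤ := fun i => y i / k

lemma jj_dist (k : ℕ) (hk : 0 < k) (y : Fin (D + 1) → ℤ) :
    ∑ i, |(k • jj D d (xx k y)) i - jj D d y i| ≤ (D + 1) * k := by
  have h1 : ∀ i : Fin d, |(k • jj D d (xx k y)) i - jj D d y i| ≤
      if i.val < D + 1 then (k : ℤ) else 0 := by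
    intro i
    by_cases hi : i.val < D + 1
    · simp only [jj, hi, dif_pos, Pi.smul_apply, if_true, xx, nsmul_eq_mul]
      have h2 := Int.mul_ediv_add_emod (y ⟨i.val, hi⟩) k
      have h3 := Int.emod_nonneg (y ⟨i.val, hi⟩) (show (k : ℤ) ≠ 0 by omega)
      have h4 := Int.emod_lt_of_pos (y ⟨i.val, hi⟩) (show (0 : ℤ) < k by omega)
      rw [abs_le]
      constructor <;> omega
    · simp [jj, hi]
  refine (Finset.sum_le_sum fun i _ => h1 i).trans ?_
  rw [← Finset.sum_filter, Finset.sum_const, nsmul_eq_mul]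
  have h2 : (Finset.univ.filter fun i : Fin d => i.val < D + 1).card ≤ D + 1 := by
    rw [Fin.card_filter_val_lt]
    omega
  have h3 : ((Finset.univ.filter fun i : Fin d => i.val < D + 1).card : ℤ) ≤ D + 1 := by
    exact_mod_cast h2
  exact mul_le_mul_of_nonneg_right h3 (by positivity)

lemma xx_mem {k M : ℕ} (hk : 0 < k) {y : Fin (D + 1) → ℤ} (hy : y ∈ boxF (Fin (D + 1)) (k * M)) :
    xx k y ∈ boxF (Fin (D + 1)) M := by
  rw [mem_boxF] at hy ⊢
  intro i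
  have h1 := hy i
  rw [abs_le] at h1 ⊢
  have hk' : (0 : ℤ) < k := by omega
  unfold xx
  constructor
  · rw [Int.le_ediv_iff_mul_le hk']
    push_cast at h1
    nlinarith [h1.1]
  · have h2 : y i / (k : ℤ) ≤ (M : ℤ) := by
      refine Int.ediv_le_of_le_mul hk' ?_
      push_cast at h1
      nlinarith [h1.2]
    exact h2

lemma xx_face {k M : ℕ} (hk : 0 < k) {y : Fin (D + 1) → ℤ} {i : Fin (D + 1)}
    (hy : |y i| = ((k * M : ℕ) : ℤ)) : |xx k y i| = M := by
  have hk' : (0 : ℤ) < k := by omega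
  unfold xx
  rcases (abs_eq (by positivity)).mp hy with h | h
  · rw [h]
    push_cast
    rw [Int.mul_ediv_cancel_left _ hk'.ne']
    simp
  · rw [h]
    push_cast
    rw [← mul_neg, Int.mul_ediv_cancel_left _ hk'.ne']
    simp

lemma norm_jj_ge (hD : D + 1 ≤ d) {x : Fin (D + 1) → ℤ} {i : Fin (D + 1)} {M : ℕ}
    (hx : |x i| = M) : (M : ℝ) ≤ Real.sqrt (∑ j, ((jj D d x j : ℤ) : ℝ) ^ 2) := by
  refine Real.le_sqrt_of_sq_le ?_
  have h1 : ((jj D d x (Fin.castLE hD i) : ℤ) : ℝ) ^ 2 ≤ ∑ j, ((jj D d x j : ℤ) : ℝ) ^ 2 :=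
    Finset.single_le_sum (f := fun j => ((jj D d x j : ℤ) : ℝ) ^ 2) (fun j _ => sq_nonneg _)
      (Finset.mem_univ _)
  have h2 : jj D d x (Fin.castLE hD i) = x i := by
    simp only [jj]
    exact dif_pos i.isLt
  rw [h2] at h1
  refine le_trans (le_of_eq ?_) h1
  have h3 : ((M : ℤ) : ℝ) = ((|x i| : ℤ) : ℝ) := by rw [hx]
  have h4 : (M : ℝ) = |((x i : ℤ) : ℝ)| := by
    rw [← Int.cast_abs, ← h3]
    simp
  rw [h4, sq_abs]

/-- A path from `y` to the lattice ray close to it. -/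
lemma exists_path (k : ℕ) (hk : 0 < k) (y : Fin (D + 1) → ℤ) :
    ∃ p : (gridG (Fin d)).Walk (jj D d y) (k • jj D d (xx k y)),
      p.edges.Nodup ∧ p.length ≤ (D + 1) * k := by
  obtain ⟨p, hp⟩ := grid_reachable (jj D d y) (k • jj D d (xx k y))
  refine ⟨p.bypass, p.bypass_isPath.isTrail.edges_nodup, ?_⟩
  have h1 := p.length_bypass_le
  have h2 := jj_dist (d := d) k hk y
  have h3 : (p.length : ℤ) ≤ (D + 1) * k := hp.trans h2
  have h4 : p.length ≤ (D + 1) * k := by exact_mod_cast h3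
  omega

variable {Ω : Type*} [MeasurableSpace Ω] {P : Measure Ω} [IsProbabilityMeasure P]
  {ω : Sym2 (Fin d → ℤ) → Ω → ℝ}

/-- The good event. -/
def AA (ω : Sym2 (Fin d → ℤ) → Ω → ℝ) (D n : ℕ) (r : ℝ) : Set Ω :=
  {t | pt (boxG (Fin (D + 1)) n) (face (Fin (D + 1)) n)
    ({⟨0, zero_mem_boxF n⟩} : Set (boxF (Fin (D + 1)) n))
    (cw fun e => ω (e.map fun z => jj D d z.1) t) < ENNReal.ofReal r}

lemma measurableSet_AA (hlaw : ∀ e, Measurable (ω e) ∧ P.map (ω e) = ex) (n : ℕ) (r : ℝ) :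
    MeasurableSet (AA ω D n r) := by
  have hmeasX : Measurable (fun t => fun e : Sym2 (boxF (Fin (D + 1)) n) =>
      ω (e.map fun z => jj D d z.1) t) := measurable_pi_lambda _ fun e => (hlaw _).1
  have hmeas : Measurable fun w : Sym2 (boxF (Fin (D + 1)) n) → ℝ =>
      pt (boxG (Fin (D + 1)) n) (face (Fin (D + 1)) n)
        ({⟨0, zero_mem_boxF n⟩} : Set (boxF (Fin (D + 1)) n)) (cw w) :=
    measurable_pt (X := fun e w => cw w e) measurable_cw _ _
  exact measurableSet_lt (hmeas.comp hmeasX) measurable_const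

lemma AA_compl_le (hD : D + 1 ≤ d) (hind : iIndepFun ω P)
    (hlaw : ∀ e, Measurable (ω e) ∧ P.map (ω e) = ex) {μ : ℝ} {V : ℕ → ℕ → ℕ → ℝ}
    (hV : IsPot D μ V) (n : ℕ) {r : ℝ} (hr : 0 < r) :
    P (AA ω D n r)ᶜ ≤ ENNReal.ofReal ((μ * n + V 1 0 0) / r) := by
  have hmeasX : Measurable (fun t => fun e : Sym2 (boxF (Fin (D + 1)) n) =>
      ω (e.map fun z => jj D d z.1) t) := measurable_pi_lambda _ fun e => (hlaw _).1
  have hinj : Function.Injective (fun z : boxF (Fin (D + 1)) n => jj D d z.1) :=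
    (jj_injective hD).comp Subtype.val_injective
  have hmap := law_map hind hlaw (fun z : boxF (Fin (D + 1)) n => jj D d z.1) hinj
  have hmeas : Measurable fun w : Sym2 (boxF (Fin (D + 1)) n) → ℝ =>
      pt (boxG (Fin (D + 1)) n) (face (Fin (D + 1)) n)
        ({⟨0, zero_mem_boxF n⟩} : Set (boxF (Fin (D + 1)) n)) (cw w) :=
    measurable_pt (X := fun e w => cw w e) measurable_cw _ _
  have h1 : ∫⁻ t, pt (boxG (Fin (D + 1)) n) (face (Fin (D + 1)) n)
      ({⟨0, zero_mem_boxF n⟩} : Set (boxF (Fin (D + 1)) n))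
      (cw fun e => ω (e.map fun z => jj D d z.1) t) ∂P =
      ET (boxG (Fin (D + 1)) n) (face (Fin (D + 1)) n) {⟨0, zero_mem_boxF n⟩} := by
    unfold ET
    rw [← hmap, Finset.coe_singleton, lintegral_map hmeas hmeasX]
  have h2 := ET_box_le hV n ⟨0, zero_mem_boxF n⟩ rfl
  have h3 : ET (boxG (Fin (D + 1)) n) (face (Fin (D + 1)) n) {⟨0, zero_mem_boxF n⟩} ≠ ∞ := by
    obtain ⟨a, ha, ⟨p⟩⟩ := reach_face (D := D) n ⟨0, zero_mem_boxF n⟩
    exact (ET_lt_top (Finset.mem_singleton_self _) ha p).ne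
  have h4 : (AA ω D n r)ᶜ = {t | ENNReal.ofReal r ≤ pt (boxG (Fin (D + 1)) n)
      (face (Fin (D + 1)) n) ({⟨0, zero_mem_boxF n⟩} : Set (boxF (Fin (D + 1)) n))
      (cw fun e => ω (e.map fun z => jj D d z.1) t)} := by
    ext t
    simp [AA]
  rw [h4]
  have h5 := meas_ge_le_lintegral_div (μ := P) (hmeas.comp hmeasX).aemeasurable
    (ε := ENNReal.ofReal r) (by simp [hr]) ENNReal.ofReal_ne_top
  refine h5.trans ?_
  rw [show ∫⁻ a, ((fun w : Sym2 (boxF (Fin (D + 1)) n) → ℝ =>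
      pt (boxG (Fin (D + 1)) n) (face (Fin (D + 1)) n)
        ({⟨0, zero_mem_boxF n⟩} : Set (boxF (Fin (D + 1)) n)) (cw w)) ∘ fun t e =>
        ω (e.map fun z => jj D d z.1) t) a ∂P = _ from h1,
    ENNReal.ofReal_div_of_pos hr]
  gcongr
  rw [← ENNReal.ofReal_toReal h3]
  exact ENNReal.ofReal_le_ofReal h2

/-- The chosen path. -/
noncomputable def pp (D d : ℕ) (k : ℕ) (hk : 0 < k) (y : Fin (D + 1) → ℤ) :
    (gridG (Fin d)).Walk (jj D d y) (k • jj D d (xx k y)) := (exists_path k hk y).choose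

lemma pp_nodup (k : ℕ) (hk : 0 < k) (y : Fin (D + 1) → ℤ) : (pp D d k hk y).edges.Nodup :=
  (exists_path k hk y).choose_spec.1

lemma pp_length (k : ℕ) (hk : 0 < k) (y : Fin (D + 1) → ℤ) :
    (pp D d k hk y).length ≤ (D + 1) * k := (exists_path k hk y).choose_spec.2

/-- The bad event. -/
noncomputable def BB (ω : Sym2 (Fin d → ℤ) → Ω → ℝ) (D k n : ℕ) (hk : 0 < k) (r : ℝ) : Set Ω :=
  ⋃ y ∈ boxF (Fin (D + 1)) n, {t | r ≤ ∑ e ∈ (pp D d k hk y).edges.toFinset, ω e t}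

lemma measurableSet_BB (hlaw : ∀ e, Measurable (ω e) ∧ P.map (ω e) = ex) (k n : ℕ) (hk : 0 < k)
    (r : ℝ) : MeasurableSet (BB ω D k n hk r) := by
  refine Finset.measurableSet_biUnion _ fun y _ => ?_
  refine measurableSet_le measurable_const ?_
  exact Finset.measurable_sum _ fun e _ => (hlaw e).1

lemma card_boxF (D n : ℕ) : (boxF (Fin (D + 1)) n).card = (2 * n + 1) ^ (D + 1) := by
  unfold boxF
  rw [Fintype.card_piFinset]
  simp only [Int.card_Icc, Finset.prod_const, Finset.card_univ, Fintype.card_fin]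
  congr 1
  omega

lemma BB_le (hind : iIndepFun ω P) (hlaw : ∀ e, Measurable (ω e) ∧ P.map (ω e) = ex)
    (k n : ℕ) (hk : 0 < k) (r : ℝ) :
    P (BB ω D k n hk r) ≤ ENNReal.ofReal ((2 * n + 1 : ℝ) ^ (D + 1) *
      (Real.exp (-(r / 2)) * 2 ^ ((D + 1) * k))) := by
  unfold BB
  refine (measure_biUnion_finset_le _ _).trans ?_
  have h1 : ∀ y ∈ boxF (Fin (D + 1)) n,
      P {t | r ≤ ∑ e ∈ (pp D d k hk y).edges.toFinset, ω e t} ≤
      ENNReal.ofReal (Real.exp (-(r / 2)) * 2 ^ ((D + 1) * k)) := by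
    intro y _
    refine (chernoff hind hlaw _ r).trans ?_
    rw [ENNReal.ofReal_mul (Real.exp_pos _).le]
    gcongr
    rw [ENNReal.ofReal_pow (by norm_num), show ENNReal.ofReal 2 = 2 by simp]
    refine pow_le_pow_right₀ (by norm_num) ?_
    rw [List.toFinset_card_of_nodup (pp_nodup k hk y), SimpleGraph.Walk.length_edges]
    exact pp_length k hk y
  refine (Finset.sum_le_sum h1).trans (le_of_eq ?_)
  have h2 : ENNReal.ofReal ((2 * n + 1 : ℝ) ^ (D + 1)) =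
      (((2 * n + 1) ^ (D + 1) : ℕ) : ℝ≥0∞) := by
    rw [← ENNReal.ofReal_natCast]
    push_cast
    rfl
  have h3 : (0 : ℝ) ≤ (2 * n + 1 : ℝ) ^ (D + 1) := by positivity
  rw [Finset.sum_const, nsmul_eq_mul, card_boxF, ENNReal.ofReal_mul h3, h2]

/-- Upper bound for the time constant. -/
theorem axis_upper (hD : D + 1 ≤ d) (hind : iIndepFun ω P)
    (hlaw : ∀ e, Measurable (ω e) ∧ P.map (ω e) = ex) {μ : ℝ} {V : ℕ → ℕ → ℕ → ℝ}
    (hV : IsPot D μ V) {c : ℝ} (hc0 : 0 ≤ c)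
    (hc : ∀ x : Fin d → ℤ, ∀ᵐ t ∂P, Tendsto (fun n : ℕ =>
      Tz (gridG (Fin d)) (fun e => ω e t) 0 (n • x) / n) atTop
      (𝓝 (c * Real.sqrt (∑ i, ((x i : ℝ)) ^ 2)))) : c ≤ μ := by
  by_contra hcon
  push Not at hcon
  have hμ0 := hV.mu_nonneg
  obtain ⟨ε, hε⟩ : ∃ ε, ε = (c - μ) / 5 := ⟨_, rfl⟩
  have hε0 : 0 < ε := by rw [hε]; linarith
  -- choice of `M`
  obtain ⟨M, hM⟩ := exists_nat_gt (2 * ((D + 1) * Real.log 2 + 1) / ε)
  have hlog : 0 < Real.log 2 := Real.log_pos (by norm_num)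
  have hM1 : (0 : ℝ) < M := by
    refine lt_trans ?_ hM
    positivity
  have hMn : 1 ≤ M := by
    have : 0 < M := by exact_mod_cast hM1
    omega
  have hM2 : (D + 1) * Real.log 2 + 1 < ε * M / 2 := by
    rw [div_lt_iff₀ hε0] at hM
    linarith
  -- the events
  let K : ℕ → Set Ω := fun k => AA ω D ((k + 1) * M) ((μ + ε) * ((k + 1) * M : ℕ)) \
    BB ω D (k + 1) ((k + 1) * M) (Nat.succ_pos k) (ε * ((k + 1) * M : ℕ))
  have hKmeas : ∀ k, MeasurableSet (K k) := fun k =>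
    (measurableSet_AA hlaw _ _).diff (measurableSet_BB hlaw _ _ _ _)
  -- the events happen finitely often
  have hfin : ∀ᵐ t ∂P, ∀ᶠ k : ℕ in atTop, t ∉ K k := by
    have hall : ∀ᵐ t ∂P, ∀ x : Fin d → ℤ, Tendsto (fun n : ℕ =>
        Tz (gridG (Fin d)) (fun e => ω e t) 0 (n • x) / n) atTop
        (𝓝 (c * Real.sqrt (∑ i, ((x i : ℝ)) ^ 2))) := ae_all_iff.mpr hc
    filter_upwards [hall, weights_nonneg hlaw] with t ht hw
    have h1 : ∀ᶠ n : ℕ in atTop, ∀ x ∈ boxF (Fin (D + 1)) M,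
        c * Real.sqrt (∑ i, ((jj D d x i : ℤ) : ℝ) ^ 2) - ε <
          Tz (gridG (Fin d)) (fun e => ω e t) 0 (n • jj D d x) / n := by
      rw [Filter.eventually_all_finset]
      intro x _
      exact (ht (jj D d x)).eventually (lt_mem_nhds (by linarith))
    have h2 : ∀ᶠ k : ℕ in atTop, ∀ x ∈ boxF (Fin (D + 1)) M,
        c * Real.sqrt (∑ i, ((jj D d x i : ℤ) : ℝ) ^ 2) - ε <
          Tz (gridG (Fin d)) (fun e => ω e t) 0 ((k + 1) • jj D d x) / ((k + 1 : ℕ) : ℝ) :=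
      (tendsto_add_atTop_nat 1).eventually h1
    filter_upwards [h2] with k hk htK
    obtain ⟨hA, hB⟩ := htK
    obtain ⟨u, hu, a, ha, hlt⟩ := exists_Tz_lt hw (jhom hD ((k + 1) * M)) hA
    rw [Set.mem_singleton_iff] at hu
    subst hu
    rw [jhom_apply, jhom_apply, jj_zero] at hlt
    obtain ⟨i, hi⟩ := ha
    have hpath : ((pp D d (k + 1) (Nat.succ_pos k) a.1).edges.map fun e => ω e t).sum <
        ε * ((k + 1) * M : ℕ) := by
      by_contra hcon2
      push Not at hcon2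
      apply hB
      refine Set.mem_iUnion₂.mpr ⟨a.1, a.2, ?_⟩
      rw [Set.mem_ofPred_eq, List.sum_toFinset _ (pp_nodup _ _ _)]
      exact hcon2
    have htri := Tz_triangle hw (grid_nonempty_walk 0 (jj D d a.1))
      (pp D d (k + 1) (Nat.succ_pos k) a.1)
    have hx := hk (xx (k + 1) a.1) (xx_mem (Nat.succ_pos k) a.2)
    have hk0 : (0 : ℝ) < ((k + 1 : ℕ) : ℝ) := by positivity
    rw [lt_div_iff₀ hk0] at hx
    have hnorm := norm_jj_ge hD (xx_face (Nat.succ_pos k) hi)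
    have h5 : c * M ≤ c * Real.sqrt (∑ j, ((jj D d (xx (k + 1) a.1) j : ℤ) : ℝ) ^ 2) :=
      mul_le_mul_of_nonneg_left hnorm hc0
    have h6 : (c * M - ε) * ((k + 1 : ℕ) : ℝ) < (μ + ε) * ((k + 1) * M : ℕ) +
        ε * ((k + 1) * M : ℕ) := by
      have h7 : (c * M - ε) * ((k + 1 : ℕ) : ℝ) ≤
          (c * Real.sqrt (∑ j, ((jj D d (xx (k + 1) a.1) j : ℤ) : ℝ) ^ 2) - ε) *
            ((k + 1 : ℕ) : ℝ) := mul_le_mul_of_nonneg_right (by linarith) hk0.le
      linarith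
    have h8 : (c * M - ε) * ((k + 1 : ℕ) : ℝ) < ((μ + 2 * ε) * M) * ((k + 1 : ℕ) : ℝ) := by
      refine h6.trans_le (le_of_eq ?_)
      push_cast
      ring
    have h9 := lt_of_mul_lt_mul_right h8 hk0.le
    have hM1' : (1 : ℝ) ≤ M := by exact_mod_cast hMn
    have h10 : c = μ + 5 * ε := by rw [hε]; ring
    rw [h10] at h9
    nlinarith
  -- hence their probabilities tend to zero
  have hlim : Tendsto (fun k => P (K k)) atTop (𝓝 (P (∅ : Set Ω))) :=
    tendsto_measure_of_ae_tendsto_indicator_of_isFiniteMeasure atTop MeasurableSet.empty hKmeas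
      (by
        filter_upwards [hfin] with t ht
        filter_upwards [ht] with k hk
        simp [hk])
  rw [measure_empty] at hlim
  -- but they are bounded below
  set δ : ℝ := ε / 2 / (μ + ε) with hδ
  have hμε : 0 < μ + ε := by linarith
  have hδ0 : 0 < δ := by positivity
  have hA : ∀ᶠ k : ℕ in atTop,
      P (AA ω D ((k + 1) * M) ((μ + ε) * ((k + 1) * M : ℕ)))ᶜ ≤ ENNReal.ofReal (1 - δ) := by
    obtain ⟨N, hN⟩ := exists_nat_gt (2 * V 1 0 0 / ε)
    filter_upwards [eventually_ge_atTop N] with k hk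
    have hn0 : (0 : ℝ) < (((k + 1) * M : ℕ) : ℝ) := by
      have : 0 < (k + 1) * M := Nat.mul_pos (Nat.succ_pos k) hMn
      exact_mod_cast this
    refine (AA_compl_le hD hind hlaw hV _ (mul_pos hμε hn0)).trans ?_
    refine ENNReal.ofReal_le_ofReal ?_
    have h1 : V 1 0 0 ≤ ε / 2 * (((k + 1) * M : ℕ) : ℝ) := by
      rw [div_lt_iff₀ hε0] at hN
      have h2 : (N : ℝ) ≤ (((k + 1) * M : ℕ) : ℝ) := by
        have : N ≤ (k + 1) * M := by nlinarith
        exact_mod_cast this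
      nlinarith
    have h2 : 1 - δ = (μ + ε / 2) / (μ + ε) := by
      rw [hδ]
      field_simp
      ring
    rw [h2, div_le_div_iff₀ (mul_pos hμε hn0) hμε]
    have h3 : μ * (((k + 1) * M : ℕ) : ℝ) + V 1 0 0 ≤ (μ + ε / 2) * (((k + 1) * M : ℕ) : ℝ) := by
      linarith
    have h4 := mul_le_mul_of_nonneg_right h3 hμε.le
    refine h4.trans (le_of_eq ?_)
    ring
  have hB : Tendsto (fun k : ℕ => P (BB ω D (k + 1) ((k + 1) * M) (Nat.succ_pos k)
      (ε * ((k + 1) * M : ℕ)))) atTop (𝓝 0) := by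
    have h1 : ∀ k : ℕ, P (BB ω D (k + 1) ((k + 1) * M) (Nat.succ_pos k)
        (ε * ((k + 1) * M : ℕ))) ≤
        ENNReal.ofReal ((2 * M + 1 : ℝ) ^ (D + 1) *
          (((k + 1 : ℕ) : ℝ) ^ (D + 1) * Real.exp (-((k + 1 : ℕ) : ℝ)))) := by
      intro k
      refine (BB_le hind hlaw _ _ _ _).trans ?_
      refine ENNReal.ofReal_le_ofReal ?_
      have hk1 : (1 : ℝ) ≤ ((k + 1 : ℕ) : ℝ) := by push_cast; linarith [(Nat.cast_nonneg k : (0 : ℝ) ≤ k)]
      have h2 : (2 * (((k + 1) * M : ℕ) : ℝ) + 1) ^ (D + 1) ≤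
          (2 * M + 1 : ℝ) ^ (D + 1) * ((k + 1 : ℕ) : ℝ) ^ (D + 1) := by
        rw [← mul_pow]
        refine pow_le_pow_left₀ (by positivity) ?_ _
        push_cast at hk1 ⊢
        nlinarith
      have h3 : Real.exp (-(ε * (((k + 1) * M : ℕ) : ℝ) / 2)) * 2 ^ ((D + 1) * (k + 1)) ≤
          Real.exp (-((k + 1 : ℕ) : ℝ)) := by
        have h4 : (2 : ℝ) ^ ((D + 1) * (k + 1)) =
            Real.exp (((D + 1) * (k + 1) : ℕ) * Real.log 2) := by
          rw [Real.exp_nat_mul, Real.exp_log (by norm_num)]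
        rw [h4, ← Real.exp_add]
        refine Real.exp_le_exp.mpr ?_
        have h5 := mul_le_mul_of_nonneg_right hM2.le (show (0 : ℝ) ≤ ((k + 1 : ℕ) : ℝ) by linarith)
        push_cast at h5 ⊢
        linarith
      calc _ ≤ ((2 * M + 1 : ℝ) ^ (D + 1) * ((k + 1 : ℕ) : ℝ) ^ (D + 1)) *
            Real.exp (-((k + 1 : ℕ) : ℝ)) := by
            gcongr
        _ = _ := by ring
    have h2 : Tendsto (fun k : ℕ => ENNReal.ofReal ((2 * M + 1 : ℝ) ^ (D + 1) *
          (((k + 1 : ℕ) : ℝ) ^ (D + 1) * Real.exp (-((k + 1 : ℕ) : ℝ))))) atTop (𝓝 0) := by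
      have h3 : Tendsto (fun x : ℝ => x ^ (D + 1) * Real.exp (-x)) atTop (𝓝 0) :=
        Real.tendsto_pow_mul_exp_neg_atTop_nhds_zero (D + 1)
      have h4 : Tendsto (fun k : ℕ => ((k + 1 : ℕ) : ℝ)) atTop atTop :=
        tendsto_natCast_atTop_atTop.comp (tendsto_add_atTop_nat 1)
      have h5 := (h3.comp h4).const_mul ((2 * M + 1 : ℝ) ^ (D + 1))
      rw [mul_zero] at h5
      have h6 := ENNReal.tendsto_ofReal h5
      simpa using h6
    exact tendsto_of_tendsto_of_tendsto_of_le_of_le tendsto_const_nhds h2 (fun _ => zero_le) h1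
  have hB' : ∀ᶠ k : ℕ in atTop, P (BB ω D (k + 1) ((k + 1) * M) (Nat.succ_pos k)
      (ε * ((k + 1) * M : ℕ))) < ENNReal.ofReal (δ / 2) :=
    hB.eventually (gt_mem_nhds (by simp [hδ0]))
  have hK' : ∀ᶠ k : ℕ in atTop, P (K k) < ENNReal.ofReal (δ / 2) :=
    hlim.eventually (gt_mem_nhds (by simp [hδ0]))
  obtain ⟨k, hk1, hk2, hk3⟩ := (hA.and (hB'.and hK')).exists
  have hcover : (Set.univ : Set Ω) ⊆ (AA ω D ((k + 1) * M) ((μ + ε) * ((k + 1) * M : ℕ)))ᶜ ∪
      (BB ω D (k + 1) ((k + 1) * M) (Nat.succ_pos k) (ε * ((k + 1) * M : ℕ)) ∪ K k) := by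
    intro t _
    by_cases h1 : t ∈ AA ω D ((k + 1) * M) ((μ + ε) * ((k + 1) * M : ℕ))
    · by_cases h2 : t ∈ BB ω D (k + 1) ((k + 1) * M) (Nat.succ_pos k) (ε * ((k + 1) * M : ℕ))
      · exact Or.inr (Or.inl h2)
      · exact Or.inr (Or.inr ⟨h1, h2⟩)
    · exact Or.inl h1
  have h1 : (1 : ℝ≥0∞) ≤ ENNReal.ofReal (1 - δ) + (P (BB ω D (k + 1) ((k + 1) * M)
      (Nat.succ_pos k) (ε * ((k + 1) * M : ℕ))) + P (K k)) := by
    rw [← measure_univ (μ := P)]
    refine (measure_mono hcover).trans ((measure_union_le _ _).trans ?_)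
    exact add_le_add hk1 (measure_union_le _ _)
  have h2 : ENNReal.ofReal (1 - δ) + (P (BB ω D (k + 1) ((k + 1) * M)
      (Nat.succ_pos k) (ε * ((k + 1) * M : ℕ))) + P (K k)) <
      ENNReal.ofReal (1 - δ) + (ENNReal.ofReal (δ / 2) + ENNReal.ofReal (δ / 2)) :=
    ENNReal.add_lt_add_left ENNReal.ofReal_ne_top (ENNReal.add_lt_add hk2 hk3)
  have hδ1 : δ ≤ 1 := by
    rw [hδ, div_le_one hμε]
    linarith
  rw [← ENNReal.ofReal_add (by positivity) (by positivity),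
    ← ENNReal.ofReal_add (by linarith) (by positivity)] at h2
  have h3 : 1 - δ + (δ / 2 + δ / 2) = 1 := by ring
  rw [h3, ENNReal.ofReal_one] at h2
  exact absurd (h1.trans_lt h2) (lt_irrefl _)

end Pool.Agent.Lib.MP_edae2b_pr
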