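import Mathlib

/-!
# First passage percolation on a graph: deterministic facts
-/

namespace Pool.Agent.Lib.MP_edae2b_pr

open MeasureTheory ProbabilityTheory Filter Topology
open scoped ENNReal

variable {V : Type*} {G : SimpleGraph V}

/-- The cost of a walk. -/
def cost (c : Sym2 V → ℝ≥0∞) {u v : V} (p : G.Walk u v) : ℝ≥0∞ := (p.edges.map c).sum

@[simp] lemma cost_nil (c : Sym2 V → ℝ≥0∞) {u : V} :
    cost c (SimpleGraph.Walk.nil : G.Walk u u) = 0 := by simp [cost]

@[simp] lemma cost_cons (c : Sym2 V → ℝ≥0∞) {u v w : V} (h : G.Adj u v) (p : G.Walk v w) :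
    cost c (SimpleGraph.Walk.cons h p) = c s(u, v) + cost c p := by simp [cost]

/-- The passage time from the set `S` to the set `A`. -/
noncomputable def pt (G : SimpleGraph V) (A S : Set V) (c : Sym2 V → ℝ≥0∞) : ℝ≥0∞ :=
  ⨅ (u : V) (_ : u ∈ S) (a : V) (_ : a ∈ A) (p : G.Walk u a), cost c p

lemma pt_le {A S : Set V} {c : Sym2 V → ℝ≥0∞} {u a : V} (hu : u ∈ S) (ha : a ∈ A)
    (p : G.Walk u a) : pt G A S c ≤ cost c p := by
  unfold pt
  exact (iInf₂_le u hu).trans ((iInf₂_le a ha).trans (iInf_le _ p))

lemma le_pt {A S : Set V} {c : Sym2 V → ℝ≥0∞} {x : ℝ≥0∞}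
    (h : ∀ u ∈ S, ∀ a ∈ A, ∀ p : G.Walk u a, x ≤ cost c p) : x ≤ pt G A S c := by
  unfold pt
  exact le_iInf₂ fun u hu => le_iInf₂ fun a ha => le_iInf fun p => h u hu a ha p

lemma pt_eq_zero {A S : Set V} {c : Sym2 V → ℝ≥0∞} {u : V} (hu : u ∈ S) (ha : u ∈ A) :
    pt G A S c = 0 :=
  le_antisymm ((pt_le hu ha SimpleGraph.Walk.nil).trans (by simp)) zero_le

lemma pt_anti {A S S' : Set V} {c : Sym2 V → ℝ≥0∞} (h : S ⊆ S') :
    pt G A S' c ≤ pt G A S c :=
  le_pt fun _ hu _ ha p => pt_le (h hu) ha p

lemma pt_step {A S : Set V} {c : Sym2 V → ℝ≥0∞} {u v : V} (hu : u ∈ S) (huv : G.Adj u v) :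
    pt G A S c ≤ c s(u, v) + pt G A (insert v S) c := by
  have : pt G A S c - c s(u, v) ≤ pt G A (insert v S) c := by
    refine le_pt fun x hx a ha p => ?_
    rw [tsub_le_iff_left]
    rcases Set.mem_insert_iff.mp hx with rfl | hx
    · have := pt_le hu ha (SimpleGraph.Walk.cons huv p) (c := c)
      rwa [cost_cons] at this
    · exact (pt_le hx ha p).trans le_add_self
  rwa [tsub_le_iff_left] at this

/-- Generic comparison: only the edges leaving `S` and the edges outside of `S` matter, and the
former need to be used only once. -/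
lemma pt_le_add {A S : Set V} {c c' : Sym2 V → ℝ≥0∞} {m : ℝ≥0∞}
    (hin : ∀ x y, G.Adj x y → x ∈ S → y ∉ S → c' s(x, y) ≤ c s(x, y) + m)
    (hout : ∀ x y, G.Adj x y → x ∉ S → y ∉ S → c' s(x, y) ≤ c s(x, y)) :
    pt G A S c' ≤ pt G A S c + m := by
  have key : ∀ {u a : V} (p : G.Walk u a), a ∈ A →
      pt G A S c' ≤ cost c p + m ∨ (u ∉ S ∧ cost c' p ≤ cost c p) := by
    intro u a p ha
    induction p with
    | nil =>
      rename_i x
      by_cases hx : x ∈ S
      · left
        rw [pt_eq_zero hx ha]
        exact zero_le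
      · right
        exact ⟨hx, by simp⟩
    | cons h q ih =>
      rename_i x y z
      rcases ih ha with h1 | ⟨hy, h1⟩
      · left
        refine h1.trans ?_
        rw [cost_cons]
        gcongr
        exact le_add_self
      · by_cases hx : x ∈ S
        · left
          refine (pt_le hx ha (SimpleGraph.Walk.cons h q)).trans ?_
          rw [cost_cons, cost_cons]
          calc c' s(x, y) + cost c' q ≤ (c s(x, y) + m) + cost c q :=
                add_le_add (hin x y h hx hy) h1
            _ = c s(x, y) + cost c q + m := by ring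
        · right
          refine ⟨hx, ?_⟩
          rw [cost_cons, cost_cons]
          exact add_le_add (hout x y h hx hy) h1
  have : pt G A S c' - m ≤ pt G A S c := by
    refine le_pt fun x hx a ha p => ?_
    rw [tsub_le_iff_right]
    rcases key p ha with h1 | ⟨h1, _⟩
    · exact h1
    · exact absurd hx h1
  rwa [tsub_le_iff_right] at this

/-- The passage time from `S` does not depend on the edges inside `S`. -/
lemma pt_congr_inside {A S : Set V} {c c' : Sym2 V → ℝ≥0∞}
    (h : ∀ x y, G.Adj x y → y ∉ S → c' s(x, y) = c s(x, y)) :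
    pt G A S c' = pt G A S c := by
  apply le_antisymm
  · have := pt_le_add (A := A) (S := S) (c := c) (c' := c') (m := 0)
      (fun x y hxy _ hy => by rw [h x y hxy hy]; simp) (fun x y hxy _ hy => (h x y hxy hy).le)
    simpa using this
  · have := pt_le_add (A := A) (S := S) (c := c') (c' := c) (m := 0)
      (fun x y hxy _ hy => by rw [h x y hxy hy]; simp) (fun x y hxy _ hy => (h x y hxy hy).ge)
    simpa using this

/-- A walk from `S` to `A` has to leave `S`. -/
lemma add_le_pt {A S : Set V} {c c' : Sym2 V → ℝ≥0∞} {m : ℝ≥0∞} (hSA : Disjoint S A)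
    (hle : ∀ e, c e ≤ c' e)
    (hin : ∀ x y, G.Adj x y → x ∈ S → y ∉ S → c s(x, y) + m ≤ c' s(x, y)) :
    pt G A S c + m ≤ pt G A S c' := by
  have key : ∀ {u a : V} (p : G.Walk u a), a ∈ A →
      (u ∈ S → cost c p + m ≤ cost c' p) ∧ cost c p ≤ cost c' p := by
    intro u a p ha
    induction p with
    | nil =>
      rename_i x
      exact ⟨fun hx => absurd ha (Set.disjoint_left.mp hSA hx), by simp⟩
    | cons h q ih =>
      rename_i x y z
      obtain ⟨h1, h2⟩ := ih ha
      refine ⟨fun hx => ?_, ?_⟩
      · rw [cost_cons, cost_cons]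
        by_cases hy : y ∈ S
        · calc c s(x, y) + cost c q + m = c s(x, y) + (cost c q + m) := by ring
            _ ≤ c' s(x, y) + cost c' q := add_le_add (hle _) (h1 hy)
        · calc c s(x, y) + cost c q + m = (c s(x, y) + m) + cost c q := by ring
            _ ≤ c' s(x, y) + cost c' q := add_le_add (hin x y h hx hy) h2
      · rw [cost_cons, cost_cons]
        exact add_le_add (hle _) h2
  refine le_pt fun x hx a ha p => ?_
  exact (add_le_add_left (pt_le hx ha p) m).trans ((key p ha).1 hx)

instance walk_countable [Countable V] (u v : V) : Countable (G.Walk u v) := by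
  have : Function.Injective (fun p : G.Walk u v => p.support) := fun p q h =>
    SimpleGraph.Walk.ext_support h
  exact this.countable

lemma measurable_cost {Ω : Type*} [MeasurableSpace Ω] {X : Sym2 V → Ω → ℝ≥0∞}
    (hX : ∀ e, Measurable (X e)) {u v : V} (p : G.Walk u v) :
    Measurable fun t => cost (fun e => X e t) p := by
  induction p with
  | nil => simp
  | cons h q ih =>
    simp only [cost_cons]
    exact (hX _).add ih

lemma measurable_pt [Countable V] {Ω : Type*} [MeasurableSpace Ω] {X : Sym2 V → Ω → ℝ≥0∞}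
    (hX : ∀ e, Measurable (X e)) (A S : Set V) :
    Measurable fun t => pt G A S (fun e => X e t) := by
  unfold pt
  refine Measurable.iInf fun u => Measurable.iInf fun _ => Measurable.iInf fun a =>
    Measurable.iInf fun _ => Measurable.iInf fun p => measurable_cost hX p

end Pool.Agent.Lib.MP_edae2b_pr
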